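import Mathlib

/-!
# Families of operators satisfying the Steinberg relations

A family `x i j` (`i ≠ j` in a finite set `s` with `n ≥ 3` elements) of invertible operators on a vector
space of dimension `< n` over an algebraically closed field which satisfies the Steinberg commutator
relations is trivial.
-/

set_option autoImplicit false

namespace Pool.Agent.R646.SLn

open Module

/-- The Steinberg relations for a family of units indexed by the ordered pairs in `s`. -/
structure StF {ι M : Type*} [Monoid M] (s : Finset ι) (x : ι → ι → M) : Prop where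
  u : ∀ i ∈ s, ∀ j ∈ s, i ≠ j → IsUnit (x i j)
  c1 : ∀ i ∈ s, ∀ j ∈ s, ∀ k ∈ s, i ≠ j → j ≠ k → i ≠ k → x i j * x j k = x i k * (x j k * x i j)
  c2 : ∀ i ∈ s, ∀ j ∈ s, ∀ k ∈ s, ∀ l ∈ s, i ≠ j → k ≠ l → j ≠ k → i ≠ l →
    x i j * x k l = x k l * x i j

section Monoid

variable {ι M : Type*} [Monoid M] {s : Finset ι} {x : ι → ι → M}

theorem StF.mono (h : StF s x) {t : Finset ι} (ht : t ⊆ s) : StF t x :=
  ⟨fun i hi j hj => h.u i (ht hi) j (ht hj),
    fun i hi j hj k hk => h.c1 i (ht hi) j (ht hj) k (ht hk),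
    fun i hi j hj k hk l hl => h.c2 i (ht hi) j (ht hj) k (ht hk) l (ht hl)⟩

theorem StF.map (h : StF s x) {N : Type*} [Monoid N] (f : M →* N) :
    StF s (fun i j => f (x i j)) :=
  ⟨fun i hi j hj hij => (h.u i hi j hj hij).map f,
    fun i hi j hj k hk h1 h2 h3 => by
      simp only [← map_mul]; rw [h.c1 i hi j hj k hk h1 h2 h3],
    fun i hi j hj k hk l hl h1 h2 h3 h4 => by
      simp only [← map_mul]; rw [h.c2 i hi j hj k hk l hl h1 h2 h3 h4]⟩

theorem StF.right (h : StF s x) {a b k : ι} (ha : a ∈ s) (hb : b ∈ s) (hk : k ∈ s) (hab : a ≠ b)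
    (hbk : b ≠ k) (hak : a ≠ k) (h1 : x a b = 1) : x a k = 1 := by
  have e := h.c1 a ha b hb k hk hab hbk hak
  rw [h1, one_mul, mul_one] at e
  have e' : (1 : M) * x b k = x a k * x b k := by rw [one_mul]; exact e
  exact ((h.u b hb k hk hbk).mul_right_cancel e').symm

theorem StF.left (h : StF s x) {a b k : ι} (ha : a ∈ s) (hb : b ∈ s) (hk : k ∈ s) (hab : a ≠ b)
    (hka : k ≠ a) (hkb : k ≠ b) (h1 : x a b = 1) : x k b = 1 := by
  have e := h.c1 k hk a ha b hb hka hab hkb
  rw [h1, one_mul, mul_one] at e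
  have e' : (1 : M) * x k a = x k b * x k a := by rw [one_mul]; exact e
  exact ((h.u k hk a ha hka).mul_right_cancel e').symm

theorem StF.triv [DecidableEq ι] (h : StF s x) (hs : 3 ≤ s.card) {a b : ι} (ha : a ∈ s)
    (hb : b ∈ s) (hab : a ≠ b) (h1 : x a b = 1) : ∀ i ∈ s, ∀ j ∈ s, i ≠ j → x i j = 1 := by
  have hrow : ∀ k ∈ s, a ≠ k → x a k = 1 := by
    intro k hk hak
    by_cases hbk : b = k
    · rw [← hbk]; exact h1
    · exact h.right ha hb hk hab hbk hak h1
  have hne : ∀ i ∈ s, ∀ j ∈ s, j ≠ a → i ≠ j → x i j = 1 := by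
    intro i hi j hj hja hij
    by_cases hia : i = a
    · rw [hia]; exact hrow j hj (Ne.symm hja)
    · exact h.left ha hj hi (Ne.symm hja) hia hij (hrow j hj (Ne.symm hja))
  intro i hi j hj hij
  by_cases hja : j = a
  · have hia : i ≠ a := fun e => hij (e.trans hja.symm)
    obtain ⟨k, hk, hk2⟩ : ∃ k ∈ s, k ∉ ({a, i} : Finset ι) := by
      by_contra hcon
      push Not at hcon
      have hle : s.card ≤ ({a, i} : Finset ι).card := Finset.card_le_card hcon
      have h2 : ({a, i} : Finset ι).card ≤ 2 := Finset.card_le_two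
      omega
    have hka : k ≠ a := fun e => hk2 (by simp [e])
    have hki : k ≠ i := fun e => hk2 (by simp [e])
    rw [hja]
    exact h.right hi hk ha (Ne.symm hki) hka hia (hne i hi k hk hka (Ne.symm hki))
  · exact hne i hi j hj hja hij

theorem StF.of_comm [DecidableEq ι] (h : StF s x) (hs : 3 ≤ s.card) {i j k : ι} (hi : i ∈ s)
    (hj : j ∈ s) (hk : k ∈ s) (hij : i ≠ j) (hjk : j ≠ k) (hik : i ≠ k)
    (hc : x i j * x j k = x j k * x i j) : ∀ i ∈ s, ∀ j ∈ s, i ≠ j → x i j = 1 := by
  have e := h.c1 i hi j hj k hk hij hjk hik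
  rw [hc] at e
  have e' : (1 : M) * (x j k * x i j) = x i k * (x j k * x i j) := by rw [one_mul]; exact e
  have hu : IsUnit (x j k * x i j) := (h.u j hj k hk hjk).mul (h.u i hi j hj hij)
  exact h.triv hs hi hk hik (hu.mul_right_cancel e').symm

end Monoid

section Linear

variable {K V : Type*} [Field K] [AddCommGroup V] [Module K V]

theorem comm_of_cyclic [FiniteDimensional K V] (hd : finrank K V ≤ 2) {z x y : End K V} {v : V}
    (hv : LinearIndependent K ![v, z v]) (hx : x * z = z * x) (hy : y * z = z * y) :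
    x * y = y * x := by
  have hcard : Fintype.card (Fin 2) = finrank K V := by
    have h1 := hv.fintype_card_le_finrank
    simp only [Fintype.card_fin] at h1 ⊢
    omega
  have hspan : Submodule.span K (Set.range ![v, z v]) = ⊤ := hv.span_eq_top_of_card_eq_finrank' hcard
  have hrep : ∀ w : V, ∃ α β : K, w = α • v + β • z v := by
    intro w
    have hw : w ∈ Submodule.span K (Set.range ![v, z v]) := by rw [hspan]; trivial
    rw [Matrix.range_cons, Matrix.range_cons, Matrix.range_empty, Set.union_empty,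
      Set.singleton_union, Submodule.mem_span_pair] at hw
    obtain ⟨α, β, e⟩ := hw
    exact ⟨α, β, e.symm⟩
  have hxz : ∀ w, x (z w) = z (x w) := fun w => by
    have := LinearMap.congr_fun hx w
    simpa using this
  have hyz : ∀ w, y (z w) = z (y w) := fun w => by
    have := LinearMap.congr_fun hy w
    simpa using this
  obtain ⟨α, β, hα⟩ := hrep (x v)
  obtain ⟨γ, δ, hγ⟩ := hrep (y v)
  have key : x (y v) = y (x v) := by
    rw [hγ, hα]
    simp only [map_add, map_smul, hxz, hyz, hα, hγ]
    simp only [smul_add, smul_smul]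
    rw [mul_comm γ α, mul_comm δ α, mul_comm γ β, mul_comm δ β]
    abel
  ext w
  obtain ⟨p, q, hw⟩ := hrep w
  rw [hw]
  simp only [Module.End.mul_apply, map_add, map_smul, hxz, hyz, key]

theorem base [FiniteDimensional K V] (hd : finrank K V ≤ 2) {ι : Type*} [DecidableEq ι]
    {s : Finset ι} {x : ι → ι → End K V} (h : StF s x) (hs : s.card = 3) :
    ∀ i ∈ s, ∀ j ∈ s, i ≠ j → x i j = 1 := by
  obtain ⟨a, b, c, hab, hac, hbc, rfl⟩ := Finset.card_eq_three.mp hs
  have ha : a ∈ ({a, b, c} : Finset ι) := by simp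
  have hb : b ∈ ({a, b, c} : Finset ι) := by simp
  have hc : c ∈ ({a, b, c} : Finset ι) := by simp
  by_cases hcase : ∀ v, ¬ LinearIndependent K ![v, x a c v]
  · obtain ⟨r, hr⟩ := LinearMap.exists_eq_smul_id_of_forall_notLinearIndependent hcase
    have hz : ∀ y : End K V, x a c * y = y * x a c := by
      intro y
      rw [hr]
      ext w
      simp
    have e := h.c1 a ha c hc b hb hac (Ne.symm hbc) hab
    rw [hz (x c b)] at e
    have e' : (1 : End K V) * (x c b * x a c) = x a b * (x c b * x a c) := by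
      rw [one_mul]; exact e
    have hu : IsUnit (x c b * x a c) := (h.u c hc b hb (Ne.symm hbc)).mul (h.u a ha c hc hac)
    exact h.triv hs.ge ha hb hab (hu.mul_right_cancel e').symm
  · push Not at hcase
    obtain ⟨v, hv⟩ := hcase
    refine h.of_comm hs.ge ha hb hc hab hbc hac ?_
    refine comm_of_cyclic hd hv ?_ ?_
    · exact h.c2 a ha b hb a ha c hc hab hac (Ne.symm hab) hac
    · exact h.c2 b hb c hc a ha c hc hbc hac (Ne.symm hac) hbc

theorem common_eig [IsAlgClosed K] [FiniteDimensional K V] [Nontrivial V] {ι : Type*}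
    [DecidableEq ι] (f : ι → End K V) (t : Finset ι)
    (hc : ∀ i ∈ t, ∀ j ∈ t, f i * f j = f j * f i) :
    ∃ v : V, v ≠ 0 ∧ ∃ χ : ι → K, ∀ i ∈ t, f i v = χ i • v := by
  induction t using Finset.induction_on with
  | empty =>
    obtain ⟨v, hv⟩ := exists_ne (0 : V)
    exact ⟨v, hv, fun _ => 1, by simp⟩
  | insert j t hj ih =>
    obtain ⟨v, hv, χ, hχ⟩ := ih (fun i hi k hk => hc i (Finset.mem_insert_of_mem hi) k
      (Finset.mem_insert_of_mem hk))
    let W : Submodule K V :=
      { carrier := {w | ∀ i ∈ t, f i w = χ i • w}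
        add_mem' := by
          intro p q hp hq i hi
          rw [map_add, hp i hi, hq i hi, smul_add]
        zero_mem' := by intro i _; simp
        smul_mem' := by
          intro r p hp i hi
          rw [map_smul, hp i hi, smul_comm] }
    have hinv : ∀ w ∈ W, f j w ∈ W := by
      intro w hw i hi
      have e := LinearMap.congr_fun (hc i (Finset.mem_insert_of_mem hi) j
        (Finset.mem_insert_self _ _)) w
      simp only [Module.End.mul_apply] at e
      rw [e, hw i hi, map_smul]
    have : Nontrivial W := ⟨⟨⟨v, hχ⟩, 0, fun e => hv (congrArg Subtype.val e)⟩⟩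
    obtain ⟨μ, hμ⟩ := Module.End.exists_eigenvalue ((f j).restrict hinv)
    obtain ⟨w, hw⟩ := hμ.exists_hasEigenvector
    have hw1 := hw.apply_eq_smul
    refine ⟨w.1, fun e => hw.2 (Subtype.ext e), Function.update χ j μ, ?_⟩
    intro i hi
    rcases Finset.mem_insert.mp hi with rfl | hi'
    · rw [Function.update_self]
      have := congrArg Subtype.val hw1
      simpa using this
    · have hij : i ≠ j := fun e => hj (e ▸ hi')
      rw [Function.update_of_ne hij]
      exact w.2 i hi'

theorem row_eig [FiniteDimensional K V] {ι : Type*} [DecidableEq ι] {s : Finset ι}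
    {x : ι → ι → End K V} (h : StF s x) (hs : 4 ≤ s.card) (hd : finrank K V < s.card) {a : ι}
    (ha : a ∈ s) {v : V} (hv : v ≠ 0) (χ : ι → K) (hχ : ∀ i ∈ s.erase a, x a i v = χ i • v) :
    ∀ b ∈ s.erase a, χ b = 1 := by
  intro b hb
  have hba : b ≠ a := (Finset.mem_erase.mp hb).1
  have hbs : b ∈ s := (Finset.mem_erase.mp hb).2
  by_contra hb1
  set T : Finset ι := (s.erase a).erase b with hT
  have hTs : ∀ k ∈ T, k ∈ s ∧ k ≠ a ∧ k ≠ b := fun k hk => by
    rw [hT, Finset.mem_erase, Finset.mem_erase] at hk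
    exact ⟨hk.2.2, hk.2.1, hk.1⟩
  have hinj : ∀ i ∈ s, ∀ j ∈ s, i ≠ j → ∀ w, x i j w = 0 → w = 0 := by
    intro i hi j hj hij w hw
    obtain ⟨g, hg⟩ := (h.u i hi j hj hij).exists_left_inv
    have := LinearMap.congr_fun hg w
    simpa [hw] using this.symm
  have hχ0 : ∀ k ∈ T, χ k ≠ 0 := by
    intro k hk h0
    obtain ⟨k1, k2, k3⟩ := hTs k hk
    have := hχ k (Finset.mem_erase.mpr ⟨k2, k1⟩)
    rw [h0, zero_smul] at this
    exact hv (hinj a ha k k1 (Ne.symm k2) v this)
  have key : ∀ J : Finset {k // k ∈ T}, ∃ w : V, w ≠ 0 ∧ x a b w = χ b • w ∧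
      ∀ k : {k // k ∈ T}, x a k w = (if k ∈ J then χ k * χ b else χ k) • w := by
    intro J
    induction J using Finset.induction_on with
    | empty =>
      refine ⟨v, hv, hχ b hb, fun k => ?_⟩
      obtain ⟨k1, k2, k3⟩ := hTs k.1 k.2
      simpa using hχ k.1 (Finset.mem_erase.mpr ⟨k2, k1⟩)
    | insert j J hj ih =>
      obtain ⟨w, hw0, hwb, hwk⟩ := ih
      obtain ⟨j1, j2, j3⟩ := hTs j.1 j.2
      have cb : x a b (x j b w) = x j b (x a b w) := by
        have := LinearMap.congr_fun (h.c2 a ha b hbs j j1 b hbs (Ne.symm hba) j3 (Ne.symm j3)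
          (Ne.symm hba)) w
        simpa using this
      refine ⟨x j b w, fun e => hw0 (hinj j j1 b hbs j3 w e), ?_, fun k => ?_⟩
      · rw [cb, hwb, map_smul]
      · obtain ⟨k1, k2, k3⟩ := hTs k.1 k.2
        by_cases hkj : k = j
        · subst hkj
          have e := LinearMap.congr_fun (h.c1 a ha k k1 b hbs (Ne.symm k2) k3 (Ne.symm hba)) w
          simp only [Module.End.mul_apply] at e
          have hk' := hwk k
          rw [if_neg hj] at hk'
          rw [e, hk', map_smul, map_smul, cb, hwb, map_smul, smul_smul, if_pos]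
          exact Finset.mem_insert_self _ _
        · have hkj' : k.1 ≠ j.1 := fun e => hkj (Subtype.ext e)
          have e := LinearMap.congr_fun (h.c2 a ha k k1 j j1 b hbs (Ne.symm k2) j3 hkj'
            (Ne.symm hba)) w
          simp only [Module.End.mul_apply] at e
          rw [e, hwk k, map_smul]
          congr 1
          simp [hkj]
  choose w hw0 hwb hwk using key
  let f : {k // k ∈ T} → End K V := fun k => x a k
  have hcomm : ∀ i j, f i * f j = f j * f i := by
    intro i j
    obtain ⟨i1, i2, i3⟩ := hTs i.1 i.2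
    obtain ⟨j1, j2, j3⟩ := hTs j.1 j.2
    exact h.c2 a ha i i1 a ha j j1 (Ne.symm i2) (Ne.symm j2) i2 (Ne.symm j2)
  have hind := Module.End.independent_iInf_maxGenEigenspace_of_forall_mapsTo f
    (fun i j φ => Module.End.mapsTo_maxGenEigenspace_of_comm (hcomm j i) φ)
  let X : Finset {k // k ∈ T} → ({k // k ∈ T} → K) := fun J k => if k ∈ J then χ k * χ b else χ k
  have hX : Function.Injective X := by
    intro J J' e
    ext k
    have ek : (if k ∈ J then χ k * χ b else χ k) = (if k ∈ J' then χ k * χ b else χ k) :=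
      congrFun e k
    have hne : χ k * χ b ≠ χ k := by
      intro e2
      apply hb1
      have : χ k * χ b = χ k * 1 := by rw [mul_one]; exact e2
      exact mul_left_cancel₀ (hχ0 k k.2) this
    by_cases h1 : k ∈ J <;> by_cases h2 : k ∈ J'
    · exact iff_of_true h1 h2
    · rw [if_pos h1, if_neg h2] at ek; exact absurd ek hne
    · rw [if_neg h1, if_pos h2] at ek; exact absurd ek.symm hne
    · exact iff_of_false h1 h2
  have hli : LinearIndependent K w := by
    refine (hind.comp hX).linearIndependent _ (fun J => ?_) hw0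
    rw [Function.comp, Submodule.mem_iInf]
    intro k
    rw [Module.End.mem_maxGenEigenspace]
    refine ⟨1, ?_⟩
    rw [pow_one]
    simp only [LinearMap.sub_apply, LinearMap.smul_apply, Module.End.one_apply]
    rw [sub_eq_zero]
    exact hwk J k
  have hcard := hli.fintype_card_le_finrank
  rw [Fintype.card_finset, Fintype.card_coe] at hcard
  have hTc : T.card = s.card - 2 := by
    rw [hT, Finset.card_erase_of_mem hb, Finset.card_erase_of_mem ha]; rfl
  rw [hTc] at hcard
  have hpow : ∀ m : ℕ, 2 ≤ m → m + 2 ≤ 2 ^ m := by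
    intro m hm
    induction m, hm using Nat.le_induction with
    | base => norm_num
    | succ m hm ih => rw [pow_succ]; omega
  have := hpow (s.card - 2) (by omega)
  omega

/-- **Theorem P.** -/
theorem steinberg_trivial [IsAlgClosed K] : ∀ (n : ℕ), 3 ≤ n → ∀ {V : Type*} [AddCommGroup V]
    [Module K V] [FiniteDimensional K V] {ι : Type*} [DecidableEq ι] {s : Finset ι}
    {x : ι → ι → End K V}, StF s x → s.card = n → finrank K V < n →
    ∀ i ∈ s, ∀ j ∈ s, i ≠ j → x i j = 1 := by
  intro n hn
  induction n, hn using Nat.le_induction with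
  | base =>
    intro V _ _ _ ι _ s x h hs hd
    exact base (by omega) h hs
  | succ n hn ih =>
    intro V _ _ _ ι _ s x h hs hd
    obtain ⟨a, ha⟩ : s.Nonempty := by rw [← Finset.card_pos]; omega
    obtain ⟨b, hb⟩ : (s.erase a).Nonempty := by
      rw [← Finset.card_pos, Finset.card_erase_of_mem ha]; omega
    have hba : b ≠ a := (Finset.mem_erase.mp hb).1
    have hbs : b ∈ s := (Finset.mem_erase.mp hb).2
    rcases subsingleton_or_nontrivial V with hV | hV
    · intro i _ j _ _
      ext v
      exact Subsingleton.elim _ _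
    obtain ⟨v, hv, χ, hχ⟩ := common_eig (fun j => x a j) (s.erase a) (by
      intro i hi j hj
      obtain ⟨i1, i2⟩ := Finset.mem_erase.mp hi
      obtain ⟨j1, j2⟩ := Finset.mem_erase.mp hj
      exact h.c2 a ha i i2 a ha j j2 (Ne.symm i1) (Ne.symm j1) i1 (Ne.symm j1))
    have h1 := row_eig h (by omega) (by omega) ha hv χ hχ
    let F : Submodule K V :=
      { carrier := {w | ∀ k ∈ s.erase a, x a k w = w}
        add_mem' := by
          intro p q hp hq i hi
          rw [map_add, hp i hi, hq i hi]
        zero_mem' := by intro i _; simp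
        smul_mem' := by
          intro r p hp i hi
          rw [map_smul, hp i hi] }
    have hvF : v ∈ F := fun k hk => by rw [hχ k hk, h1 k hk, one_smul]
    have hinv : ∀ i ∈ s.erase a, ∀ j ∈ s.erase a, i ≠ j → ∀ w ∈ F, x i j w ∈ F := by
      intro i hi j hj hij w hw k hk
      obtain ⟨i1, i2⟩ := Finset.mem_erase.mp hi
      obtain ⟨j1, j2⟩ := Finset.mem_erase.mp hj
      obtain ⟨k1, k2⟩ := Finset.mem_erase.mp hk
      by_cases hki : k = i
      · subst hki
        have e := LinearMap.congr_fun (h.c1 a ha k i2 j j2 (Ne.symm k1) hij (Ne.symm j1)) w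
        simp only [Module.End.mul_apply] at e
        rw [e, hw k hi]
        have e2 := LinearMap.congr_fun (h.c2 a ha j j2 k i2 j j2 (Ne.symm j1) hij (Ne.symm hij)
          (Ne.symm j1)) w
        simp only [Module.End.mul_apply] at e2
        rw [e2, hw j hj]
      · have e := LinearMap.congr_fun (h.c2 a ha k k2 i i2 j j2 (Ne.symm k1) hij hki
          (Ne.symm j1)) w
        simp only [Module.End.mul_apply] at e
        rw [e, hw k hk]
    by_cases hF : F = ⊤
    · refine h.triv (by omega) ha hbs (Ne.symm hba) ?_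
      ext w
      have hw : w ∈ F := by rw [hF]; trivial
      exact hw b hb
    have hFpos : 0 < finrank K F := by
      rw [Module.finrank_pos_iff]
      exact ⟨⟨⟨v, hvF⟩, 0, fun e => hv (congrArg Subtype.val e)⟩⟩
    have hFlt : finrank K F < finrank K V := Submodule.finrank_lt hF
    have hQ : finrank K (V ⧸ F) + finrank K F = finrank K V := F.finrank_quotient_add_finrank
    have hinj : ∀ i ∈ s, ∀ j ∈ s, i ≠ j → Function.Injective (x i j) := by
      intro i hi j hj hij
      obtain ⟨g, hg⟩ := (h.u i hi j hj hij).exists_left_inv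
      intro p q e
      have hp := LinearMap.congr_fun hg p
      have hq := LinearMap.congr_fun hg q
      simp only [Module.End.mul_apply, Module.End.one_apply] at hp hq
      rw [← hp, ← hq, e]
    have hsurj : ∀ i ∈ s, ∀ j ∈ s, i ≠ j → Function.Surjective (x i j) := fun i hi j hj hij =>
      LinearMap.surjective_of_injective (hinj i hi j hj hij)
    have hE : s.erase a ⊆ s := Finset.erase_subset _ _
    have hcE : (s.erase a).card = n := by rw [Finset.card_erase_of_mem ha, hs]; rfl
    -- restriction to `F`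
    have hx1 : ∀ i j, ∃ g : End K F, i ∈ s.erase a → j ∈ s.erase a → i ≠ j →
        ∀ w : F, ((g w : F) : V) = x i j w := by
      intro i j
      by_cases hh : i ∈ s.erase a ∧ j ∈ s.erase a ∧ i ≠ j
      · exact ⟨(x i j).restrict (hinv i hh.1 j hh.2.1 hh.2.2), fun _ _ _ w => rfl⟩
      · exact ⟨1, fun a1 a2 a3 => absurd ⟨a1, a2, a3⟩ hh⟩
    choose x1 hx1 using hx1
    have hS1 : StF (s.erase a) x1 := by
      refine ⟨?_, ?_, ?_⟩
      · intro i hi j hj hij
        rw [LinearMap.isUnit_iff_ker_eq_bot, LinearMap.ker_eq_bot]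
        intro p q e
        apply Subtype.ext
        apply hinj i (hE hi) j (hE hj) hij
        rw [← hx1 i j hi hj hij, ← hx1 i j hi hj hij, e]
      · intro i hi j hj k hk hij hjk hik
        ext w
        simp only [Module.End.mul_apply]
        rw [hx1 i j hi hj hij, hx1 j k hj hk hjk, hx1 i k hi hk hik, hx1 j k hj hk hjk,
          hx1 i j hi hj hij]
        exact LinearMap.congr_fun (h.c1 i (hE hi) j (hE hj) k (hE hk) hij hjk hik) w.1
      · intro i hi j hj k hk l hl hij hkl hjk hil
        ext w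
        simp only [Module.End.mul_apply]
        rw [hx1 i j hi hj hij, hx1 k l hk hl hkl, hx1 k l hk hl hkl, hx1 i j hi hj hij]
        exact LinearMap.congr_fun (h.c2 i (hE hi) j (hE hj) k (hE hk) l (hE hl) hij hkl hjk hil) w.1
    -- the quotient
    have hx2 : ∀ i j, ∃ g : End K (V ⧸ F), i ∈ s.erase a → j ∈ s.erase a → i ≠ j →
        ∀ w : V, g (F.mkQ w) = F.mkQ (x i j w) := by
      intro i j
      by_cases hh : i ∈ s.erase a ∧ j ∈ s.erase a ∧ i ≠ j
      · exact ⟨F.mapQ F (x i j) (fun w hw => hinv i hh.1 j hh.2.1 hh.2.2 w hw),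
          fun _ _ _ w => rfl⟩
      · exact ⟨1, fun a1 a2 a3 => absurd ⟨a1, a2, a3⟩ hh⟩
    choose x2 hx2 using hx2
    have hS2 : StF (s.erase a) x2 := by
      refine ⟨?_, ?_, ?_⟩
      · intro i hi j hj hij
        rw [LinearMap.isUnit_iff_range_eq_top, LinearMap.range_eq_top]
        intro p
        obtain ⟨w, rfl⟩ := F.mkQ_surjective p
        obtain ⟨u, rfl⟩ := hsurj i (hE hi) j (hE hj) hij w
        exact ⟨F.mkQ u, hx2 i j hi hj hij u⟩
      · intro i hi j hj k hk hij hjk hik
        refine LinearMap.ext fun p => ?_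
        obtain ⟨w, rfl⟩ := F.mkQ_surjective p
        simp only [Module.End.mul_apply]
        rw [hx2 i j hi hj hij, hx2 j k hj hk hjk, hx2 i j hi hj hij, hx2 j k hj hk hjk,
          hx2 i k hi hk hik]
        congr 1
        exact LinearMap.congr_fun (h.c1 i (hE hi) j (hE hj) k (hE hk) hij hjk hik) w
      · intro i hi j hj k hk l hl hij hkl hjk hil
        refine LinearMap.ext fun p => ?_
        obtain ⟨w, rfl⟩ := F.mkQ_surjective p
        simp only [Module.End.mul_apply]
        rw [hx2 i j hi hj hij, hx2 k l hk hl hkl, hx2 k l hk hl hkl, hx2 i j hi hj hij]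
        congr 1
        exact LinearMap.congr_fun (h.c2 i (hE hi) j (hE hj) k (hE hk) l (hE hl) hij hkl hjk hil) w
    have t1 := ih hS1 hcE (by omega)
    have t2 := ih hS2 hcE (by omega)
    -- three indices in `s.erase a`
    obtain ⟨p, q, r, hp, hq, hr, hpq, hpr, hqr⟩ := Finset.two_lt_card_iff.mp
      (show 2 < (s.erase a).card by omega)
    have hF1 : ∀ i ∈ s.erase a, ∀ j ∈ s.erase a, i ≠ j → ∀ w ∈ F, x i j w = w := by
      intro i hi j hj hij w hw
      have := hx1 i j hi hj hij ⟨w, hw⟩
      rw [t1 i hi j hj hij] at this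
      exact this.symm
    have hF2 : ∀ i ∈ s.erase a, ∀ j ∈ s.erase a, i ≠ j → ∀ w, x i j w - w ∈ F := by
      intro i hi j hj hij w
      have := hx2 i j hi hj hij w
      rw [t2 i hi j hj hij, Module.End.one_apply, ← sub_eq_zero, ← map_sub, Submodule.mkQ_apply,
        Submodule.Quotient.mk_eq_zero] at this
      have h3 := F.neg_mem this
      rwa [neg_sub] at h3
    refine h.of_comm (by omega) (hE hp) (hE hq) (hE hr) hpq hqr hpr ?_
    refine LinearMap.ext fun w => ?_
    simp only [Module.End.mul_apply]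
    have e1 := hF1 p hp q hq hpq _ (hF2 q hq r hr hqr w)
    have e2 := hF1 q hq r hr hqr _ (hF2 p hp q hq hpq w)
    rw [map_sub] at e1 e2
    rw [sub_eq_iff_eq_add] at e1 e2
    rw [e1, e2]
    abel

end Linear

end Pool.Agent.R646.SLn
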