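import Mathlib
import Pool.Agent.R646.SLn.Stein

/-!
# Elementary matrices in `SL (ι, ℤ)`
-/

set_option autoImplicit false

namespace Pool.Agent.R646.SLn

open Matrix

variable {ι : Type*} [Fintype ι] [DecidableEq ι]

/-- The elementary matrix `1 + c E_{ij}`. -/
def tv {i j : ι} (h : i ≠ j) (c : ℤ) : SpecialLinearGroup ι ℤ :=
  ⟨Matrix.transvection i j c, Matrix.det_transvection_of_ne i j h c⟩

theorem tv_zero {i j : ι} (h : i ≠ j) : tv h 0 = 1 := by
  apply Subtype.ext
  simp [tv, Matrix.transvection]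

theorem tv_mul {i j : ι} (h : i ≠ j) (a b : ℤ) : tv h a * tv h b = tv h (a + b) := by
  apply Subtype.ext
  exact Matrix.transvection_mul_transvection_same i j h a b

/-- The elementary matrix `1 + E_{ij}` (and `1` for `i = j`). -/
def el (i j : ι) : SpecialLinearGroup ι ℤ := if h : i ≠ j then tv h 1 else 1

theorem el_of_ne {i j : ι} (h : i ≠ j) : el i j = tv h 1 := dif_pos h

theorem tv_mem {N : Subgroup (SpecialLinearGroup ι ℤ)} {i j : ι} (h : i ≠ j)
    (h1 : el i j ∈ N) (c : ℤ) : tv h c ∈ N := by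
  rw [el_of_ne h] at h1
  induction c using Int.induction_on with
  | zero => rw [tv_zero]; exact N.one_mem
  | succ n ih => rw [← tv_mul]; exact N.mul_mem ih h1
  | pred n ih =>
    have e : tv h (-(n : ℤ) - 1) = tv h (-(n : ℤ)) * (tv h 1)⁻¹ := by
      rw [eq_mul_inv_iff_mul_eq, tv_mul]
      congr 1
      ring
    rw [e]
    exact N.mul_mem ih (N.inv_mem h1)

theorem tv_mul_same {i j : ι} (h : i ≠ j) (c : ℤ) (A : SpecialLinearGroup ι ℤ) (b : ι) :
    (tv h c * A) i b = A i b + c * A j b :=
  Matrix.transvection_mul_apply_same i j b c A.1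

theorem tv_mul_of_ne {i j : ι} (h : i ≠ j) (c : ℤ) (A : SpecialLinearGroup ι ℤ) {a : ι}
    (ha : a ≠ i) (b : ι) : (tv h c * A) a b = A a b :=
  Matrix.transvection_mul_apply_of_ne i j a b ha c A.1

theorem mul_tv_same {i j : ι} (h : i ≠ j) (c : ℤ) (A : SpecialLinearGroup ι ℤ) (a : ι) :
    (A * tv h c) a j = A a j + c * A a i :=
  Matrix.mul_transvection_apply_same i j a c A.1

theorem mul_tv_of_ne {i j : ι} (h : i ≠ j) (c : ℤ) (A : SpecialLinearGroup ι ℤ) (a : ι) {b : ι}
    (hb : b ≠ j) : (A * tv h c) a b = A a b :=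
  Matrix.mul_transvection_apply_of_ne i j a b hb c A.1

/-- Matrices equal to the identity outside the block `s`. -/
def Blk (s : Finset ι) (A : SpecialLinearGroup ι ℤ) : Prop :=
  ∀ i j, (i ∉ s ∨ j ∉ s) → A i j = if i = j then 1 else 0

theorem Blk.tv_mul {s : Finset ι} {A : SpecialLinearGroup ι ℤ} (hA : Blk s A) {i j : ι}
    (hi : i ∈ s) (hj : j ∈ s) (h : i ≠ j) (c : ℤ) : Blk s (tv h c * A) := by
  intro k l hkl
  by_cases hk : k = i
  · subst hk
    rw [tv_mul_same]
    have hl : l ∉ s := by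
      rcases hkl with h1 | h1
      · exact absurd hi h1
      · exact h1
    rw [hA k l (Or.inr hl), hA j l (Or.inr hl)]
    have h1 : k ≠ l := fun e => hl (e ▸ hi)
    have h2 : j ≠ l := fun e => hl (e ▸ hj)
    simp [h1, h2]
  · rw [tv_mul_of_ne h c A hk]
    exact hA k l hkl

theorem Blk.mul_tv {s : Finset ι} {A : SpecialLinearGroup ι ℤ} (hA : Blk s A) {i j : ι}
    (hi : i ∈ s) (hj : j ∈ s) (h : i ≠ j) (c : ℤ) : Blk s (A * tv h c) := by
  intro k l hkl
  by_cases hl : l = j
  · subst hl
    rw [mul_tv_same]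
    have hk : k ∉ s := by
      rcases hkl with h1 | h1
      · exact h1
      · exact absurd hj h1
    rw [hA k l (Or.inl hk), hA k i (Or.inl hk)]
    have h1 : k ≠ l := fun e => hk (e ▸ hj)
    have h2 : k ≠ i := fun e => hk (e ▸ hi)
    simp [h1, h2]
  · rw [mul_tv_of_ne h c A k hl]
    exact hA k l hkl

theorem exists_red (u v : ℤ) (hv : v ≠ 0) (huv : v.natAbs ≤ u.natAbs) :
    ∃ c : ℤ, (u + c * v).natAbs < u.natAbs := by
  rcases lt_or_gt_of_ne hv with h1 | h1 <;> rcases le_or_gt 0 u with h2 | h2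
  · exact ⟨1, by omega⟩
  · exact ⟨-1, by omega⟩
  · exact ⟨-1, by omega⟩
  · exact ⟨1, by omega⟩

theorem colred {N : Subgroup (SpecialLinearGroup ι ℤ)} (hN : ∀ i j : ι, i ≠ j → el i j ∈ N)
    {s : Finset ι} {i0 : ι} (h0 : i0 ∈ s) : ∀ (m : ℕ) (A : SpecialLinearGroup ι ℤ), Blk s A →
    ∑ i ∈ s, (A i i0).natAbs ≤ m →
    ∃ B ∈ N, Blk s (B * A) ∧ ∃ k ∈ s, ∀ i, i ≠ k → (B * A) i i0 = 0 := by
  intro m
  induction m with
  | zero =>
    intro A hA hm
    refine ⟨1, N.one_mem, by rwa [one_mul], i0, h0, fun i hi => ?_⟩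
    rw [one_mul]
    by_cases his : i ∈ s
    · have := Finset.sum_eq_zero_iff.mp (Nat.le_zero.mp hm) i his
      exact Int.natAbs_eq_zero.mp this
    · rw [hA i i0 (Or.inl his), if_neg hi]
  | succ m ih =>
    intro A hA hm
    have step : ∀ i ∈ s, ∀ j ∈ s, i ≠ j → A j i0 ≠ 0 → (A j i0).natAbs ≤ (A i i0).natAbs →
        ∃ B ∈ N, Blk s (B * A) ∧ ∃ k ∈ s, ∀ i, i ≠ k → (B * A) i i0 = 0 := by
      intro i hi j hj hij hj0 hle
      obtain ⟨c, hc⟩ := exists_red (A i i0) (A j i0) hj0 hle
      have hlt : ∑ k ∈ s, ((tv hij c * A) k i0).natAbs < ∑ k ∈ s, (A k i0).natAbs := by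
        apply Finset.sum_lt_sum
        · intro k _
          by_cases hk : k = i
          · subst hk
            rw [tv_mul_same]; exact hc.le
          · rw [tv_mul_of_ne hij c A hk]
        · exact ⟨i, hi, by rw [tv_mul_same]; exact hc⟩
      obtain ⟨B, hB, hB1, k, hk, hk2⟩ := ih (tv hij c * A) (hA.tv_mul hi hj hij c) (by omega)
      refine ⟨B * tv hij c, N.mul_mem hB (tv_mem hij (hN i j hij) c), ?_, k, hk, ?_⟩
      · rwa [mul_assoc]
      · rwa [mul_assoc]
    by_cases hcase : ∃ i ∈ s, ∃ j ∈ s, i ≠ j ∧ A i i0 ≠ 0 ∧ A j i0 ≠ 0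
    · obtain ⟨i, hi, j, hj, hij, hi0, hj0⟩ := hcase
      rcases le_total (A j i0).natAbs (A i i0).natAbs with hle | hle
      · exact step i hi j hj hij hj0 hle
      · exact step j hj i hi hij.symm hi0 hle
    · push Not at hcase
      by_cases hk : ∃ k ∈ s, A k i0 ≠ 0
      · obtain ⟨k, hk, hk0⟩ := hk
        refine ⟨1, N.one_mem, by rwa [one_mul], k, hk, fun i hi => ?_⟩
        rw [one_mul]
        by_cases his : i ∈ s
        · exact hcase k hk i his (Ne.symm hi) hk0
        · rw [hA i i0 (Or.inl his), if_neg]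
          intro e
          exact his (e ▸ h0)
      · push Not at hk
        refine ⟨1, N.one_mem, by rwa [one_mul], i0, h0, fun i hi => ?_⟩
        rw [one_mul]
        by_cases his : i ∈ s
        · exact hk i his
        · rw [hA i i0 (Or.inl his), if_neg hi]

theorem colone {N : Subgroup (SpecialLinearGroup ι ℤ)} (hN : ∀ i j : ι, i ≠ j → el i j ∈ N)
    {s : Finset ι} (hs : 2 ≤ s.card) {i0 : ι} (h0 : i0 ∈ s) (A : SpecialLinearGroup ι ℤ)
    (hA : Blk s A) :
    ∃ B ∈ N, Blk s (B * A) ∧ ∀ i, (B * A) i i0 = if i = i0 then 1 else 0 := by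
  obtain ⟨B, hB, hB1, k, hk, hk2⟩ := colred hN h0 _ A hA le_rfl
  set A' := B * A with hA'
  have hu : A' k i0 = 1 ∨ A' k i0 = -1 := by
    have e : ((A'⁻¹ * A' : SpecialLinearGroup ι ℤ)) i0 i0 = 1 := by
      rw [inv_mul_cancel]; simp
    have e2 : (A'⁻¹ * A' : SpecialLinearGroup ι ℤ) i0 i0 = A'⁻¹ i0 k * A' k i0 := by
      change ((A'⁻¹).1 * A'.1) i0 i0 = (A'⁻¹).1 i0 k * A'.1 k i0
      rw [Matrix.mul_apply]
      apply Finset.sum_eq_single k
      · intro b _ hb
        have hb' : A'.1 b i0 = 0 := hk2 b hb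
        rw [hb', mul_zero]
      · intro h; exact absurd (Finset.mem_univ k) h
    rw [e2] at e
    have hun : IsUnit (A' k i0) := IsUnit.of_mul_eq_one_right _ e
    exact Int.isUnit_iff.mp hun
  -- reduce to `∃ C ∈ N, …` for `A'`
  have fin : ∀ C ∈ N, Blk s (C * A') → (∀ i, (C * A') i i0 = if i = i0 then 1 else 0) →
      ∃ B ∈ N, Blk s (B * A) ∧ ∀ i, (B * A) i i0 = if i = i0 then 1 else 0 := by
    intro C hC h1 h2
    refine ⟨C * B, N.mul_mem hC hB, ?_, ?_⟩
    · rw [mul_assoc]; exact h1
    · rw [mul_assoc]; exact h2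
  by_cases hki : k = i0
  · subst hki
    rcases hu with hu | hu
    · refine fin 1 N.one_mem (by rwa [one_mul]) (fun i => ?_)
      rw [one_mul]
      by_cases hi : i = k
      · rw [hi, hu, if_pos rfl]
      · rw [hk2 i hi, if_neg hi]
    · obtain ⟨j, hj, hjk⟩ : ∃ j ∈ s, j ≠ k := by
        by_contra hcon
        push Not at hcon
        have : s ⊆ {k} := fun j hj => Finset.mem_singleton.mpr (hcon j hj)
        have := Finset.card_le_card this
        rw [Finset.card_singleton] at this
        omega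
      refine fin (tv hjk 1 * (tv hjk.symm (-2) * tv hjk 1)) (N.mul_mem (tv_mem hjk (hN _ _ hjk) _)
        (N.mul_mem (tv_mem hjk.symm (hN _ _ hjk.symm) _) (tv_mem hjk (hN _ _ hjk) _))) ?_ ?_
      · rw [mul_assoc, mul_assoc]
        exact ((hB1.tv_mul hj hk hjk 1).tv_mul hk hj hjk.symm (-2)).tv_mul hj hk hjk 1
      · intro i
        rw [mul_assoc, mul_assoc]
        by_cases hij : i = j
        · subst hij
          rw [tv_mul_same, tv_mul_of_ne hjk.symm _ _ hjk, tv_mul_same, tv_mul_same,
            tv_mul_of_ne hjk _ _ hjk.symm, tv_mul_same, hu, hk2 i hjk, if_neg hjk]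
          norm_num
        · rw [tv_mul_of_ne hjk _ _ hij]
          by_cases hik : i = k
          · subst hik
            rw [tv_mul_same, tv_mul_of_ne hjk _ _ hij, tv_mul_same, hu, hk2 j hjk, if_pos rfl]
            norm_num
          · rw [tv_mul_of_ne hjk.symm _ _ hik, tv_mul_of_ne hjk _ _ hij, hk2 i hik, if_neg hik]
  · have hik : i0 ≠ k := Ne.symm hki
    have hsq : A' k i0 * A' k i0 = 1 := by rcases hu with hu | hu <;> rw [hu] <;> norm_num
    refine fin (tv hki (-(A' k i0)) * tv hik (A' k i0)) (N.mul_mem (tv_mem hki (hN _ _ hki) _)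
        (tv_mem hik (hN _ _ hik) _)) ?_ ?_
    · rw [mul_assoc]
      exact (hB1.tv_mul h0 hk hik _).tv_mul hk h0 hki _
    · intro i
      rw [mul_assoc]
      by_cases hi : i = k
      · subst hi
        rw [tv_mul_same, tv_mul_of_ne hik _ _ hki, tv_mul_same, hk2 i0 hik, if_neg hki, hsq]
        ring
      · rw [tv_mul_of_ne hki _ _ hi]
        by_cases hi0 : i = i0
        · subst hi0
          rw [tv_mul_same, hk2 i hik, hsq, if_pos rfl, zero_add]
        · rw [tv_mul_of_ne hik _ _ hi0, hk2 i hi, if_neg hi0]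

theorem rowred {N : Subgroup (SpecialLinearGroup ι ℤ)} (hN : ∀ i j : ι, i ≠ j → el i j ∈ N)
    {s : Finset ι} {i0 : ι} (h0 : i0 ∈ s) : ∀ (m : ℕ) (A : SpecialLinearGroup ι ℤ), Blk s A →
    (∀ i, A i i0 = if i = i0 then 1 else 0) →
    ∑ i ∈ s.erase i0, (A i0 i).natAbs ≤ m →
    ∃ B ∈ N, Blk s (A * B) ∧ (∀ i, (A * B) i i0 = if i = i0 then 1 else 0) ∧
      ∀ j, j ≠ i0 → (A * B) i0 j = 0 := by
  intro m
  induction m with
  | zero =>
    intro A hA hc hm
    refine ⟨1, N.one_mem, by rwa [mul_one], by rwa [mul_one], fun j hj => ?_⟩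
    rw [mul_one]
    by_cases hjs : j ∈ s
    · have := Finset.sum_eq_zero_iff.mp (Nat.le_zero.mp hm) j (Finset.mem_erase.mpr ⟨hj, hjs⟩)
      exact Int.natAbs_eq_zero.mp this
    · rw [hA i0 j (Or.inr hjs), if_neg (Ne.symm hj)]
  | succ m ih =>
    intro A hA hc hm
    by_cases hcase : ∃ j ∈ s.erase i0, A i0 j ≠ 0
    · obtain ⟨j, hj, hj0⟩ := hcase
      obtain ⟨hji, hjs⟩ := Finset.mem_erase.mp hj
      have hij : i0 ≠ j := Ne.symm hji
      have hlt : ∑ k ∈ s.erase i0, ((A * tv hij (-(A i0 j))) i0 k).natAbs <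
          ∑ k ∈ s.erase i0, (A i0 k).natAbs := by
        apply Finset.sum_lt_sum
        · intro k _
          by_cases hk : k = j
          · subst hk
            rw [mul_tv_same, hc i0, if_pos rfl]
            simp
          · rw [mul_tv_of_ne hij _ A i0 hk]
        · refine ⟨j, hj, ?_⟩
          rw [mul_tv_same, hc i0, if_pos rfl]
          simp [Int.natAbs_pos, hj0]
      obtain ⟨B, hB, h1, h2, h3⟩ := ih (A * tv hij (-(A i0 j))) (hA.mul_tv h0 hjs hij _) (by
        intro i
        rw [mul_tv_of_ne hij _ A i hij]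
        exact hc i) (by omega)
      refine ⟨tv hij (-(A i0 j)) * B, N.mul_mem (tv_mem hij (hN _ _ hij) _) hB, ?_, ?_, ?_⟩
      · rwa [← mul_assoc]
      · rwa [← mul_assoc]
      · rwa [← mul_assoc]
    · push Not at hcase
      refine ⟨1, N.one_mem, by rwa [mul_one], by rwa [mul_one], fun j hj => ?_⟩
      rw [mul_one]
      by_cases hjs : j ∈ s
      · exact hcase j (Finset.mem_erase.mpr ⟨hj, hjs⟩)
      · rw [hA i0 j (Or.inr hjs), if_neg (Ne.symm hj)]

theorem blk_mem {N : Subgroup (SpecialLinearGroup ι ℤ)} (hN : ∀ i j : ι, i ≠ j → el i j ∈ N) :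
    ∀ (n : ℕ) (s : Finset ι), s.card = n → ∀ A : SpecialLinearGroup ι ℤ, Blk s A → A ∈ N := by
  intro n
  induction n with
  | zero =>
    intro s hs A hA
    rw [Finset.card_eq_zero] at hs
    subst hs
    have : A = 1 := by
      apply Subtype.ext
      ext i j
      have h1 : A.1 i j = if i = j then 1 else 0 := hA i j (Or.inl (by simp))
      change A.1 i j = (1 : Matrix ι ι ℤ) i j
      rw [h1, Matrix.one_apply]
    rw [this]; exact N.one_mem
  | succ n ih =>
    intro s hs A hA
    rcases Nat.eq_zero_or_pos n with hn | hn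
    · obtain ⟨i0, hi0⟩ := Finset.card_eq_one.mp (hs.trans (by rw [hn]))
      subst hi0
      -- `A` is diagonal with one free entry
      have hoff : ∀ i j, i ≠ j → A i j = 0 := by
        intro i j hij
        have : i ∉ ({i0} : Finset ι) ∨ j ∉ ({i0} : Finset ι) := by
          by_contra hcon
          push Not at hcon
          obtain ⟨h1, h2⟩ := hcon
          exact hij ((Finset.mem_singleton.mp h1).trans (Finset.mem_singleton.mp h2).symm)
        rw [hA i j this, if_neg hij]
      have hdiag : (A : Matrix ι ι ℤ) = Matrix.diagonal (fun i => A i i) := by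
        ext i j
        rw [Matrix.diagonal_apply]
        split_ifs with h
        · rw [h]
        · exact hoff i j h
      have hdet : ∏ i, A i i = 1 := by
        have h1 := A.2
        have h2 : (A : Matrix ι ι ℤ).det = ∏ i, A i i := by
          rw [hdiag, Matrix.det_diagonal]
          simp
        rw [← h2]; exact h1
      have hi0 : A i0 i0 = 1 := by
        refine Eq.trans ?_ hdet
        symm
        apply Finset.prod_eq_single i0
        · intro b _ hb
          rw [hA b b (Or.inl (fun h => hb (Finset.mem_singleton.mp h))), if_pos rfl]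
        · intro h; exact absurd (Finset.mem_univ _) h
      have : A = 1 := by
        apply Subtype.ext
        ext i j
        change A.1 i j = (1 : Matrix ι ι ℤ) i j
        rw [Matrix.one_apply]
        split_ifs with h
        · subst h
          by_cases hii : i = i0
          · rw [hii]; exact hi0
          · exact (hA i i (Or.inl (fun h => hii (Finset.mem_singleton.mp h)))).trans (if_pos rfl)
        · exact hoff i j h
      rw [this]; exact N.one_mem
    · obtain ⟨i0, h0⟩ : s.Nonempty := by rw [← Finset.card_pos]; omega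
      obtain ⟨B, hB, hB1, hB2⟩ := colone hN (by omega) h0 A hA
      obtain ⟨C, hC, hC1, hC2, hC3⟩ := rowred hN h0 _ (B * A) hB1 hB2 le_rfl
      have hmem : B * A * C ∈ N := by
        apply ih (s.erase i0) (by rw [Finset.card_erase_of_mem h0, hs]; rfl)
        intro i j hij
        by_cases hi : i = i0
        · subst hi
          by_cases hj : j = i
          · subst hj
            rw [hC2 j]
          · rw [hC3 j hj, if_neg (Ne.symm hj)]
        · by_cases hj : j = i0
          · subst hj
            rw [hC2 i]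
          · apply hC1
            rcases hij with h | h
            · exact Or.inl (fun hh => h (Finset.mem_erase.mpr ⟨hi, hh⟩))
            · exact Or.inr (fun hh => h (Finset.mem_erase.mpr ⟨hj, hh⟩))
      have e : A = B⁻¹ * (B * A * C) * C⁻¹ := by group
      rw [e]
      exact N.mul_mem (N.mul_mem (N.inv_mem hB) hmem) (N.inv_mem hC)

theorem eq_top_of_el {N : Subgroup (SpecialLinearGroup ι ℤ)} (hN : ∀ i j : ι, i ≠ j → el i j ∈ N) :
    N = ⊤ := by
  rw [eq_top_iff]
  intro A _
  exact blk_mem hN _ Finset.univ rfl A (fun i j h => by simp at h)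

/-- The elementary matrices satisfy the Steinberg relations. -/
theorem stF_el : StF (Finset.univ : Finset ι) (fun i j : ι => (el i j : SpecialLinearGroup ι ℤ)) := by
  refine ⟨fun _ _ _ _ _ => Group.isUnit _, ?_, ?_⟩
  · intro i _ j _ k _ hij hjk hik
    rw [el_of_ne hij, el_of_ne hjk, el_of_ne hik]
    apply Subtype.ext
    change Matrix.transvection i j (1 : ℤ) * Matrix.transvection j k 1 =
      Matrix.transvection i k 1 * (Matrix.transvection j k 1 * Matrix.transvection i j 1)
    have z1 : Matrix.single j k (1 : ℤ) * Matrix.single i j 1 = 0 :=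
      Matrix.single_mul_single_of_ne _ _ _ _ hik.symm _
    have z2 : Matrix.single i k (1 : ℤ) * Matrix.single j k 1 = 0 :=
      Matrix.single_mul_single_of_ne _ _ _ _ hjk.symm _
    have z3 : Matrix.single i k (1 : ℤ) * Matrix.single i j 1 = 0 :=
      Matrix.single_mul_single_of_ne _ _ _ _ hik.symm _
    have z4 : Matrix.single i j (1 : ℤ) * Matrix.single j k 1 = Matrix.single i k 1 := by
      rw [Matrix.single_mul_single_same, one_mul]
    unfold Matrix.transvection
    simp only [mul_add, add_mul, one_mul, mul_one, z1, z2, z3, z4, mul_zero, add_zero]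
    abel
  · intro i _ j _ k _ l _ hij hkl hjk hil
    rw [el_of_ne hij, el_of_ne hkl]
    apply Subtype.ext
    change Matrix.transvection i j (1 : ℤ) * Matrix.transvection k l 1 =
      Matrix.transvection k l 1 * Matrix.transvection i j 1
    have z1 : Matrix.single i j (1 : ℤ) * Matrix.single k l 1 = 0 :=
      Matrix.single_mul_single_of_ne _ _ _ _ hjk _
    have z2 : Matrix.single k l (1 : ℤ) * Matrix.single i j 1 = 0 :=
      Matrix.single_mul_single_of_ne _ _ _ _ hil.symm _
    unfold Matrix.transvection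
    simp only [mul_add, add_mul, one_mul, mul_one, z1, z2]
    abel

end Pool.Agent.R646.SLn
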