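import Mathlib
import Pool.Agent.R646.SLn.Gen

/-!
# Homomorphisms from `SL (ι, ℤ)` to small linear groups and to automorphism groups of `p`-groups
-/

set_option autoImplicit false

namespace Pool.Agent.R646.SLn

open Matrix Module

variable {ι : Type*} [Fintype ι] [DecidableEq ι]

theorem eq_one_of_el {M : Type*} [Monoid M] (ρ : SpecialLinearGroup ι ℤ →* M)
    (h : ∀ i j : ι, i ≠ j → ρ (el i j) = 1) : ρ = 1 := by
  have h1 : ρ.ker = ⊤ := eq_top_of_el (fun i j hij => by
    rw [MonoidHom.mem_ker]; exact h i j hij)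
  ext A
  have : A ∈ ρ.ker := by rw [h1]; trivial
  exact this

omit [DecidableEq ι] in
theorem two_ne (hn : 3 ≤ Fintype.card ι) : ∃ i j k : ι, i ≠ j ∧ i ≠ k ∧ j ≠ k :=
  Fintype.two_lt_card_iff.mp (by omega)

/-- `SL (n, ℤ)` is perfect: every homomorphism to a commutative monoid is trivial. -/
theorem comm_trivial (hn : 3 ≤ Fintype.card ι) {M : Type*} [CommMonoid M]
    (ρ : SpecialLinearGroup ι ℤ →* M) : ρ = 1 := by
  obtain ⟨i, j, k, hij, hik, hjk⟩ := two_ne hn
  have h := (stF_el (ι := ι)).map ρ
  have h1 := h.of_comm hn (Finset.mem_univ i) (Finset.mem_univ j) (Finset.mem_univ k) hij hjk hik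
    (mul_comm _ _)
  exact eq_one_of_el ρ (fun i j hij => h1 i (Finset.mem_univ i) j (Finset.mem_univ j) hij)

/-- Homomorphisms to matrices of size smaller than `n` are trivial. -/
theorem matrix_trivial (hn : 3 ≤ Fintype.card ι) {K : Type*} [Field K] {m : ℕ}
    (hm : m < Fintype.card ι) (ρ : SpecialLinearGroup ι ℤ →* Matrix (Fin m) (Fin m) K) :
    ρ = 1 := by
  let L := AlgebraicClosure K
  let f1 : Matrix (Fin m) (Fin m) K →+* Matrix (Fin m) (Fin m) L := (algebraMap K L).mapMatrix
  let f2 : Matrix (Fin m) (Fin m) L →* End L (Fin m → L) :=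
    ((Matrix.toLinAlgEquiv' : Matrix (Fin m) (Fin m) L ≃ₐ[L] _) : _ →* _)
  have h := ((stF_el (ι := ι)).map ρ).map (f2.comp f1.toMonoidHom)
  have h1 := steinberg_trivial (K := L) (Fintype.card ι) hn h Finset.card_univ (by
    rw [Module.finrank_fin_fun]; exact hm)
  refine eq_one_of_el ρ (fun i j hij => ?_)
  have h2 := h1 i (Finset.mem_univ i) j (Finset.mem_univ j) hij
  have h3 : f1 (ρ (el i j)) = 1 := by
    have h4 : f2 (f1 (ρ (el i j))) = f2 1 := by rw [map_one]; exact h2
    exact (Matrix.toLinAlgEquiv' : Matrix (Fin m) (Fin m) L ≃ₐ[L] _).injective h4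
  have h5 : f1 (ρ (el i j)) = f1 1 := by rw [map_one]; exact h3
  exact Matrix.map_injective (algebraMap K L).injective h5

theorem end_trivial (hn : 3 ≤ Fintype.card ι) {K V : Type*} [Field K] [AddCommGroup V] [Module K V]
    [FiniteDimensional K V] (hm : finrank K V < Fintype.card ι)
    (ρ : SpecialLinearGroup ι ℤ →* End K V) : ρ = 1 := by
  let e := LinearMap.toMatrixAlgEquiv (Module.finBasis K V)
  have h := matrix_trivial hn hm ((e : End K V →* Matrix _ _ K).comp ρ)
  ext A : 1
  have h2 := DFunLike.congr_fun h A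
  have h3 : e (ρ A) = e 1 := by rw [map_one]; exact h2
  exact e.injective h3

section PGroup

variable {M : Type*} [Group M]

/-- Additive functions on `M` with values in `ZMod p`. -/
def addFun (p : ℕ) (M : Type*) [Group M] : Submodule (ZMod p) (M → ZMod p) where
  carrier := {f | ∀ x y, f (x * y) = f x + f y}
  add_mem' := by
    intro f g hf hg x y
    simp only [Pi.add_apply, hf x y, hg x y]
    ring
  zero_mem' := by intro x y; simp
  smul_mem' := by
    intro c f hf x y
    simp only [Pi.smul_apply, hf x y, smul_add]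

theorem addFun_one {p : ℕ} {f : M → ZMod p} (hf : f ∈ addFun p M) : f 1 = 0 := by
  have := hf 1 1
  rw [mul_one] at this
  simpa using this

theorem addFun_inv {p : ℕ} {f : M → ZMod p} (hf : f ∈ addFun p M) (x : M) : f x⁻¹ = - f x := by
  have := hf x⁻¹ x
  rw [inv_mul_cancel, addFun_one hf] at this
  exact eq_neg_of_add_eq_zero_left this.symm

theorem addFun_ext {p m : ℕ} (g : Fin m → M) (hg : Subgroup.closure (Set.range g) = ⊤)
    {f : M → ZMod p} (hf : f ∈ addFun p M) (h0 : ∀ i, f (g i) = 0) : f = 0 := by
  funext x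
  have hx : x ∈ Subgroup.closure (Set.range g) := by rw [hg]; trivial
  induction hx using Subgroup.closure_induction with
  | mem x hx => obtain ⟨i, rfl⟩ := hx; exact h0 i
  | one => exact addFun_one hf
  | mul x y _ _ hx hy => rw [hf x y, hx, hy]; simp
  | inv x _ hx => rw [addFun_inv hf, hx]; simp

theorem addFun_inv_act (hn : 3 ≤ Fintype.card ι) {p : ℕ} [Fact p.Prime] {m : ℕ}
    (hm : m < Fintype.card ι) (g : Fin m → M) (hg : Subgroup.closure (Set.range g) = ⊤)
    (φ : SpecialLinearGroup ι ℤ →* MulAut M) {f : M → ZMod p} (hf : f ∈ addFun p M)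
    (s : SpecialLinearGroup ι ℤ) (x : M) : f (φ s x) = f x := by
  let ev : addFun p M →ₗ[ZMod p] (Fin m → ZMod p) :=
    { toFun := fun f i => f.1 (g i)
      map_add' := fun _ _ => rfl
      map_smul' := fun _ _ => rfl }
  have hev : Function.Injective ev := by
    rw [injective_iff_map_eq_zero]
    intro f hf0
    exact Subtype.ext (addFun_ext g hg f.2 (fun i => congrFun hf0 i))
  have : FiniteDimensional (ZMod p) (addFun p M) := FiniteDimensional.of_injective ev hev
  have hfr : finrank (ZMod p) (addFun p M) < Fintype.card ι := by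
    have h1 := LinearMap.finrank_le_finrank_of_injective hev
    rw [Module.finrank_fin_fun] at h1
    omega
  let ρ : SpecialLinearGroup ι ℤ →* End (ZMod p) (addFun p M) :=
    { toFun := fun s =>
        { toFun := fun f => ⟨fun x => f.1 (φ s⁻¹ x), fun x y => by
            change f.1 (φ s⁻¹ (x * y)) = f.1 (φ s⁻¹ x) + f.1 (φ s⁻¹ y)
            rw [map_mul]; exact f.2 _ _⟩
          map_add' := fun _ _ => rfl
          map_smul' := fun _ _ => rfl }
      map_one' := by
        refine LinearMap.ext fun f => Subtype.ext (funext fun x => ?_)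
        simp
      map_mul' := by
        intro s t
        refine LinearMap.ext fun f => Subtype.ext (funext fun x => ?_)
        simp [_root_.mul_inv_rev] }
  have h1 := end_trivial hn hfr ρ
  have h2 := congrArg (fun r : addFun p M => r.1 x)
    (LinearMap.congr_fun (DFunLike.congr_fun h1 s⁻¹) ⟨f, hf⟩)
  simpa [ρ] using h2

theorem hom_inv_of_card (hn : 3 ≤ Fintype.card ι) {p : ℕ} [Fact p.Prime] {m : ℕ}
    (hm : m < Fintype.card ι) (g : Fin m → M) (hg : Subgroup.closure (Set.range g) = ⊤)
    (φ : SpecialLinearGroup ι ℤ →* MulAut M) {Z : Type*} [Group Z] (hZ : Nat.card Z = p)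
    (f : M →* Z) (s : SpecialLinearGroup ι ℤ) (x : M) : f (φ s x) = f x := by
  have hcyc : IsCyclic Z := isCyclic_of_prime_card hZ
  subst hZ
  have e : Z ≃* Multiplicative (ZMod (Nat.card Z)) := (zmodCyclicMulEquiv hcyc).symm
  let f' : M → ZMod (Nat.card Z) := fun y => Multiplicative.toAdd (e (f y))
  have hf' : f' ∈ addFun (Nat.card Z) M := by
    intro y z
    simp [f']
  have h := addFun_inv_act hn hm g hg φ hf' s x
  exact e.injective (Multiplicative.toAdd.injective h)

/-- Homomorphisms from `M` to finite `p`-groups are invariant. -/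
theorem hom_inv (hn : 3 ≤ Fintype.card ι) {p : ℕ} [Fact p.Prime] {m : ℕ}
    (hm : m < Fintype.card ι) (g : Fin m → M) (hg : Subgroup.closure (Set.range g) = ⊤)
    (φ : SpecialLinearGroup ι ℤ →* MulAut M) : ∀ (N : ℕ) {P : Type*} [Group P] [Finite P],
    Nat.card P ≤ N → IsPGroup p P → ∀ (f : M →* P) (s : SpecialLinearGroup ι ℤ) (x : M),
    f (φ s x) = f x := by
  intro N
  induction N with
  | zero =>
    intro P _ _ hc
    have := Nat.card_pos (α := P)
    omega
  | succ N ih =>
    intro P _ _ hc hP f s x
    rcases subsingleton_or_nontrivial P with hsub | hnt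
    · exact Subsingleton.elim _ _
    have := hP.center_nontrivial
    have hcP : IsPGroup p (Subgroup.center P) := hP.to_subgroup _
    have hdvd : p ∣ Nat.card (Subgroup.center P) := by
      rcases hcP.card_eq_or_dvd with h | h
      · have := Finite.one_lt_card (α := Subgroup.center P)
        omega
      · exact h
    obtain ⟨z, hz⟩ := exists_prime_orderOf_dvd_card' p hdvd
    let Z : Subgroup P := Subgroup.zpowers (z : P)
    have hZc : Z ≤ Subgroup.center P := by
      rw [Subgroup.zpowers_le]; exact z.2
    have hZn : Z.Normal := ⟨fun a ha b => by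
      have hab := Subgroup.mem_center_iff.mp (hZc ha) b
      rw [hab, mul_inv_cancel_right]; exact ha⟩
    have hcard : Nat.card Z = p := by
      rw [Nat.card_zpowers, Subgroup.orderOf_coe, hz]
    have hlt : Nat.card (P ⧸ Z) ≤ N := by
      have h1 := Subgroup.card_eq_card_quotient_mul_card_subgroup Z
      rw [hcard] at h1
      have h2 : 2 ≤ p := (Fact.out : p.Prime).two_le
      have h3 : 0 < Nat.card (P ⧸ Z) := Nat.card_pos
      nlinarith
    have hq : ∀ (s : SpecialLinearGroup ι ℤ) (x : M), (f x)⁻¹ * f (φ s x) ∈ Z := by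
      intro s x
      have h1 := ih hlt (hP.to_quotient Z) ((QuotientGroup.mk' Z).comp f) s x
      rw [MonoidHom.comp_apply, MonoidHom.comp_apply] at h1
      exact QuotientGroup.eq.mp h1.symm
    have hcomm : ∀ a ∈ Z, ∀ b : P, b * a = a * b := fun a ha b =>
      Subgroup.mem_center_iff.mp (hZc ha) b
    let c : SpecialLinearGroup ι ℤ → (M →* Z) := fun s =>
      { toFun := fun x => ⟨(f x)⁻¹ * f (φ s x), hq s x⟩
        map_one' := by apply Subtype.ext; simp
        map_mul' := by
          intro x y
          apply Subtype.ext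
          change (f (x * y))⁻¹ * f (φ s (x * y)) =
            ((f x)⁻¹ * f (φ s x)) * ((f y)⁻¹ * f (φ s y))
          have h1 := hcomm _ (hq s x) (f y)⁻¹
          rw [map_mul, map_mul, map_mul, _root_.mul_inv_rev]
          calc (f y)⁻¹ * (f x)⁻¹ * (f (φ s x) * f (φ s y))
              = ((f y)⁻¹ * ((f x)⁻¹ * f (φ s x))) * f (φ s y) := by group
            _ = (((f x)⁻¹ * f (φ s x)) * (f y)⁻¹) * f (φ s y) := by rw [h1]
            _ = _ := by group }
    have hci : ∀ s t x, c s (φ t x) = c s x := fun s t x =>
      hom_inv_of_card hn hm g hg φ hcard (c s) t x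
    let : CommGroup Z := { (inferInstance : Group Z) with
      mul_comm := fun a b => Subtype.ext (hcomm b.1 b.2 a.1) }
    let C : SpecialLinearGroup ι ℤ →* (M → Z) :=
      { toFun := fun s x => c s x
        map_one' := by
          funext x
          apply Subtype.ext
          change (f x)⁻¹ * f (φ 1 x) = 1
          simp
        map_mul' := by
          intro s t
          funext x
          have h1 := hci s t x
          change c (s * t) x = c s x * c t x
          rw [← h1]
          apply Subtype.ext
          change (f x)⁻¹ * f (φ (s * t) x) =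
            ((f (φ t x))⁻¹ * f (φ s (φ t x))) * ((f x)⁻¹ * f (φ t x))
          have h2 := hcomm _ (hq t x) ((f (φ t x))⁻¹ * f (φ s (φ t x)))
          rw [h2, map_mul, MulAut.mul_apply]
          group }
    have hC := comm_trivial hn C
    have h3 : C s x = 1 := by rw [hC]; rfl
    have h4 : (f x)⁻¹ * f (φ s x) = 1 := congrArg Subtype.val h3
    exact (inv_mul_eq_one.mp h4).symm

end PGroup

end Pool.Agent.R646.SLn
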