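import Mathlib
import Pool.Agent.R646.SLn.Triv

/-!
# Groups whose finite quotients are quotients of `SL (n, ℤ)`
-/

set_option autoImplicit false

namespace Pool.Agent.R646.SLn

open Matrix Module

/-- If every homomorphism from `S` to the finite group `G` is trivial and every finite quotient of `Γ` is
a quotient of `S`, then every homomorphism from `Γ` to `G` is trivial. -/
theorem quot_trick {Γ S : Type*} [Group Γ] [Group S]
    (hq : ∀ (Q : Type) [Group Q] [Finite Q], (∃ f : Γ →* Q, Function.Surjective f) →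
      ∃ f : S →* Q, Function.Surjective f)
    {G : Type*} [Group G] [Finite G] (hG : ∀ g : S →* G, g = 1) (f : Γ →* G) : f = 1 := by
  let R : Subgroup G := f.range
  let e : Shrink.{0} R ≃* R := Shrink.mulEquiv
  have : Finite (Shrink.{0} R) := Finite.of_equiv R e.symm.toEquiv
  obtain ⟨g, hg⟩ := hq (Shrink.{0} R) ⟨e.symm.toMonoidHom.comp f.rangeRestrict,
    e.symm.surjective.comp f.rangeRestrict_surjective⟩
  have h1 := hG (R.subtype.comp (e.toMonoidHom.comp g))
  ext x
  obtain ⟨s, hs⟩ := hg (e.symm (f.rangeRestrict x))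
  have h2 := DFunLike.congr_fun h1 s
  simp only [MonoidHom.comp_apply] at h2
  rw [hs] at h2
  simpa using h2

theorem finite_field_of_int (F : Type*) [Field F] [Module.Finite ℤ F] : Finite F := by
  obtain ⟨q, hq⟩ := CharP.exists F
  rcases CharP.char_is_prime_or_zero F q with hp | hp
  · have : Fact q.Prime := ⟨hp⟩
    let _ : Algebra (ZMod q) F := ZMod.algebra F q
    have : Module.Finite (ZMod q) F := Module.Finite.of_restrictScalars_finite ℤ (ZMod q) F
    exact Module.finite_of_finite (ZMod q)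
  · subst hp
    exfalso
    have : CharZero F := CharP.charP_to_charZero F
    have : Algebra.IsIntegral ℤ F := Algebra.IsIntegral.of_finite ℤ F
    have h1 : IsIntegral ℤ (algebraMap ℚ F (2 : ℚ)⁻¹) := Algebra.IsIntegral.isIntegral _
    have h2 : IsIntegral ℤ ((2 : ℚ)⁻¹) :=
      (isIntegral_algebraMap_iff (algebraMap ℚ F).injective).1 h1
    obtain ⟨z, hz⟩ := IsIntegrallyClosed.isIntegral_iff.1 h2
    have hz' : (z : ℚ) = (2 : ℚ)⁻¹ := by simpa using hz
    have h3 : (2 * z : ℤ) = 1 := by
      have : ((2 * z : ℤ) : ℚ) = 1 := by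
        push_cast
        rw [hz']; norm_num
      exact_mod_cast this
    omega

theorem jacobson_int : IsJacobsonRing ℤ := by
  rw [isJacobsonRing_iff_prime_eq]
  intro P hP
  by_cases h : P = ⊥
  · subst h
    rw [eq_bot_iff]
    intro x hx
    rw [Ideal.mem_jacobson_bot] at hx
    have h1 := hx x
    rw [Int.isUnit_iff] at h1
    rw [Ideal.mem_bot]
    rcases h1 with h1 | h1
    · have : x * x = 0 := by linarith
      exact mul_self_eq_zero.1 this
    · nlinarith [mul_self_nonneg x]
  · have : P.IsMaximal := hP.isMaximal h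
    exact Ideal.jacobson_eq_self_of_isMaximal

theorem finite_residue (R : Type*) [CommRing R] [Algebra.FiniteType ℤ R] (m : Ideal R)
    [hm : m.IsMaximal] : Finite (R ⧸ m) := by
  have := jacobson_int
  let i1 : Field (R ⧸ m) := Ideal.Quotient.field m
  have h2 : Module.Finite ℤ (R ⧸ m) :=
    @finite_of_finite_type_of_isJacobsonRing ℤ (R ⧸ m) _ i1 (Ideal.Quotient.algebra ℤ (I := m)) _
      (inferInstance)
  exact finite_field_of_int (R ⧸ m)

theorem entries_mem {H K : Type*} [Group H] [Field K] {N : ℕ} (φ : H →* GL (Fin N) K) (T : Set H)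
    (hT : Subgroup.closure T = ⊤) (R : Subalgebra ℤ K)
    (h1 : ∀ t ∈ T, ∀ i j, (φ t).val i j ∈ R) (h2 : ∀ t ∈ T, ∀ i j, (φ t⁻¹).val i j ∈ R)
    (h : H) : ∀ i j, (φ h).val i j ∈ R := by
  have hmem : h ∈ Subgroup.closure T := by rw [hT]; trivial
  have hmul : ∀ x y : H, (∀ i j, (φ x).val i j ∈ R) → (∀ i j, (φ y).val i j ∈ R) →
      ∀ i j, (φ (x * y)).val i j ∈ R := by
    intro x y hx hy i j
    rw [map_mul, Units.val_mul, Matrix.mul_apply]
    exact R.sum_mem (fun k _ => R.mul_mem (hx i k) (hy k j))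
  induction hmem using Subgroup.closure_induction_left with
  | one =>
    intro i j
    rw [map_one, Units.val_one, Matrix.one_apply]
    split_ifs
    · exact R.one_mem
    · exact R.zero_mem
  | mul_left x hx y _ ih => exact hmul x y (h1 x hx) ih
  | inv_mul_cancel x hx y _ ih => exact hmul x⁻¹ y (h2 x hx) ih

/-- Malcev: a nontrivial element of a finitely generated linear group survives over a finite
field. -/
theorem malcev {H K : Type*} [Group H] [Group.FG H] [Field K] {N : ℕ} (φ : H →* GL (Fin N) K)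
    (g : H) (hg : φ g ≠ 1) :
    ∃ (R : Subalgebra ℤ K) (m : Ideal R) (_ : m.IsMaximal) (_ : Finite (R ⧸ m))
      (θ : H →* Matrix (Fin N) (Fin N) (R ⧸ m)), θ g ≠ 1 := by
  classical
  have := jacobson_int
  obtain ⟨T, hT⟩ := Group.fg_def.1 (inferInstance : Group.FG H)
  let s : Finset K := T.biUnion fun t => Finset.univ.biUnion fun i : Fin N =>
    Finset.univ.biUnion fun j : Fin N => {(φ t).val i j, (φ t⁻¹).val i j}
  let R : Subalgebra ℤ K := Algebra.adjoin ℤ (s : Set K)
  have hR : Algebra.FiniteType ℤ R := by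
    rw [← Subalgebra.fg_iff_finiteType]
    exact ⟨s, rfl⟩
  have hent : ∀ h : H, ∀ i j, (φ h).val i j ∈ R := by
    apply entries_mem φ (T : Set H) hT R
    · intro t ht i j
      apply Algebra.subset_adjoin
      simp only [s, Finset.coe_biUnion, Set.mem_iUnion]
      exact ⟨t, ht, i, by simp, j, by simp, by simp⟩
    · intro t ht i j
      apply Algebra.subset_adjoin
      simp only [s, Finset.coe_biUnion, Set.mem_iUnion]
      exact ⟨t, ht, i, by simp, j, by simp, by simp⟩
  let ψ0 : H →* Matrix (Fin N) (Fin N) R :=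
    { toFun := fun h => Matrix.of fun i j => ⟨(φ h).val i j, hent h i j⟩
      map_one' := by
        ext i j
        simp only [Matrix.of_apply, map_one, Units.val_one, Matrix.one_apply]
        split_ifs <;> rfl
      map_mul' := by
        intro x y
        ext i j
        simp only [Matrix.of_apply, map_mul, Units.val_mul, Matrix.mul_apply]
        rw [AddSubmonoidClass.coe_finsetSum]
        rfl }
  have hne : ∃ i j, (ψ0 g) i j - (1 : Matrix (Fin N) (Fin N) R) i j ≠ 0 := by
    by_contra hcon
    push Not at hcon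
    apply hg
    apply Units.ext
    ext i j
    have h1 := hcon i j
    have h2 := congrArg Subtype.val (sub_eq_zero.1 h1)
    have h3 : ((ψ0 g) i j : K) = (φ g).val i j := rfl
    rw [← h3, h2, Units.val_one, Matrix.one_apply, Matrix.one_apply]
    split_ifs <;> rfl
  obtain ⟨i, j, hij⟩ := hne
  set a : R := (ψ0 g) i j - (1 : Matrix (Fin N) (Fin N) R) i j with ha
  have hJ : IsJacobsonRing R := isJacobsonRing_of_finiteType (A := ℤ)
  have hmax : ∃ m : Ideal R, m.IsMaximal ∧ a ∉ m := by
    by_contra hcon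
    push Not at hcon
    have h1 : a ∈ (⊥ : Ideal R).jacobson := by
      rw [Ideal.jacobson, Submodule.mem_sInf]
      intro m hm
      exact hcon m hm.2
    have h2 : (⊥ : Ideal R).jacobson = ⊥ :=
      (isJacobsonRing_iff_prime_eq.1 hJ) ⊥ Ideal.isPrime_bot
    rw [h2, Ideal.mem_bot] at h1
    exact hij h1
  obtain ⟨m, hm, ham⟩ := hmax
  have hfin : Finite (R ⧸ m) := finite_residue R m
  let θ : H →* Matrix (Fin N) (Fin N) (R ⧸ m) :=
    (RingHom.toMonoidHom ((Ideal.Quotient.mk m).mapMatrix)).comp ψ0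
  refine ⟨R, m, hm, hfin, θ, fun h2 => ham ?_⟩
  have h3 := congrFun (congrFun h2 i) j
  have h4 : Ideal.Quotient.mk m ((ψ0 g) i j) = Ideal.Quotient.mk m ((1 : Matrix (Fin N) (Fin N) R) i j) := by
    have h5 : Ideal.Quotient.mk m ((ψ0 g) i j) = (1 : Matrix (Fin N) (Fin N) (R ⧸ m)) i j := h3
    rw [h5, Matrix.one_apply, Matrix.one_apply]
    split_ifs
    · exact (map_one _).symm
    · exact (map_zero _).symm
  rw [ha]
  exact Ideal.Quotient.eq.1 h4

variable {n : ℕ} {Γ : Type*} [Group Γ]

/-- Linear representations of dimension smaller than `n` are trivial. -/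
theorem lin_trivial (hn : 3 ≤ n) (hfg : Group.FG Γ)
    (hq : ∀ (Q : Type) [Group Q] [Finite Q], (∃ f : Γ →* Q, Function.Surjective f) →
      ∃ f : SpecialLinearGroup (Fin n) ℤ →* Q, Function.Surjective f)
    {K : Type*} [Field K] {m : ℕ} (hm : m < n) (φ : Γ →* GL (Fin m) K) : φ = 1 := by
  by_contra hne
  have : ∃ g, φ g ≠ 1 := by
    by_contra hcon
    push Not at hcon
    exact hne (MonoidHom.ext hcon)
  obtain ⟨g, hg⟩ := this
  obtain ⟨R, I, hI, hfin, θ, hθ⟩ := malcev φ g hg
  let _ : Field (R ⧸ I) := Ideal.Quotient.field I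
  have hfin2 : Finite (Matrix (Fin m) (Fin m) (R ⧸ I)) := inferInstanceAs (Finite (Fin m → Fin m → _))
  have hfin3 : Finite (Matrix (Fin m) (Fin m) (R ⧸ I))ˣ := inferInstance
  have h1 := quot_trick hq (G := (Matrix (Fin m) (Fin m) (R ⧸ I))ˣ) (fun g => by
    have h2 := matrix_trivial (ι := Fin n) (K := R ⧸ I) (by simpa using hn) (by simpa using hm)
      ((Units.coeHom _).comp g)
    ext A : 2
    exact DFunLike.congr_fun h2 A) θ.toHomUnits
  apply hθ
  have h3 := congrArg Units.val (DFunLike.congr_fun h1 g)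
  simpa using h3

end Pool.Agent.R646.SLn
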