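import Mathlib
import Pool.Agent.R646.SLn.Lin

/-!
# Actions on residually finite-`p` groups with few generators, and `n`-dimensional representations
-/

set_option autoImplicit false

namespace Pool.Agent.R646.SLn

open Matrix Module

variable {n : ℕ} {Γ : Type*} [Group Γ]

/-- Actions on groups generated by fewer than `n` elements which are residually (finite of prime power
order) are trivial. -/
theorem aut_trivial (hn : 3 ≤ n)
    (hq : ∀ (Q : Type) [Group Q] [Finite Q], (∃ f : Γ →* Q, Function.Surjective f) →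
      ∃ f : SpecialLinearGroup (Fin n) ℤ →* Q, Function.Surjective f)
    {M : Type*} [Group M] {m : ℕ} (hm : m < n) (g : Fin m → M)
    (hg : Subgroup.closure (Set.range g) = ⊤)
    (hres : ∀ x : M, x ≠ 1 → ∃ (p : ℕ) (P : Type) (_ : Group P) (f : M →* P),
      p.Prime ∧ Finite P ∧ IsPGroup p P ∧ f x ≠ 1)
    (φ : Γ →* MulAut M) : φ = 1 := by
  ext γ x
  by_contra hx
  have hy : x⁻¹ * φ γ x ≠ 1 := by
    intro h
    exact hx (inv_mul_eq_one.mp h).symm
  obtain ⟨p, P, hP, f, hp, hfin, hpg, hf⟩ := hres _ hy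
  have hpf : Fact p.Prime := ⟨hp⟩
  have hH : Finite (M →* P) := by
    refine Finite.of_injective (fun (h : M →* P) (i : Fin m) => h (g i)) ?_
    intro h1 h2 e
    refine MonoidHom.eq_of_eqOn_dense hg ?_
    rintro _ ⟨i, rfl⟩
    exact congrFun e i
  let ev : M →* ((M →* P) → P) :=
    { toFun := fun x h => h x
      map_one' := by funext h; exact map_one h
      map_mul' := by intro x y; funext h; exact map_mul h x y }
  let K : Subgroup M := ev.ker
  have hQ : Finite (M ⧸ K) := Finite.of_injective _ (QuotientGroup.kerLift_injective ev)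
  have hKinv : ∀ (γ : Γ), K ≤ K.comap (φ γ).toMonoidHom := by
    intro γ k hk
    rw [Subgroup.mem_comap]
    change ev (φ γ k) = 1
    funext h
    exact congrFun (show ev k = 1 from hk) (h.comp (φ γ).toMonoidHom)
  let T : Γ → (M ⧸ K →* M ⧸ K) := fun γ => QuotientGroup.map K K (φ γ).toMonoidHom (hKinv γ)
  have hT : ∀ γ (x : M), T γ (x : M ⧸ K) = ((φ γ x : M) : M ⧸ K) := fun γ x => rfl
  have hTT : ∀ γ δ (q : M ⧸ K), T γ (T δ q) = T (γ * δ) q := by
    intro γ δ q
    obtain ⟨x, rfl⟩ := QuotientGroup.mk_surjective q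
    rw [hT, hT, hT, map_mul, MulAut.mul_apply]
  have hT1 : ∀ q : M ⧸ K, T 1 q = q := by
    intro q
    obtain ⟨x, rfl⟩ := QuotientGroup.mk_surjective q
    rw [hT, map_one, MulAut.one_apply]
  let A : Γ →* MulAut (M ⧸ K) :=
    { toFun := fun γ =>
        { toFun := T γ
          invFun := T γ⁻¹
          left_inv := fun q => by rw [hTT, inv_mul_cancel, hT1]
          right_inv := fun q => by rw [hTT, mul_inv_cancel, hT1]
          map_mul' := fun a b => map_mul (T γ) a b }
      map_one' := by
        ext q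
        exact hT1 q
      map_mul' := by
        intro γ δ
        ext q
        exact (hTT γ δ q).symm }
  have hfinA : Finite (MulAut (M ⧸ K)) :=
    Finite.of_injective (fun (a : MulAut (M ⧸ K)) (q : M ⧸ K) => a q)
      (fun a b e => MulEquiv.ext (fun q => congrFun e q))
  have hcard : Fintype.card (Fin n) = n := Fintype.card_fin n
  have hA : A = 1 := by
    refine quot_trick hq (S := SpecialLinearGroup (Fin n) ℤ) (fun B => ?_) A
    have hgen : Subgroup.closure (Set.range (fun i => ((g i : M) : M ⧸ K))) = ⊤ := by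
      have h1 : Set.range (fun i => ((g i : M) : M ⧸ K)) =
          (QuotientGroup.mk' K) '' (Set.range g) := by
        rw [← Set.range_comp]; rfl
      rw [h1, ← MonoidHom.map_closure, hg, ← MonoidHom.range_eq_map, MonoidHom.range_eq_top]
      exact QuotientGroup.mk'_surjective K
    ext s q
    apply QuotientGroup.kerLift_injective ev
    have key : ∀ (h : M →* P) (q : M ⧸ K), QuotientGroup.kerLift ev q h =
        QuotientGroup.lift K h (fun k hk => congrFun (show ev k = 1 from hk) h) q := by
      intro h q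
      obtain ⟨x, rfl⟩ := QuotientGroup.mk_surjective q
      rfl
    funext h
    rw [key, key]
    exact hom_inv (ι := Fin n) (by rw [hcard]; exact hn) (by rw [hcard]; exact hm)
      (fun i => ((g i : M) : M ⧸ K)) hgen B _ le_rfl hpg
      (QuotientGroup.lift K h (fun k hk => congrFun (show ev k = 1 from hk) h)) s q
  have h2 : T γ (x : M ⧸ K) = (x : M ⧸ K) := by
    have h3 := DFunLike.congr_fun (DFunLike.congr_fun hA γ) (x : M ⧸ K)
    exact h3
  rw [hT] at h2
  have h4 : x⁻¹ * φ γ x ∈ K := QuotientGroup.eq.mp h2.symm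
  exact hf (congrFun (show ev (x⁻¹ * φ γ x) = 1 from h4) f)

/-- Representations on spaces of dimension smaller than `n` are trivial. -/
theorem lin_trivial_end (hn : 3 ≤ n) (hfg : Group.FG Γ)
    (hq : ∀ (Q : Type) [Group Q] [Finite Q], (∃ f : Γ →* Q, Function.Surjective f) →
      ∃ f : SpecialLinearGroup (Fin n) ℤ →* Q, Function.Surjective f)
    {K V : Type*} [Field K] [AddCommGroup V] [Module K V] [FiniteDimensional K V]
    (hm : finrank K V < n) (ρ : Γ →* End K V) : ρ = 1 := by
  let e := LinearMap.toMatrixAlgEquiv (Module.finBasis K V)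
  have h := lin_trivial hn hfg hq hm ((e : End K V →* Matrix _ _ K).comp ρ).toHomUnits
  ext γ : 1
  have h2 := congrArg Units.val (DFunLike.congr_fun h γ)
  have h3 : e (ρ γ) = e 1 := by rw [map_one]; exact h2
  exact e.injective h3

/-- Additive characters are trivial. -/
theorem add_trivial (hn : 3 ≤ n) (hfg : Group.FG Γ)
    (hq : ∀ (Q : Type) [Group Q] [Finite Q], (∃ f : Γ →* Q, Function.Surjective f) →
      ∃ f : SpecialLinearGroup (Fin n) ℤ →* Q, Function.Surjective f)
    {K : Type*} [Field K] (c : Γ → K) (hc : ∀ γ δ, c (γ * δ) = c γ + c δ) (γ : Γ) : c γ = 0 := by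
  have hc1 : c 1 = 0 := by
    have := hc 1 1
    rw [mul_one] at this
    simpa using this
  let ρ : Γ →* Matrix (Fin 2) (Fin 2) K :=
    { toFun := fun γ => !![1, c γ; 0, 1]
      map_one' := by
        rw [hc1, Matrix.one_fin_two]
      map_mul' := by
        intro γ δ
        rw [Matrix.mul_fin_two, hc]
        simp [add_comm] }
  have h := lin_trivial hn hfg hq (K := K) (m := 2) (by omega) ρ.toHomUnits
  have h2 := congrArg Units.val (DFunLike.congr_fun h γ)
  have h3 := congrFun (congrFun h2 0) 1
  simpa [ρ] using h3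

/-- A nontrivial representation of dimension `n` is irreducible. -/
theorem irred (hn : 3 ≤ n) (hfg : Group.FG Γ)
    (hq : ∀ (Q : Type) [Group Q] [Finite Q], (∃ f : Γ →* Q, Function.Surjective f) →
      ∃ f : SpecialLinearGroup (Fin n) ℤ →* Q, Function.Surjective f)
    {K V : Type*} [Field K] [AddCommGroup V] [Module K V] [FiniteDimensional K V]
    (hm : finrank K V = n) (ρ : Γ →* End K V) (hρ : ρ ≠ 1) (W : Submodule K V)
    (hW : ∀ γ, ∀ w ∈ W, ρ γ w ∈ W) : W = ⊥ ∨ W = ⊤ := by
  by_contra hcon
  push Not at hcon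
  obtain ⟨hbot, htop⟩ := hcon
  have h1 : finrank K W < n := by rw [← hm]; exact Submodule.finrank_lt htop
  have h2 : finrank K (V ⧸ W) < n := by
    have h3 : finrank K (V ⧸ W) + finrank K W = finrank K V := W.finrank_quotient_add_finrank
    have h4 : 0 < finrank K W := by
      rw [Module.finrank_pos_iff]
      exact Submodule.nontrivial_iff_ne_bot.mpr hbot
    omega
  let ρ1 : Γ →* End K W :=
    { toFun := fun γ => (ρ γ).restrict (hW γ)
      map_one' := by ext w; simp
      map_mul' := by intro γ δ; ext w; simp }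
  let ρ2 : Γ →* End K (V ⧸ W) :=
    { toFun := fun γ => W.mapQ W (ρ γ) (fun w hw => hW γ w hw)
      map_one' := by
        refine LinearMap.ext fun q => ?_
        obtain ⟨w, rfl⟩ := W.mkQ_surjective q
        simp
      map_mul' := by
        intro γ δ
        refine LinearMap.ext fun q => ?_
        obtain ⟨w, rfl⟩ := W.mkQ_surjective q
        simp }
  have e1 := lin_trivial_end hn hfg hq h1 ρ1
  have e2 := lin_trivial_end hn hfg hq h2 ρ2
  have f1 : ∀ γ, ∀ w ∈ W, ρ γ w = w := by
    intro γ w hw
    have := congrArg Subtype.val (LinearMap.congr_fun (DFunLike.congr_fun e1 γ) ⟨w, hw⟩)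
    exact this
  have f2 : ∀ γ, ∀ v, ρ γ v - v ∈ W := by
    intro γ v
    have h5 : W.mkQ (ρ γ v) = W.mkQ v := LinearMap.congr_fun (DFunLike.congr_fun e2 γ) (W.mkQ v)
    rw [← sub_eq_zero, ← map_sub, Submodule.mkQ_apply, Submodule.Quotient.mk_eq_zero] at h5
    exact h5
  apply hρ
  ext γ v
  rw [MonoidHom.one_apply, Module.End.one_apply, ← sub_eq_zero]
  refine (Module.forall_dual_apply_eq_zero_iff K _).mp (fun ℓ => ?_)
  refine add_trivial hn hfg hq (fun γ => ℓ (ρ γ v - v)) (fun γ δ => ?_) γ
  have h6 : ρ (γ * δ) v - v = (ρ γ v - v) + (ρ δ v - v) := by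
    have h7 := f1 γ _ (f2 δ v)
    rw [map_sub] at h7
    rw [map_mul, Module.End.mul_apply]
    rw [sub_eq_iff_eq_add] at h7
    rw [h7]
    abel
  rw [h6, map_add]

end Pool.Agent.R646.SLn
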