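import Mathlib
import Pool.Agent.R646.SLn.Triv

/-!
# Homomorphisms from `SL (n, ℤ)` to matrices of size `n`: preparations
-/

set_option autoImplicit false

namespace Pool.Agent.R646.SLn

open Module Matrix

section Fam

variable {K V : Type*} [Field K] [AddCommGroup V] [Module K V] [FiniteDimensional K V]
variable {ι : Type*} [DecidableEq ι] {s : Finset ι} {x : ι → ι → End K V}

theorem StF.inj (h : StF s x) {i j : ι} (hi : i ∈ s) (hj : j ∈ s) (hij : i ≠ j) :
    Function.Injective (x i j) := by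
  obtain ⟨g, hg⟩ := (h.u i hi j hj hij).exists_left_inv
  intro p q e
  have hp := LinearMap.congr_fun hg p
  have hq := LinearMap.congr_fun hg q
  simp only [Module.End.mul_apply, Module.End.one_apply] at hp hq
  rw [← hp, ← hq, e]

theorem StF.sub_triv [IsAlgClosed K] (h : StF s x) (hs : 3 ≤ s.card) (W : Submodule K V)
    (hinv : ∀ i ∈ s, ∀ j ∈ s, i ≠ j → ∀ w ∈ W, x i j w ∈ W) (hd : finrank K W < s.card) :
    ∀ i ∈ s, ∀ j ∈ s, i ≠ j → ∀ w ∈ W, x i j w = w := by
  have hx1 : ∀ i j, ∃ g : End K W, i ∈ s → j ∈ s → i ≠ j →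
      ∀ w : W, ((g w : W) : V) = x i j w := by
    intro i j
    by_cases hh : i ∈ s ∧ j ∈ s ∧ i ≠ j
    · exact ⟨(x i j).restrict (hinv i hh.1 j hh.2.1 hh.2.2), fun _ _ _ w => rfl⟩
    · exact ⟨1, fun a1 a2 a3 => absurd ⟨a1, a2, a3⟩ hh⟩
  choose x1 hx1 using hx1
  have hS1 : StF s x1 := by
    refine ⟨?_, ?_, ?_⟩
    · intro i hi j hj hij
      rw [LinearMap.isUnit_iff_ker_eq_bot, LinearMap.ker_eq_bot]
      intro p q e
      apply Subtype.ext
      apply h.inj hi hj hij
      rw [← hx1 i j hi hj hij, ← hx1 i j hi hj hij, e]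
    · intro i hi j hj k hk hij hjk hik
      ext w
      simp only [Module.End.mul_apply]
      rw [hx1 i j hi hj hij, hx1 j k hj hk hjk, hx1 i k hi hk hik, hx1 j k hj hk hjk,
        hx1 i j hi hj hij]
      exact LinearMap.congr_fun (h.c1 i hi j hj k hk hij hjk hik) w.1
    · intro i hi j hj k hk l hl hij hkl hjk hil
      ext w
      simp only [Module.End.mul_apply]
      rw [hx1 i j hi hj hij, hx1 k l hk hl hkl, hx1 k l hk hl hkl, hx1 i j hi hj hij]
      exact LinearMap.congr_fun (h.c2 i hi j hj k hk l hl hij hkl hjk hil) w.1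
  have t1 := steinberg_trivial _ hs hS1 rfl hd
  intro i hi j hj hij w hw
  have := hx1 i j hi hj hij ⟨w, hw⟩
  rw [t1 i hi j hj hij] at this
  exact this.symm

theorem StF.quot_triv [IsAlgClosed K] (h : StF s x) (hs : 3 ≤ s.card) (W : Submodule K V)
    (hinv : ∀ i ∈ s, ∀ j ∈ s, i ≠ j → ∀ w ∈ W, x i j w ∈ W)
    (hd : finrank K (V ⧸ W) < s.card) :
    ∀ i ∈ s, ∀ j ∈ s, i ≠ j → ∀ v, x i j v - v ∈ W := by
  have hsurj : ∀ i ∈ s, ∀ j ∈ s, i ≠ j → Function.Surjective (x i j) := fun i hi j hj hij =>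
    LinearMap.surjective_of_injective (h.inj hi hj hij)
  have hx2 : ∀ i j, ∃ g : End K (V ⧸ W), i ∈ s → j ∈ s → i ≠ j →
      ∀ w : V, g (W.mkQ w) = W.mkQ (x i j w) := by
    intro i j
    by_cases hh : i ∈ s ∧ j ∈ s ∧ i ≠ j
    · exact ⟨W.mapQ W (x i j) (fun w hw => hinv i hh.1 j hh.2.1 hh.2.2 w hw),
        fun _ _ _ w => rfl⟩
    · exact ⟨1, fun a1 a2 a3 => absurd ⟨a1, a2, a3⟩ hh⟩
  choose x2 hx2 using hx2
  have hS2 : StF s x2 := by
    refine ⟨?_, ?_, ?_⟩
    · intro i hi j hj hij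
      rw [LinearMap.isUnit_iff_range_eq_top, LinearMap.range_eq_top]
      intro p
      obtain ⟨w, rfl⟩ := W.mkQ_surjective p
      obtain ⟨u, rfl⟩ := hsurj i hi j hj hij w
      exact ⟨W.mkQ u, hx2 i j hi hj hij u⟩
    · intro i hi j hj k hk hij hjk hik
      refine LinearMap.ext fun p => ?_
      obtain ⟨w, rfl⟩ := W.mkQ_surjective p
      simp only [Module.End.mul_apply]
      rw [hx2 i j hi hj hij, hx2 j k hj hk hjk, hx2 i j hi hj hij, hx2 j k hj hk hjk,
        hx2 i k hi hk hik]
      congr 1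
      exact LinearMap.congr_fun (h.c1 i hi j hj k hk hij hjk hik) w
    · intro i hi j hj k hk l hl hij hkl hjk hil
      refine LinearMap.ext fun p => ?_
      obtain ⟨w, rfl⟩ := W.mkQ_surjective p
      simp only [Module.End.mul_apply]
      rw [hx2 i j hi hj hij, hx2 k l hk hl hkl, hx2 i j hi hj hij, hx2 k l hk hl hkl]
      congr 1
      exact LinearMap.congr_fun (h.c2 i hi j hj k hk l hl hij hkl hjk hil) w
  have t2 := steinberg_trivial _ hs hS2 rfl hd
  intro i hi j hj hij w
  have := hx2 i j hi hj hij w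
  rw [t2 i hi j hj hij, Module.End.one_apply, ← sub_eq_zero, ← map_sub, Submodule.mkQ_apply,
    Submodule.Quotient.mk_eq_zero] at this
  have h3 := W.neg_mem this
  rwa [neg_sub] at h3

theorem StF.triv_of_filt [IsAlgClosed K] (h : StF s x) {t : Finset ι} (hts : t ⊆ s)
    (ht : 3 ≤ t.card) (W : Submodule K V)
    (hinv : ∀ i ∈ t, ∀ j ∈ t, i ≠ j → ∀ w ∈ W, x i j w ∈ W) (hd1 : finrank K W < t.card)
    (hd2 : finrank K (V ⧸ W) < t.card) : ∀ i ∈ s, ∀ j ∈ s, i ≠ j → x i j = 1 := by
  have hF1 := (h.mono hts).sub_triv ht W hinv hd1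
  have hF2 := (h.mono hts).quot_triv ht W hinv hd2
  obtain ⟨p, q, r, hp, hq, hr, hpq, hpr, hqr⟩ := Finset.two_lt_card_iff.mp
    (show 2 < t.card by omega)
  refine h.of_comm (ht.trans (Finset.card_le_card hts)) (hts hp) (hts hq) (hts hr) hpq hqr hpr ?_
  refine LinearMap.ext fun w => ?_
  simp only [Module.End.mul_apply]
  have e1 := hF1 p hp q hq hpq _ (hF2 q hq r hr hqr w)
  have e2 := hF1 q hq r hr hqr _ (hF2 p hp q hq hpq w)
  rw [map_sub] at e1 e2
  rw [sub_eq_iff_eq_add] at e1 e2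
  rw [e1, e2]
  abel

theorem row_eig2 {s : Finset ι}
    {x : ι → ι → End K V} (h : StF s x) (hs : 4 ≤ s.card) (hd : finrank K V < 2 ^ (s.card - 2))
    {a : ι}
    (ha : a ∈ s) {v : V} (hv : v ≠ 0) (χ : ι → K) (hχ : ∀ i ∈ s.erase a, x a i v = χ i • v) :
    ∀ b ∈ s.erase a, χ b = 1 := by
  intro b hb
  have hba : b ≠ a := (Finset.mem_erase.mp hb).1
  have hbs : b ∈ s := (Finset.mem_erase.mp hb).2
  by_contra hb1
  set T : Finset ι := (s.erase a).erase b with hT
  have hTs : ∀ k ∈ T, k ∈ s ∧ k ≠ a ∧ k ≠ b := fun k hk => by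
    rw [hT, Finset.mem_erase, Finset.mem_erase] at hk
    exact ⟨hk.2.2, hk.2.1, hk.1⟩
  have hinj : ∀ i ∈ s, ∀ j ∈ s, i ≠ j → ∀ w, x i j w = 0 → w = 0 := by
    intro i hi j hj hij w hw
    exact h.inj hi hj hij (by rw [hw, map_zero])
  have hχ0 : ∀ k ∈ T, χ k ≠ 0 := by
    intro k hk h0
    obtain ⟨k1, k2, k3⟩ := hTs k hk
    have := hχ k (Finset.mem_erase.mpr ⟨k2, k1⟩)
    rw [h0, zero_smul] at this
    exact hv (hinj a ha k k1 (Ne.symm k2) v this)
  have key : ∀ J : Finset {k // k ∈ T}, ∃ w : V, w ≠ 0 ∧ x a b w = χ b • w ∧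
      ∀ k : {k // k ∈ T}, x a k w = (if k ∈ J then χ k * χ b else χ k) • w := by
    intro J
    induction J using Finset.induction_on with
    | empty =>
      refine ⟨v, hv, hχ b hb, fun k => ?_⟩
      obtain ⟨k1, k2, k3⟩ := hTs k.1 k.2
      simpa using hχ k.1 (Finset.mem_erase.mpr ⟨k2, k1⟩)
    | insert j J hj ih =>
      obtain ⟨w, hw0, hwb, hwk⟩ := ih
      obtain ⟨j1, j2, j3⟩ := hTs j.1 j.2
      have cb : x a b (x j b w) = x j b (x a b w) := by
        have := LinearMap.congr_fun (h.c2 a ha b hbs j j1 b hbs (Ne.symm hba) j3 (Ne.symm j3)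
          (Ne.symm hba)) w
        simpa using this
      refine ⟨x j b w, fun e => hw0 (hinj j j1 b hbs j3 w e), ?_, fun k => ?_⟩
      · rw [cb, hwb, map_smul]
      · obtain ⟨k1, k2, k3⟩ := hTs k.1 k.2
        by_cases hkj : k = j
        · subst hkj
          have e := LinearMap.congr_fun (h.c1 a ha k k1 b hbs (Ne.symm k2) k3 (Ne.symm hba)) w
          simp only [Module.End.mul_apply] at e
          have hk' := hwk k
          rw [if_neg hj] at hk'
          rw [e, hk', map_smul, map_smul, cb, hwb, map_smul, smul_smul, if_pos]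
          exact Finset.mem_insert_self _ _
        · have hkj' : k.1 ≠ j.1 := fun e => hkj (Subtype.ext e)
          have e := LinearMap.congr_fun (h.c2 a ha k k1 j j1 b hbs (Ne.symm k2) j3 hkj'
            (Ne.symm hba)) w
          simp only [Module.End.mul_apply] at e
          rw [e, hwk k, map_smul]
          congr 1
          simp [hkj]
  choose w hw0 hwb hwk using key
  let f : {k // k ∈ T} → End K V := fun k => x a k
  have hcomm : ∀ i j, f i * f j = f j * f i := by
    intro i j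
    obtain ⟨i1, i2, i3⟩ := hTs i.1 i.2
    obtain ⟨j1, j2, j3⟩ := hTs j.1 j.2
    exact h.c2 a ha i i1 a ha j j1 (Ne.symm i2) (Ne.symm j2) i2 (Ne.symm j2)
  have hind := Module.End.independent_iInf_maxGenEigenspace_of_forall_mapsTo f
    (fun i j φ => Module.End.mapsTo_maxGenEigenspace_of_comm (hcomm j i) φ)
  let X : Finset {k // k ∈ T} → ({k // k ∈ T} → K) := fun J k => if k ∈ J then χ k * χ b else χ k
  have hX : Function.Injective X := by
    intro J J' e
    ext k
    have ek : (if k ∈ J then χ k * χ b else χ k) = (if k ∈ J' then χ k * χ b else χ k) :=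
      congrFun e k
    have hne : χ k * χ b ≠ χ k := by
      intro e2
      apply hb1
      have : χ k * χ b = χ k * 1 := by rw [mul_one]; exact e2
      exact mul_left_cancel₀ (hχ0 k k.2) this
    by_cases h1 : k ∈ J <;> by_cases h2 : k ∈ J'
    · exact iff_of_true h1 h2
    · rw [if_pos h1, if_neg h2] at ek; exact absurd ek hne
    · rw [if_neg h1, if_pos h2] at ek; exact absurd ek.symm hne
    · exact iff_of_false h1 h2
  have hli : LinearIndependent K w := by
    refine (hind.comp hX).linearIndependent _ (fun J => ?_) hw0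
    rw [Function.comp, Submodule.mem_iInf]
    intro k
    rw [Module.End.mem_maxGenEigenspace]
    refine ⟨1, ?_⟩
    rw [pow_one]
    simp only [LinearMap.sub_apply, LinearMap.smul_apply, Module.End.one_apply]
    rw [sub_eq_zero]
    exact hwk J k
  have hcard := hli.fintype_card_le_finrank
  rw [Fintype.card_finset, Fintype.card_coe] at hcard
  have hTc : T.card = s.card - 2 := by
    rw [hT, Finset.card_erase_of_mem hb, Finset.card_erase_of_mem ha]; rfl
  rw [hTc] at hcard
  omega

theorem row_fix [IsAlgClosed K] [Nontrivial V] (h : StF s x) (hs : 4 ≤ s.card)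
    (hd : finrank K V < 2 ^ (s.card - 2)) {a : ι} (ha : a ∈ s) :
    ∃ v : V, v ≠ 0 ∧ ∀ k ∈ s.erase a, x a k v = v := by
  obtain ⟨v, hv, χ, hχ⟩ := common_eig (fun j => x a j) (s.erase a) (by
    intro i hi j hj
    obtain ⟨i1, i2⟩ := Finset.mem_erase.mp hi
    obtain ⟨j1, j2⟩ := Finset.mem_erase.mp hj
    exact h.c2 a ha i i2 a ha j j2 (Ne.symm i1) (Ne.symm j1) i1 (Ne.symm j1))
  have h1 := row_eig2 h hs hd ha hv χ hχ
  exact ⟨v, hv, fun k hk => by rw [hχ k hk, h1 k hk, one_smul]⟩

end Fam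

section Hom

variable {K V : Type*} [Field K] [AddCommGroup V] [Module K V] [FiniteDimensional K V]
variable {ι : Type*} [Fintype ι] [DecidableEq ι]

/-- Vectors fixed by the row `a`. -/
def Fr (x : ι → ι → End K V) (a : ι) : Submodule K V where
  carrier := {w | ∀ k, k ≠ a → x a k w = w}
  add_mem' := by
    intro p q hp hq i hi
    rw [map_add, hp i hi, hq i hi]
  zero_mem' := by intro i _; simp
  smul_mem' := by
    intro r p hp i hi
    rw [map_smul, hp i hi]

/-- Vectors fixed by the column `a`. -/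
def Fc (x : ι → ι → End K V) (a : ι) : Submodule K V where
  carrier := {w | ∀ k, k ≠ a → x k a w = w}
  add_mem' := by
    intro p q hp hq i hi
    rw [map_add, hp i hi, hq i hi]
  zero_mem' := by intro i _; simp
  smul_mem' := by
    intro r p hp i hi
    rw [map_smul, hp i hi]

theorem Fr_inv {x : ι → ι → End K V} (h : StF Finset.univ x) {a i j : ι} (hi : i ≠ a) (hj : j ≠ a)
    (hij : i ≠ j) {w : V} (hw : w ∈ Fr x a) : x i j w ∈ Fr x a := by
  have hu : ∀ b : ι, b ∈ (Finset.univ : Finset ι) := Finset.mem_univ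
  intro k hk
  by_cases hki : k = i
  · subst hki
    have e := LinearMap.congr_fun (h.c1 a (hu _) k (hu _) j (hu _) (Ne.symm hk) hij (Ne.symm hj)) w
    simp only [Module.End.mul_apply] at e
    rw [e, hw k hi]
    have e2 := LinearMap.congr_fun (h.c2 a (hu _) j (hu _) k (hu _) j (hu _) (Ne.symm hj) hij
      (Ne.symm hij) (Ne.symm hj)) w
    simp only [Module.End.mul_apply] at e2
    rw [e2, hw j hj]
  · have e := LinearMap.congr_fun (h.c2 a (hu _) k (hu _) i (hu _) j (hu _) (Ne.symm hk) hij hki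
      (Ne.symm hj)) w
    simp only [Module.End.mul_apply] at e
    rw [e, hw k hk]

theorem Fc_inv {x : ι → ι → End K V} (h : StF Finset.univ x) {a i j : ι} (hi : i ≠ a) (hj : j ≠ a)
    (hij : i ≠ j) {w : V} (hw : w ∈ Fc x a) : x i j w ∈ Fc x a := by
  have hu : ∀ b : ι, b ∈ (Finset.univ : Finset ι) := Finset.mem_univ
  have hne : ∀ k, k ≠ a → k ≠ j → x k a (x i j w) = x i j w := by
    intro k hk hkj
    have e := LinearMap.congr_fun (h.c2 k (hu _) a (hu _) i (hu _) j (hu _) hk hij (Ne.symm hi)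
      hkj) w
    simp only [Module.End.mul_apply] at e
    rw [e, hw k hk]
  intro k hk
  by_cases hkj : k = j
  · subst hkj
    have e := LinearMap.congr_fun (h.c1 i (hu _) k (hu _) a (hu _) hij hk hi) w
    simp only [Module.End.mul_apply] at e
    rw [hw k hk] at e
    have e2 := LinearMap.congr_fun (h.c2 i (hu _) a (hu _) k (hu _) a (hu _) hi hk (Ne.symm hk) hi)
      (x i k w)
    simp only [Module.End.mul_apply] at e2
    rw [e2, hne i hi hij] at e
    exact e.symm
  · exact hne k hk hkj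

/-- One of the two fixed spaces is a hyperplane. -/
theorem hyp_or [IsAlgClosed K] {x : ι → ι → End K V} (h : StF Finset.univ x)
    (hn : 5 ≤ Fintype.card ι) (hd : finrank K V = Fintype.card ι) (a : ι)
    (hr : ∃ v : V, v ≠ 0 ∧ v ∈ Fr x a) (hc : ∃ v : V, v ≠ 0 ∧ v ∈ Fc x a)
    (hnt : ¬ ∀ i ∈ (Finset.univ : Finset ι), ∀ j ∈ (Finset.univ : Finset ι), i ≠ j → x i j = 1) :
    finrank K (Fr x a) + 1 = Fintype.card ι ∨ finrank K (Fc x a) + 1 = Fintype.card ι := by
  have hu : ∀ b : ι, b ∈ (Finset.univ : Finset ι) := Finset.mem_univ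
  have hcU : (Finset.univ : Finset ι).card = Fintype.card ι := Finset.card_univ
  have hcE : ((Finset.univ : Finset ι).erase a).card + 1 = Fintype.card ι := by
    rw [Finset.card_erase_of_mem (hu a), hcU]; omega
  have hmem : ∀ i, i ∈ (Finset.univ : Finset ι).erase a → i ≠ a := fun i hi =>
    (Finset.mem_erase.mp hi).1
  obtain ⟨b, hb⟩ : ∃ b : ι, b ≠ a := by
    by_contra hcon
    push Not at hcon
    have : Fintype.card ι ≤ 1 := Fintype.card_le_one_iff.mpr (fun p q => by rw [hcon p, hcon q])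
    omega
  have pos : ∀ W : Submodule K V, (∃ v : V, v ≠ 0 ∧ v ∈ W) → 0 < finrank K W := by
    rintro W ⟨v, hv, hvW⟩
    rw [Module.finrank_pos_iff]
    exact ⟨⟨⟨v, hvW⟩, 0, fun e => hv (congrArg Subtype.val e)⟩⟩
  have hQ : ∀ W : Submodule K V, finrank K (V ⧸ W) + finrank K W = finrank K V :=
    fun W => W.finrank_quotient_add_finrank
  have hr0 := pos _ hr
  have hc0 := pos _ hc
  have hrt : Fr x a ≠ ⊤ := by
    intro e
    apply hnt
    refine h.triv (by omega) (hu a) (hu b) (Ne.symm hb) ?_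
    ext w
    have hw : w ∈ Fr x a := by rw [e]; trivial
    exact hw b hb
  have hct : Fc x a ≠ ⊤ := by
    intro e
    apply hnt
    refine h.triv (by omega) (hu b) (hu a) hb ?_
    ext w
    have hw : w ∈ Fc x a := by rw [e]; trivial
    exact hw b hb
  have hr1 := Submodule.finrank_lt hrt
  have hc1 := Submodule.finrank_lt hct
  by_contra hcon
  push Not at hcon
  obtain ⟨h1, h2⟩ := hcon
  have one : ∀ W : Submodule K V, 0 < finrank K W → finrank K W < finrank K V →
      finrank K W + 1 ≠ Fintype.card ι →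
      (∀ i ∈ (Finset.univ : Finset ι).erase a, ∀ j ∈ (Finset.univ : Finset ι).erase a, i ≠ j →
        ∀ w ∈ W, x i j w ∈ W) → finrank K W = 1 := by
    intro W w0 w1 w2 hinv
    by_contra hne
    apply hnt
    have := hQ W
    exact h.triv_of_filt (Finset.erase_subset a _) (by omega) W hinv (by omega) (by omega)
  have r1 := one _ hr0 hr1 h1 (fun i hi j hj hij w hw => Fr_inv h (hmem i hi) (hmem j hj) hij hw)
  have c1 := one _ hc0 hc1 h2 (fun i hi j hj hij w hw => Fc_inv h (hmem i hi) (hmem j hj) hij hw)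
  have hsup := Submodule.finrank_sup_add_finrank_inf_eq (Fr x a) (Fc x a)
  by_cases hinf : finrank K (Fr x a ⊓ Fc x a : Submodule K V) = 0
  · apply hnt
    have := hQ (Fr x a ⊔ Fc x a)
    refine h.triv_of_filt (Finset.erase_subset a _) (by omega) (Fr x a ⊔ Fc x a) ?_ (by omega)
      (by omega)
    intro i hi j hj hij w hw
    obtain ⟨p, hp, q, hq, rfl⟩ := Submodule.mem_sup.mp hw
    rw [map_add]
    exact Submodule.add_mem_sup (Fr_inv h (hmem i hi) (hmem j hj) hij hp)
      (Fc_inv h (hmem i hi) (hmem j hj) hij hq)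
  · have hle1 : (Fr x a ⊓ Fc x a : Submodule K V) ≤ Fr x a := inf_le_left
    have hle2 : (Fr x a ⊓ Fc x a : Submodule K V) ≤ Fc x a := inf_le_right
    have m1 := Submodule.finrank_mono hle1
    have e1 := Submodule.eq_of_le_of_finrank_eq hle1 (by omega)
    have e2 := Submodule.eq_of_le_of_finrank_eq hle2 (by omega)
    have e3 : Fr x a = Fc x a := e1.symm.trans e2
    apply hnt
    have := hQ (Fr x a)
    refine h.triv_of_filt (Finset.Subset.refl _) (by omega) (Fr x a) ?_ (by omega) (by omega)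
    intro i _ j _ hij w hw
    by_cases hia : i = a
    · subst hia
      rw [hw j (Ne.symm hij)]; exact hw
    · by_cases hja : j = a
      · subst hja
        have hw' : w ∈ Fc x j := by rw [← e3]; exact hw
        rw [hw' i hij]; exact hw
      · exact Fr_inv h hia hja hij hw

end Hom

end Pool.Agent.R646.SLn
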