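import Mathlib
import Pool.Agent.R646.SLn.DimN

/-!
# Steinberg families in dimension `n` with a fixed hyperplane
-/

set_option autoImplicit false

namespace Pool.Agent.R646.SLn

open Module Matrix

variable {K V : Type*} [Field K] [AddCommGroup V] [Module K V] [FiniteDimensional K V]

omit [FiniteDimensional K V] in
theorem rel_sum {J : Type*} [Fintype J] [DecidableEq J] (u : J → V) (T : J → J → End K V)
    (hT : ∀ i j, i ≠ j → ∀ k, T i j (u k) = if k = j then u k + u i else u k) {i j : J}
    (hij : i ≠ j) (c : J → K) : T i j (∑ k, c k • u k) = ∑ k, c k • u k + c j • u i := by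
  rw [map_sum]
  have h1 : ∀ k, T i j (c k • u k) = c k • u k + (if k = j then c j • u i else 0) := by
    intro k
    rw [map_smul, hT i j hij k]
    split_ifs with hk
    · rw [hk, smul_add]
    · rw [add_zero]
  rw [Finset.sum_congr rfl (fun k _ => h1 k), Finset.sum_add_distrib]
  congr 1
  rw [Finset.sum_ite_eq' Finset.univ j (fun _ => c j • u i)]
  simp

omit [FiniteDimensional K V] in
theorem rel_indep {J : Type*} [Fintype J] [DecidableEq J] [Nontrivial J] (u : J → V)
    (hu : ∀ i, u i ≠ 0) (T : J → J → End K V)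
    (hT : ∀ i j, i ≠ j → ∀ k, T i j (u k) = if k = j then u k + u i else u k) :
    LinearIndependent K u := by
  rw [Fintype.linearIndependent_iff]
  intro c hc j
  obtain ⟨i, hi⟩ := exists_ne j
  have h1 := rel_sum u T hT hi c
  rw [hc, map_zero, zero_add] at h1
  rcases smul_eq_zero.mp h1.symm with h2 | h2
  · exact h2
  · exact absurd h2 (hu i)

variable {ι : Type*} [Fintype ι] [DecidableEq ι]

omit [DecidableEq ι] in
theorem avoid (hn : 4 ≤ Fintype.card ι) (a b c : ι) : ∃ l, l ≠ a ∧ l ≠ b ∧ l ≠ c := by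
  classical
  obtain ⟨l, hl⟩ : ∃ l, l ∉ ({a, b, c} : Finset ι) := by
    by_contra hcon
    push Not at hcon
    have h1 : (Finset.univ : Finset ι) ⊆ {a, b, c} := fun l _ => hcon l
    have h2 := Finset.card_le_card h1
    have h3 : ({a, b, c} : Finset ι).card ≤ 3 := Finset.card_le_three
    rw [Finset.card_univ] at h2
    omega
  exact ⟨l, fun e => hl (by simp [e]), fun e => hl (by simp [e]), fun e => hl (by simp [e])⟩

theorem std_of_hyp {x : ι → ι → End K V} (h : StF Finset.univ x) (hn : 5 ≤ Fintype.card ι)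
    (hd : finrank K V = Fintype.card ι) (b : ι) (hW : finrank K (Fc x b) + 1 = Fintype.card ι)
    (hnt : ¬ ∀ i ∈ (Finset.univ : Finset ι), ∀ j ∈ (Finset.univ : Finset ι), i ≠ j → x i j = 1) :
    ∃ u : ι → V, (∀ i, u i ≠ 0) ∧
      ∀ i j, i ≠ j → ∀ k, x i j (u k) = if k = j then u k + u i else u k := by
  have hU : ∀ b : ι, b ∈ (Finset.univ : Finset ι) := Finset.mem_univ
  have hcU : (Finset.univ : Finset ι).card = Fintype.card ι := Finset.card_univ
  have hn4 : 4 ≤ Fintype.card ι := by omega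
  have hne1 : ∀ i j, i ≠ j → x i j ≠ 1 := fun i j hij e =>
    hnt (h.triv (by omega) (hU i) (hU j) hij e)
  have c2 : ∀ i j k l, i ≠ j → k ≠ l → j ≠ k → i ≠ l → ∀ v, x i j (x k l v) = x k l (x i j v) :=
    fun i j k l h1 h2 h3 h4 v => LinearMap.congr_fun
      (h.c2 i (hU i) j (hU j) k (hU k) l (hU l) h1 h2 h3 h4) v
  have c1 : ∀ i j k, i ≠ j → j ≠ k → i ≠ k → ∀ v,
      x i j (x j k v) = x i k (x j k (x i j v)) :=
    fun i j k h1 h2 h3 v => LinearMap.congr_fun (h.c1 i (hU i) j (hU j) k (hU k) h1 h2 h3) v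
  have inj : ∀ i j, i ≠ j → ∀ v, v ≠ 0 → x i j v ≠ 0 := fun i j hij v hv e =>
    hv (h.inj (hU i) (hU j) hij (by rw [e, map_zero]))
  -- the functional
  have htop : Fc x b < ⊤ := by
    rw [lt_top_iff_ne_top]
    intro e
    rw [e, finrank_top] at hW
    omega
  obtain ⟨f, hf0, hfle⟩ := Submodule.exists_le_ker_of_lt_top _ htop
  have hker : Fc x b = LinearMap.ker f := by
    apply Submodule.eq_of_le_of_finrank_le hfle
    have h1 : LinearMap.ker f ≠ ⊤ := by
      intro e
      exact hf0 (LinearMap.ker_eq_top.mp e)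
    have h2 := Submodule.finrank_lt h1
    omega
  have hkf : ∀ v, f v = 0 → ∀ i, i ≠ b → x i b v = v := by
    intro v hv i hi
    have : v ∈ Fc x b := by rw [hker]; exact hv
    exact this i hi
  obtain ⟨v0, hv0⟩ : ∃ v0, f v0 = 1 := by
    obtain ⟨v, hv⟩ : ∃ v, f v ≠ 0 := by
      by_contra hcon
      push Not at hcon
      exact hf0 (LinearMap.ext hcon)
    exact ⟨(f v)⁻¹ • v, by rw [map_smul, smul_eq_mul, inv_mul_cancel₀ hv]⟩
  let u' : ι → V := fun i => x i b v0 - v0
  have hxb : ∀ i, i ≠ b → ∀ v, x i b v = v + f v • u' i := by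
    intro i hi v
    have h1 := hkf (v - f v • v0) (by rw [map_sub, map_smul, hv0]; simp) i hi
    rw [map_sub, map_smul, sub_eq_iff_eq_add] at h1
    rw [h1, smul_sub]
    abel
  have hu0 : ∀ i, i ≠ b → u' i ≠ 0 := by
    intro i hi e
    apply hne1 i b hi
    ext v
    rw [hxb i hi v, e, smul_zero, add_zero, Module.End.one_apply]
  -- first consequences
  have step1 : ∀ i k, i ≠ b → k ≠ b → i ≠ k → f (u' i) = 0 ∧
      ∃ μ : K, μ ≠ 0 ∧ (∀ v, f (x i k v) = μ * f v) ∧
        x i k (u' k) = μ • (u' k + (1 + f (u' k)) • u' i) := by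
    intro i k hi hk hik
    have hk1 : 1 + f (u' k) ≠ 0 := by
      intro e
      have h1 := inj k b hk (u' k) (hu0 k hk)
      apply h1
      rw [hxb k hk]
      have : u' k + f (u' k) • u' k = (1 + f (u' k)) • u' k := by rw [add_smul, one_smul]
      rw [this, e, zero_smul]
    set w : V := u' k + (1 + f (u' k)) • u' i with hw
    have E : ∀ v, f v • x i k (u' k) = f (x i k v) • w := by
      intro v
      have h1 := c1 i k b hik hk hi v
      rw [hxb k hk v, map_add, map_smul, hxb k hk (x i k v), hxb i hi, map_add, map_smul,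
        smul_eq_mul] at h1
      have h2 : x i k v + f (x i k v) • u' k + (f (x i k v) + f (x i k v) * f (u' k)) • u' i =
          x i k v + f (x i k v) • w := by
        rw [hw, smul_add, smul_smul, mul_add, mul_one, add_assoc]
      rw [h2] at h1
      exact add_left_cancel h1
    have h0 := E v0
    rw [hv0, one_smul] at h0
    have hne := inj i k hik (u' k) (hu0 k hk)
    have hμ : f (x i k v0) ≠ 0 := by
      intro e
      rw [e, zero_smul] at h0
      exact hne h0
    have hw0 : w ≠ 0 := by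
      intro e
      rw [e, smul_zero] at h0
      exact hne h0
    have hall : ∀ v, f (x i k v) = f (x i k v0) * f v := by
      intro v
      have h1 := E v
      rw [h0, smul_smul] at h1
      have h2 : (f v * f (x i k v0) - f (x i k v)) • w = 0 := by rw [sub_smul, h1, sub_self]
      rcases smul_eq_zero.mp h2 with h3 | h3
      · rw [sub_eq_zero] at h3
        rw [← h3, mul_comm]
      · exact absurd h3 hw0
    have hfi : f (u' i) = 0 := by
      have h1 := hall (u' k)
      rw [h0, map_smul, smul_eq_mul] at h1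
      have h2 := mul_left_cancel₀ hμ h1
      rw [hw, map_add, map_smul, smul_eq_mul] at h2
      have h3 : (1 + f (u' k)) * f (u' i) = 0 := by linear_combination h2
      rcases mul_eq_zero.mp h3 with h4 | h4
      · exact absurd h4 hk1
      · exact h4
    exact ⟨hfi, _, hμ, hall, h0⟩
  have hfu : ∀ i, i ≠ b → f (u' i) = 0 := by
    intro i hi
    obtain ⟨k, hk1, hk2, -⟩ := avoid hn4 i b b
    exact (step1 i k hi hk2 (Ne.symm hk1)).1
  have step2 : ∀ i k, i ≠ b → k ≠ b → i ≠ k →
      (∀ v, f (x i k v) = f v) ∧ x i k (u' k) = u' k + u' i := by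
    intro i k hi hk hik
    obtain ⟨l, hl1, hl2, hl3⟩ := avoid hn4 i k b
    obtain ⟨-, μ, hμ, a1, a2⟩ := step1 i k hi hk hik
    obtain ⟨-, μ1, hμ1, b1, -⟩ := step1 i l hi hl3 (Ne.symm hl1)
    obtain ⟨-, μ2, hμ2, d1, -⟩ := step1 l k hl3 hk hl2
    have h1 := congrArg f (c1 i l k (Ne.symm hl1) hl2 hik v0)
    rw [b1, d1, a1, d1, b1, hv0] at h1
    have hm : μ = 1 := by
      have h2 : (μ1 * μ2) * μ = (μ1 * μ2) * 1 := by linear_combination -h1
      exact mul_left_cancel₀ (mul_ne_zero hμ1 hμ2) h2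
    rw [hm] at a1 a2
    refine ⟨fun v => by rw [a1, one_mul], ?_⟩
    rw [a2, one_smul, hfu k hk, add_zero, one_smul]
  have R1a : ∀ i k, i ≠ b → k ≠ b → i ≠ k → ∀ v, f (x i k v) = f v := fun i k h1 h2 h3 =>
    (step2 i k h1 h2 h3).1
  have R1b : ∀ i k, i ≠ b → k ≠ b → i ≠ k → x i k (u' k) = u' k + u' i := fun i k h1 h2 h3 =>
    (step2 i k h1 h2 h3).2
  have hxv0 : ∀ k, x k b v0 = v0 + u' k := fun k => by
    show x k b v0 = v0 + (x k b v0 - v0)
    abel
  have R2 : ∀ i j k, i ≠ b → j ≠ b → k ≠ b → i ≠ j → k ≠ j → x i j (u' k) = u' k := by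
    intro i j k hi hj hk hij hkj
    have h1 := c2 i j k b hij hk (Ne.symm hkj) hi v0
    rw [hxb k hk (x i j v0), R1a i j hi hj hij, hv0, one_smul, hxv0 k, map_add] at h1
    exact add_left_cancel h1
  -- the span of the `u'`
  have hRel : ∀ i j : {m // m ≠ b}, i ≠ j → ∀ k : {m // m ≠ b},
      x i j (u' k) = if k = j then u' k + u' i else u' k := by
    intro i j hij k
    have hij' : i.1 ≠ j.1 := fun e => hij (Subtype.ext e)
    split_ifs with hk
    · rw [hk]; exact R1b i j i.2 j.2 hij'
    · exact R2 i j k i.2 j.2 k.2 hij' (fun e => hk (Subtype.ext e))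
  have hJc : Fintype.card {m // m ≠ b} + 1 = Fintype.card ι := by
    rw [Fintype.card_subtype_compl, Fintype.card_subtype_eq]
    omega
  have hJn : Nontrivial {m // m ≠ b} := by
    rw [← Fintype.one_lt_card_iff_nontrivial]; omega
  have hli : LinearIndependent K (fun m : {m // m ≠ b} => u' m) :=
    rel_indep (fun m : {m // m ≠ b} => u' m) (fun m => hu0 m m.2)
      (fun i j : {m // m ≠ b} => x i j) hRel
  have hspan : Submodule.span K (Set.range (fun m : {m // m ≠ b} => u' m)) = LinearMap.ker f := by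
    apply Submodule.eq_of_le_of_finrank_le
    · rw [Submodule.span_le]
      rintro _ ⟨m, rfl⟩
      exact hfu m m.2
    · rw [finrank_span_eq_card hli]
      have h1 : LinearMap.ker f ≠ ⊤ := by
        intro e
        exact hf0 (LinearMap.ker_eq_top.mp e)
      have h2 := Submodule.finrank_lt h1
      omega
  -- the row `b`
  have R3f : ∀ j k, j ≠ b → k ≠ b → k ≠ j → f (x b j (u' k)) = 0 := by
    intro j k hj hk hkj
    obtain ⟨l, hl1, hl2, hl3⟩ := avoid hn4 k b j
    have h1 := R1b k l hk hl2 (Ne.symm hl1)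
    have h2 : u' k = x k l (u' l) - u' l := by rw [h1]; abel
    have h3 := c2 b j k l (Ne.symm hj) (Ne.symm hl1) (Ne.symm hkj) (Ne.symm hl2) (u' l)
    rw [h2, map_sub, h3, map_sub, R1a k l hk hl2 (Ne.symm hl1), sub_self]
  have R3g : ∀ j k, j ≠ b → k ≠ b → k ≠ j → ∃ γ : K, γ ≠ 0 ∧ x b j (u' k) = γ • u' k := by
    intro j k hj hk hkj
    have hmem : x b j (u' k) ∈ Submodule.span K (Set.range (fun m : {m // m ≠ b} => u' m)) := by
      rw [hspan]; exact R3f j k hj hk hkj
    rw [Submodule.mem_span_range_iff_exists_fun] at hmem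
    obtain ⟨c, hc⟩ := hmem
    have hc0 : ∀ m : {m // m ≠ b}, m ≠ ⟨k, hk⟩ → c m = 0 := by
      intro m hm
      have hmk : m.1 ≠ k := fun e => hm (Subtype.ext e)
      obtain ⟨i, hi1, hi2, hi3⟩ := avoid hn4 m.1 b j
      have h1 := rel_sum (fun m : {m // m ≠ b} => u' m) (fun i j : {m // m ≠ b} => x i j) hRel
        (i := ⟨i, hi2⟩) (j := m) (fun e => hi1 (congrArg Subtype.val e)) c
      rw [hc] at h1
      have h2 := c2 b j i m (Ne.symm hj) hi1 (Ne.symm hi3) (Ne.symm m.2) (u' k)
      rw [R2 i m k hi2 m.2 hk hi1 (Ne.symm hmk)] at h2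
      have h3 : x i m.1 (x b j (u' k)) = x b j (u' k) + c m • u' i := h1
      rw [← h2] at h3
      have h4 : c m • u' i = 0 := by
        have := h3.symm
        rwa [add_eq_left] at this
      rcases smul_eq_zero.mp h4 with h5 | h5
      · exact h5
      · exact absurd h5 (hu0 i hi2)
    have h6 : x b j (u' k) = c ⟨k, hk⟩ • u' k := by
      rw [← hc]
      exact Fintype.sum_eq_single (⟨k, hk⟩ : {m // m ≠ b}) (fun m hm => by
        rw [hc0 m hm, zero_smul])
    refine ⟨c ⟨k, hk⟩, fun e => ?_, h6⟩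
    rw [e, zero_smul] at h6
    exact inj b j (Ne.symm hj) (u' k) (hu0 k hk) h6
  have R3a : ∀ j k, j ≠ b → k ≠ b → k ≠ j → x b j (u' k) = u' k := by
    intro j k hj hk hkj
    obtain ⟨m, hm1, hm2, hm3⟩ := avoid hn4 b j k
    obtain ⟨γ, hγ, e1⟩ := R3g j k hj hk hkj
    obtain ⟨δ, hδ, e2⟩ := R3g m k hm1 hk (Ne.symm hm3)
    have h1 := c1 b m j (Ne.symm hm1) hm2 (Ne.symm hj) (u' k)
    rw [R2 m j k hm1 hj hk hm2 hkj, e2, map_smul, map_smul, R2 m j k hm1 hj hk hm2 hkj, e1] at h1
    have h2 : u' k = γ • u' k := by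
      have h3 := congrArg (fun v => δ⁻¹ • v) h1
      simp only [smul_smul, inv_mul_cancel₀ hδ, one_smul] at h3
      rw [← mul_assoc, inv_mul_cancel₀ hδ, one_mul] at h3
      exact h3
    rw [e1, ← h2]
  have hcomm_j : ∀ j i, j ≠ b → i ≠ b → i ≠ j → x i j (x b j (u' j)) = x b j (u' j) + u' i := by
    intro j i hj hi hij
    rw [c2 i j b j hij (Ne.symm hj) hj hij, R1b i j hi hj hij, map_add, R3a j i hj hi hij]
  have R3b : ∀ j, j ≠ b → f (x b j (u' j)) = 1 := by
    intro j hj
    obtain ⟨i, hi1, hi2, -⟩ := avoid hn4 j b b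
    have h1 := c1 i b j hi2 (Ne.symm hj) hi1 (u' j)
    rw [hkf (u' j) (hfu j hj) i hi2, hxb i hi2 (x b j (u' j)), hcomm_j j i hj hi2 hi1] at h1
    have h2 := add_left_cancel h1
    have h3 : (f (x b j (u' j)) - 1) • u' i = 0 := by rw [sub_smul, h2, one_smul, sub_self]
    rcases smul_eq_zero.mp h3 with h4 | h4
    · exact sub_eq_zero.mp h4
    · exact absurd h4 (hu0 i hi2)
  have he : ∀ j m, j ≠ b → m ≠ b → j ≠ m → x b j (u' j) - u' j = x b m (u' m) - u' m := by
    intro j m hj hm hjm
    have h1 := c1 b j m (Ne.symm hj) hjm (Ne.symm hm) (u' m)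
    rw [R1b j m hj hm hjm, map_add, R3a j m hj hm (Ne.symm hjm), R1b j m hj hm hjm, map_add,
      R3a m j hm hj hjm] at h1
    rw [sub_eq_sub_iff_add_eq_add]
    rw [add_comm (x b j (u' j)), h1, add_comm (x b m (u' m))]
  obtain ⟨j0, hj0, -, -⟩ := avoid hn4 b b b
  set e : V := x b j0 (u' j0) - u' j0 with hedef
  have hee : ∀ j, j ≠ b → x b j (u' j) = u' j + e := by
    intro j hj
    by_cases hjj : j = j0
    · rw [hjj, hedef]; abel
    · rw [hedef, ← he j j0 hj hj0 hjj]; abel
  have hfe : f e = 1 := by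
    rw [hedef, map_sub, R3b j0 hj0, hfu j0 hj0, sub_zero]
  have hen : e ≠ 0 := by
    intro e0
    rw [e0, map_zero] at hfe
    exact zero_ne_one hfe
  have R4 : ∀ k l, k ≠ b → l ≠ b → k ≠ l → x k l e = e := by
    intro k l hk hl hkl
    obtain ⟨j, hj1, hj2, hj3⟩ := avoid hn4 b k l
    have h1 : e = x b j (u' j) - u' j := by rw [hee j hj1]; abel
    have h2 := c2 k l b j hkl (Ne.symm hj1) hl (Ne.symm hj2) (u' j)
    rw [R2 k l j hk hl hj1 hkl hj3] at h2
    rw [h1, map_sub, h2, R2 k l j hk hl hj1 hkl hj3]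
  have R5 : ∀ j, j ≠ b → x b j e = e := by
    intro j hj
    obtain ⟨m, hm1, hm2, -⟩ := avoid hn4 b j j
    have h1 := c2 b j b m (Ne.symm hj) (Ne.symm hm1) hj (Ne.symm hm1) (u' m)
    rw [R3a j m hj hm1 hm2, hee m hm1, map_add, R3a j m hj hm1 hm2] at h1
    exact add_left_cancel h1
  refine ⟨fun i => if i = b then e else u' i, ?_, ?_⟩
  · intro i
    by_cases hi : i = b
    · simp only [hi, if_true]; exact hen
    · simp only [hi, if_false]; exact hu0 i hi
  · intro i j hij k
    by_cases hib : i = b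
    · subst hib
      have hj : j ≠ i := Ne.symm hij
      by_cases hk : k = i
      · have hkj : k ≠ j := fun e => hij (hk.symm.trans e)
        simp only [hk, if_true, if_neg hij]
        exact R5 j hj
      · by_cases hkj : k = j
        · simp only [hkj, hj, if_true, if_false]
          exact hee j hj
        · simp only [hk, hkj, if_false]
          exact R3a j k hj hk hkj
    · by_cases hjb : j = b
      · subst hjb
        by_cases hk : k = j
        · simp only [hk, hib, if_true, if_false]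
          rw [hxb i hib, hfe, one_smul]
        · simp only [hk, if_false]
          exact hkf (u' k) (hfu k hk) i hib
      · by_cases hk : k = b
        · have hbj : ¬ b = j := fun e => hjb e.symm
          simp only [hk, hbj, if_true, if_false]
          exact R4 i j hib hjb hij
        · by_cases hkj : k = j
          · simp only [hkj, hjb, hib, if_true, if_false]
            exact R1b i j hib hjb hij
          · simp only [hk, hkj, if_false]
            exact R2 i j k hib hjb hk hij hkj

end Pool.Agent.R646.SLn
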