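import Mathlib
import Pool.Agent.R646.SLn.Std
import Pool.Agent.R646.SLn.Lin
import Pool.Agent.R628.SLRec

/-!
# Homomorphisms from `SL (n, ℤ)` to matrices of size `n` in positive characteristic
-/

set_option autoImplicit false

namespace Pool.Agent.R646.SLn

open Module Matrix

section Tau

variable {ι : Type*} [Fintype ι] [DecidableEq ι]

/-- The inverse transpose. -/
def tau : SpecialLinearGroup ι ℤ →* SpecialLinearGroup ι ℤ where
  toFun A := ⟨(A⁻¹).1.transpose, by rw [Matrix.det_transpose]; exact (A⁻¹).2⟩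
  map_one' := by
    apply Subtype.ext
    change ((1 : SpecialLinearGroup ι ℤ)⁻¹).1.transpose = (1 : SpecialLinearGroup ι ℤ).1
    rw [inv_one]
    exact Matrix.transpose_one
  map_mul' A B := by
    apply Subtype.ext
    change ((A * B)⁻¹).1.transpose = (A⁻¹).1.transpose * (B⁻¹).1.transpose
    rw [← Matrix.transpose_mul, _root_.mul_inv_rev]
    rfl

theorem tau_val (A : SpecialLinearGroup ι ℤ) : (tau A).1 = (A⁻¹).1.transpose := rfl

theorem tau_tau (A : SpecialLinearGroup ι ℤ) : tau (tau A) = A := by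
  apply Subtype.ext
  rw [tau_val, ← map_inv, tau_val, inv_inv, Matrix.transpose_transpose]

theorem tv_inv {i j : ι} (h : i ≠ j) (c : ℤ) : (tv h c)⁻¹ = tv h (-c) := by
  rw [inv_eq_iff_mul_eq_one, tv_mul, add_neg_cancel, tv_zero]

theorem tau_el {i j : ι} (h : i ≠ j) : tau (el i j) = (el j i)⁻¹ := by
  rw [el_of_ne h, el_of_ne h.symm, tv_inv]
  apply Subtype.ext
  rw [tau_val, tv_inv]
  change (Matrix.transvection i j (-1 : ℤ)).transpose = Matrix.transvection j i (-1)
  unfold Matrix.transvection
  rw [Matrix.transpose_add, Matrix.transpose_one, Matrix.transpose_single]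

/-- Reduction of the entries. -/
def red (K : Type*) [CommRing K] : SpecialLinearGroup ι ℤ →* Matrix ι ι K where
  toFun A := A.1.map (Int.castRingHom K)
  map_one' := by
    change ((1 : Matrix ι ι ℤ)).map (Int.castRingHom K) = 1
    exact Matrix.map_one _ (map_zero _) (map_one _)
  map_mul' A B := by
    change (A.1 * B.1).map (Int.castRingHom K) = _
    exact Matrix.map_mul

theorem red_inv {K : Type*} [CommRing K] {A : SpecialLinearGroup ι ℤ} (h : red K A = 1) :
    red K A⁻¹ = 1 := by
  have h1 : red K A⁻¹ * red K A = 1 := by rw [← map_mul, inv_mul_cancel, map_one]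
  rwa [h, mul_one] at h1

theorem red_tau {K : Type*} [CommRing K] {A : SpecialLinearGroup ι ℤ} (h : red K A = 1) :
    red K (tau A) = 1 := by
  have h1 : red K (tau A) = (red K A⁻¹).transpose := by
    ext i j
    rfl
  rw [h1, red_inv h, Matrix.transpose_one]

theorem kernel_of_hyp {K V : Type*} [Field K] [AddCommGroup V] [Module K V]
    [FiniteDimensional K V] (hn : 5 ≤ Fintype.card ι)
    (hd : finrank K V = Fintype.card ι) (ρ : SpecialLinearGroup ι ℤ →* End K V) (b : ι)
    (hW : finrank K (Fc (fun i j => ρ (el i j)) b) + 1 = Fintype.card ι)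
    (hnt : ¬ ∀ i ∈ (Finset.univ : Finset ι), ∀ j ∈ (Finset.univ : Finset ι), i ≠ j →
      ρ (el i j) = 1) (A : SpecialLinearGroup ι ℤ) : ρ A = 1 ↔ red K A = 1 := by
  have h := (stF_el (ι := ι)).map ρ
  obtain ⟨u, hu0, hu⟩ := std_of_hyp h hn hd b hW hnt
  have hnon : Nontrivial ι := by
    rw [← Fintype.one_lt_card_iff_nontrivial]; omega
  have hli : LinearIndependent K u := rel_indep u hu0 (fun i j => ρ (el i j)) hu
  have : Nonempty ι := inferInstance
  let B : Basis ι K V := basisOfLinearIndependentOfCardEqFinrank hli hd.symm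
  have hB : ∀ i, B i = u i := fun i => by
    rw [coe_basisOfLinearIndependentOfCardEqFinrank]
  let ρ' : SpecialLinearGroup ι ℤ →* End K V :=
    ((Matrix.toLinAlgEquiv B : Matrix ι ι K ≃ₐ[K] _) : Matrix ι ι K →* _).comp (red K)
  have heq : MonoidHom.eqLocus ρ ρ' = ⊤ := by
    apply eq_top_of_el
    intro i j hij
    change ρ (el i j) = ρ' (el i j)
    refine B.ext fun k => ?_
    have h1 : ρ' (el i j) (B k) = ∑ l, red K (el i j) l k • B l :=
      Matrix.toLinAlgEquiv_self B (red K (el i j)) k
    rw [h1]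
    have h2 : ∀ l, red K (el i j) l k = (if l = k then 1 else 0) + (if l = i ∧ k = j then 1 else 0) := by
      intro l
      rw [el_of_ne hij]
      have e1 : (red K (tv hij 1)) l k =
          (((1 : Matrix ι ι ℤ) l k + Matrix.single i j (1 : ℤ) l k : ℤ) : K) := rfl
      have e2 : (i = l ∧ j = k) ↔ (l = i ∧ k = j) :=
        ⟨fun h => ⟨h.1.symm, h.2.symm⟩, fun h => ⟨h.1.symm, h.2.symm⟩⟩
      rw [e1, Matrix.one_apply, Matrix.single_apply]
      simp only [e2]
      push_cast
      rfl
    rw [Finset.sum_congr rfl (fun l _ => by rw [h2 l, add_smul]), Finset.sum_add_distrib]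
    have h3 : ∑ l, (if l = k then (1 : K) else 0) • B l = B k := by
      rw [Finset.sum_eq_single k]
      · simp
      · intro l _ hl; simp [hl]
      · intro hk; exact absurd (Finset.mem_univ k) hk
    have h4 : ∑ l, (if l = i ∧ k = j then (1 : K) else 0) • B l = if k = j then B i else 0 := by
      rw [Finset.sum_eq_single i]
      · by_cases hk : k = j <;> simp [hk]
      · intro l _ hl; simp [hl]
      · intro hk; exact absurd (Finset.mem_univ i) hk
    rw [h3, h4, hB, hB]
    have h5 := hu i j hij k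
    change ρ (el i j) (u k) = _
    rw [h5]
    split_ifs
    · rfl
    · rw [add_zero]
  have hmem : A ∈ MonoidHom.eqLocus ρ ρ' := by rw [heq]; trivial
  have h6 : ρ A = ρ' A := hmem
  rw [h6]
  change (Matrix.toLinAlgEquiv B) (red K A) = 1 ↔ red K A = 1
  constructor
  · intro h7
    exact (Matrix.toLinAlgEquiv B).injective (by rw [map_one]; exact h7)
  · intro h7
    rw [h7, map_one]

theorem red_tau_iff {K : Type*} [CommRing K] {A : SpecialLinearGroup ι ℤ} :
    red K (tau A) = 1 ↔ red K A = 1 := by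
  constructor
  · intro h
    have h1 := red_tau h
    rwa [tau_tau] at h1
  · exact red_tau

/-- In dimension `n ≥ 5` the kernel of a nontrivial homomorphism is the congruence kernel. -/
theorem kernel_dim {K V : Type*} [Field K] [IsAlgClosed K] [AddCommGroup V] [Module K V]
    [FiniteDimensional K V] (hn : 5 ≤ Fintype.card ι)
    (hd : finrank K V = Fintype.card ι) (ρ : SpecialLinearGroup ι ℤ →* End K V)
    (A : SpecialLinearGroup ι ℤ)
    (htr : ¬ ∀ i ∈ (Finset.univ : Finset ι), ∀ j ∈ (Finset.univ : Finset ι), i ≠ j →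
      ρ (el i j) = 1) : ρ A = 1 ↔ red K A = 1 := by
  have hcU : (Finset.univ : Finset ι).card = Fintype.card ι := Finset.card_univ
  have hpow : ∀ m : ℕ, 5 ≤ m → m < 2 ^ (m - 2) := by
    intro m hm
    induction m, hm using Nat.le_induction with
    | base => norm_num
    | succ m hm ih =>
      have e : m + 1 - 2 = (m - 2) + 1 := by omega
      rw [e, pow_succ]
      omega
  have hlt : finrank K V < 2 ^ ((Finset.univ : Finset ι).card - 2) := by
    rw [hcU, hd]; exact hpow _ hn
  have hVn : Nontrivial V := by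
    rw [← Module.finrank_pos_iff (R := K)]; omega
  have fixr : ∀ (σ : SpecialLinearGroup ι ℤ →* End K V) (a : ι),
      ∃ v : V, v ≠ 0 ∧ ∀ k, k ≠ a → σ (el a k) v = v := by
    intro σ a
    obtain ⟨v, hv, h1⟩ := row_fix ((stF_el (ι := ι)).map σ) (by omega) hlt (Finset.mem_univ a)
    exact ⟨v, hv, fun k hk => h1 k (Finset.mem_erase.mpr ⟨hk, Finset.mem_univ k⟩)⟩
  have inv_fix : ∀ (g : SpecialLinearGroup ι ℤ) (v : V), ρ g⁻¹ v = v → ρ g v = v := by
    intro g v hv
    have h1 : ρ g (ρ g⁻¹ v) = v := by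
      rw [← Module.End.mul_apply, ← map_mul, mul_inv_cancel, map_one, Module.End.one_apply]
    rwa [hv] at h1
  have inv_fix' : ∀ (g : SpecialLinearGroup ι ℤ) (v : V), ρ g v = v → ρ g⁻¹ v = v := by
    intro g v hv
    have h1 : ρ g⁻¹ (ρ g v) = v := by
      rw [← Module.End.mul_apply, ← map_mul, inv_mul_cancel, map_one, Module.End.one_apply]
    rwa [hv] at h1
  obtain ⟨a⟩ : Nonempty ι := by
    rw [← Fintype.card_pos_iff]; omega
  have hr : ∃ v : V, v ≠ 0 ∧ v ∈ Fr (fun i j => ρ (el i j)) a := by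
    obtain ⟨v, hv, h1⟩ := fixr ρ a
    exact ⟨v, hv, h1⟩
  have hc : ∃ v : V, v ≠ 0 ∧ v ∈ Fc (fun i j => ρ (el i j)) a := by
    obtain ⟨v, hv, h1⟩ := fixr (ρ.comp tau) a
    refine ⟨v, hv, fun k hk => ?_⟩
    have h2 := h1 k hk
    rw [MonoidHom.comp_apply, tau_el (Ne.symm hk)] at h2
    exact inv_fix _ _ h2
  rcases hyp_or ((stF_el (ι := ι)).map ρ) hn hd a hr hc htr with h1 | h1
  · -- the dual case
    have hFc : Fc (fun i j => (ρ.comp tau) (el i j)) a = Fr (fun i j => ρ (el i j)) a := by
      ext v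
      constructor
      · intro hv k hk
        have h2 := hv k hk
        simp only [MonoidHom.comp_apply] at h2
        rw [tau_el hk] at h2
        exact inv_fix _ _ h2
      · intro hv k hk
        simp only [MonoidHom.comp_apply]
        rw [tau_el hk]
        exact inv_fix' _ _ (hv k hk)
    have hnt2 : ¬ ∀ i ∈ (Finset.univ : Finset ι), ∀ j ∈ (Finset.univ : Finset ι), i ≠ j →
        (ρ.comp tau) (el i j) = 1 := by
      intro hall
      apply htr
      intro i hi j hj hij
      have h2 := hall j hj i hi (Ne.symm hij)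
      rw [MonoidHom.comp_apply, tau_el (Ne.symm hij)] at h2
      have h3 : ρ (el i j) * ρ (el i j)⁻¹ = 1 := by rw [← map_mul, mul_inv_cancel, map_one]
      rwa [h2, mul_one] at h3
    have h4 := kernel_of_hyp hn hd (ρ.comp tau) a (by rw [hFc]; exact h1) hnt2 (tau A)
    rw [MonoidHom.comp_apply, tau_tau] at h4
    rw [h4]
    exact red_tau_iff
  · exact kernel_of_hyp hn hd ρ a h1 htr A

theorem red_iff {n : ℕ} (L : Type*) [Field L] (p : ℕ) [CharP L p]
    (A : SpecialLinearGroup (Fin n) ℤ) : red L A = 1 ↔ red (ZMod p) A = 1 := by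
  have key : ∀ i j, ((A.1 i j : ℤ) : L) = (1 : Matrix _ _ L) i j ↔
      ((A.1 i j : ℤ) : ZMod p) = (1 : Matrix _ _ (ZMod p)) i j := by
    intro i j
    rw [Matrix.one_apply, Matrix.one_apply]
    by_cases hij : i = j
    · rw [if_pos hij, if_pos hij]
      have h1 : ((A.1 i j : ℤ) : L) = 1 ↔ ((A.1 i j - 1 : ℤ) : L) = 0 := by
        push_cast; exact sub_eq_zero.symm
      have h2 : ((A.1 i j : ℤ) : ZMod p) = 1 ↔ ((A.1 i j - 1 : ℤ) : ZMod p) = 0 := by
        push_cast; exact sub_eq_zero.symm
      rw [h1, h2, CharP.intCast_eq_zero_iff L p, ZMod.intCast_zmod_eq_zero_iff_dvd]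
    · rw [if_neg hij, if_neg hij, CharP.intCast_eq_zero_iff L p, ZMod.intCast_zmod_eq_zero_iff_dvd]
  constructor
  · intro h
    ext i j
    exact (key i j).mp (congrFun (congrFun h i) j)
  · intro h
    ext i j
    exact (key i j).mpr (congrFun (congrFun h i) j)

/-- The kernel of a nontrivial homomorphism to `n × n` matrices over a field of characteristic `p`
is the kernel of the reduction modulo `p`. -/
theorem kernel_matrix_iff {n : ℕ} (hn : 5 ≤ n) {F : Type*} [Field F] {p : ℕ} [CharP F p]
    (ρ : SpecialLinearGroup (Fin n) ℤ →* Matrix (Fin n) (Fin n) F) (hρ : ρ ≠ 1)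
    (A : SpecialLinearGroup (Fin n) ℤ) : ρ A = 1 ↔ red (ZMod p) A = 1 := by
  let L := AlgebraicClosure F
  have hL : CharP L p := charP_of_injective_algebraMap (algebraMap F L).injective p
  let f1 : Matrix (Fin n) (Fin n) F →+* Matrix (Fin n) (Fin n) L := (algebraMap F L).mapMatrix
  let f2 : Matrix (Fin n) (Fin n) L →* End L (Fin n → L) :=
    ((Matrix.toLinAlgEquiv' : Matrix (Fin n) (Fin n) L ≃ₐ[L] _) : _ →* _)
  have hback : ∀ A : SpecialLinearGroup (Fin n) ℤ, f2 (f1 (ρ A)) = 1 → ρ A = 1 := by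
    intro A h1
    have h2 : f2 (f1 (ρ A)) = f2 1 := by rw [map_one]; exact h1
    have h3 : f1 (ρ A) = 1 :=
      (Matrix.toLinAlgEquiv' : Matrix (Fin n) (Fin n) L ≃ₐ[L] _).injective h2
    have h4 : f1 (ρ A) = f1 1 := by rw [map_one]; exact h3
    exact Matrix.map_injective (algebraMap F L).injective h4
  have h1 := kernel_dim (ι := Fin n) (K := L) (V := Fin n → L) (by simpa using hn)
    (by rw [Module.finrank_fin_fun, Fintype.card_fin]) ((f2.comp f1.toMonoidHom).comp ρ) A (by
      intro hall
      apply hρ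
      apply eq_one_of_el
      intro i j hij
      exact hback _ (hall i (Finset.mem_univ i) j (Finset.mem_univ j) hij))
  rw [← red_iff L p A, ← h1]
  constructor
  · intro h2
    change f2 (f1 (ρ A)) = 1
    rw [h2, map_one, map_one]
  · intro h2
    exact hback A h2

theorem kernel_matrix {n : ℕ} (hn : 5 ≤ n) {F : Type*} [Field F] {p : ℕ} [CharP F p]
    (ρ : SpecialLinearGroup (Fin n) ℤ →* Matrix (Fin n) (Fin n) F)
    (A : SpecialLinearGroup (Fin n) ℤ) (hA : red (ZMod p) A = 1) : ρ A = 1 := by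
  by_cases hρ : ρ = 1
  · rw [hρ]; rfl
  · exact (kernel_matrix_iff hn ρ hρ A).mpr hA

end Tau

variable {n : ℕ} {Γ : Type*} [Group Γ]

/-- Images of `Γ` in `GL (n, K)` are finite in positive characteristic. -/
theorem finite_image (hn : 5 ≤ n) (hfg : Group.FG Γ)
    (hq : ∀ (Q : Type) [Group Q] [Finite Q], (∃ f : Γ →* Q, Function.Surjective f) →
      ∃ f : SpecialLinearGroup (Fin n) ℤ →* Q, Function.Surjective f)
    {K : Type*} [Field K] (p : ℕ) (hp : p.Prime) [CharP K p] (φ : Γ →* GL (Fin n) K) :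
    Finite φ.range := by
  have hpf : Fact p.Prime := ⟨hp⟩
  let X : Type := Matrix (Fin n) (Fin n) (ZMod p)
  have hXf : Finite X := inferInstanceAs (Finite (Fin n → Fin n → ZMod p))
  have hPf : Finite (Equiv.Perm X) := inferInstance
  -- finitely many homomorphisms to `Perm X`
  obtain ⟨T, hT⟩ := Group.fg_def.1 hfg
  have hH : Finite (Γ →* Equiv.Perm X) := by
    refine Finite.of_injective (fun (h : Γ →* Equiv.Perm X) (t : T) => h t) ?_
    intro h1 h2 e
    refine MonoidHom.eq_of_eqOn_dense hT ?_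
    intro t ht
    exact congrFun e ⟨t, ht⟩
  let Ψ : Γ →* ((Γ →* Equiv.Perm X) → Equiv.Perm X) :=
    { toFun := fun γ h => h γ
      map_one' := by funext h; exact map_one h
      map_mul' := by intro x y; funext h; exact map_mul h x y }
  have hker : Ψ.ker ≤ φ.ker := by
    intro γ hγ
    rw [MonoidHom.mem_ker]
    by_contra hne
    obtain ⟨R, I, hI, hfin, θ, hθ⟩ := malcev φ γ hne
    let _ : Field (R ⧸ I) := Ideal.Quotient.field I
    have hchar : CharP (R ⧸ I) p := by
      obtain ⟨q, hq⟩ := CharP.exists (R ⧸ I)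
      have h0 : ((p : ℕ) : R) = 0 := by
        apply Subtype.ext
        have : (((p : ℕ) : R) : K) = ((p : ℕ) : K) := by simp
        rw [this, CharP.cast_eq_zero]
        rfl
      have h1 : ((p : ℕ) : R ⧸ I) = 0 := by
        have := congrArg (Ideal.Quotient.mk I) h0
        simpa using this
      have h2 : q ∣ p := (CharP.cast_eq_zero_iff (R ⧸ I) q p).mp h1
      rcases (Nat.dvd_prime hp).mp h2 with h3 | h3
      · exact absurd h3 (CharP.char_ne_one (R ⧸ I) q)
      · rw [← h3]; exact hq
    have hfin2 : Finite (Matrix (Fin n) (Fin n) (R ⧸ I)) :=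
      inferInstanceAs (Finite (Fin n → Fin n → _))
    have hfin3 : Finite (Matrix (Fin n) (Fin n) (R ⧸ I))ˣ := inferInstance
    let Θ := θ.toHomUnits
    let G : Subgroup (Matrix (Fin n) (Fin n) (R ⧸ I))ˣ := Θ.range
    let e : Shrink.{0} G ≃* G := Shrink.mulEquiv
    have hfS : Finite (Shrink.{0} G) := Finite.of_equiv G e.symm.toEquiv
    obtain ⟨g0, hg0⟩ := hq (Shrink.{0} G) ⟨e.symm.toMonoidHom.comp Θ.rangeRestrict,
      e.symm.surjective.comp Θ.rangeRestrict_surjective⟩
    let g : SpecialLinearGroup (Fin n) ℤ →* G := e.toMonoidHom.comp g0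
    have hg : Function.Surjective g := e.surjective.comp hg0
    have hkill : ∀ A : SpecialLinearGroup (Fin n) ℤ, red (ZMod p) A = 1 → g A = 1 := by
      intro A hA
      have h1 := kernel_matrix hn (F := R ⧸ I) (p := p)
        ((Units.coeHom _).comp (G.subtype.comp g)) A hA
      apply Subtype.ext
      apply Units.ext
      exact h1
    choose sec hsec using hg
    have hinj : Function.Injective (fun q : G => (red (ZMod p) (sec q) : X)) := by
      intro q q' hqq
      have hqq' : red (ZMod p) (sec q) = red (ZMod p) (sec q') := hqq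
      have h1 : red (ZMod p) ((sec q')⁻¹ * sec q) = 1 := by
        rw [map_mul, hqq', ← map_mul, inv_mul_cancel, map_one]
      have h2 := hkill _ h1
      rw [map_mul, map_inv, hsec, hsec, inv_mul_eq_one] at h2
      exact h2.symm
    let emb : G ↪ X := ⟨fun q => (red (ZMod p) (sec q) : X), hinj⟩
    let H : Γ →* Equiv.Perm X := (Equiv.Perm.viaEmbeddingHom emb).comp
      ((MulAction.toPermHom G G).comp Θ.rangeRestrict)
    have h3 : H γ = 1 := congrFun (show Ψ γ = 1 from hγ) H
    have h4 : (MulAction.toPermHom G G) (Θ.rangeRestrict γ) = 1 := by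
      apply Equiv.Perm.viaEmbeddingHom_injective emb
      rw [map_one]
      exact h3
    have h5 : Θ.rangeRestrict γ = 1 := by
      have h6 := DFunLike.congr_fun h4 (1 : G)
      simpa using h6
    have h7 : Θ γ = 1 := congrArg Subtype.val h5
    exact hθ (congrArg Units.val h7)
  have hΨ : Ψ.ker.FiniteIndex := inferInstance
  have hφ : φ.ker.FiniteIndex := Subgroup.finiteIndex_of_le hker
  have : Finite (Γ ⧸ φ.ker) := inferInstance
  exact Finite.of_equiv _ (QuotientGroup.quotientKerEquivRange φ).toEquiv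

/-- Reduction modulo `p` is surjective. -/
theorem map_surj (hn : 2 ≤ n) (p : ℕ) [Fact p.Prime] : Function.Surjective
    (SpecialLinearGroup.map (n := Fin n) (Int.castRingHom (ZMod p))) := by
  rw [← MonoidHom.range_eq_top]
  apply Pool.Agent.R628.eq_top_of_transvections (by simpa using hn)
  intro i j hij a
  obtain ⟨z, rfl⟩ := ZMod.intCast_surjective a
  refine ⟨tv hij z, ?_⟩
  apply Subtype.ext
  ext k l
  change ((Matrix.transvection i j z k l : ℤ) : ZMod p) = _
  rw [Matrix.SpecialLinearGroup.transvection_coe]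
  unfold Matrix.transvection
  rw [Matrix.add_apply, Matrix.add_apply, Matrix.one_apply, Matrix.one_apply,
    Matrix.single_apply, Matrix.single_apply]
  split_ifs <;> simp

/-- Nontrivial images of `Γ` in `GL (n, K)` in characteristic `p` are isomorphic to
`SL (n, 𝔽_p)`. -/
theorem image_iso (hn : 5 ≤ n) (hfg : Group.FG Γ)
    (hq : ∀ (Q : Type) [Group Q] [Finite Q], (∃ f : Γ →* Q, Function.Surjective f) →
      ∃ f : SpecialLinearGroup (Fin n) ℤ →* Q, Function.Surjective f)
    {K : Type*} [Field K] (p : ℕ) (hp : p.Prime) [CharP K p] (φ : Γ →* GL (Fin n) K)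
    (hφ : φ ≠ 1) : Nonempty (φ.range ≃* SpecialLinearGroup (Fin n) (ZMod p)) := by
  have hpf : Fact p.Prime := ⟨hp⟩
  have hfin := finite_image hn hfg hq p hp φ
  let G : Subgroup (GL (Fin n) K) := φ.range
  let e : Shrink.{0} G ≃* G := Shrink.mulEquiv
  have hfS : Finite (Shrink.{0} G) := Finite.of_equiv G e.symm.toEquiv
  obtain ⟨g0, hg0⟩ := hq (Shrink.{0} G) ⟨e.symm.toMonoidHom.comp φ.rangeRestrict,
    e.symm.surjective.comp φ.rangeRestrict_surjective⟩
  let g : SpecialLinearGroup (Fin n) ℤ →* G := e.toMonoidHom.comp g0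
  have hg : Function.Surjective g := e.surjective.comp hg0
  let ρ : SpecialLinearGroup (Fin n) ℤ →* Matrix (Fin n) (Fin n) K :=
    (Units.coeHom _).comp (G.subtype.comp g)
  have hρg : ∀ A, ρ A = 1 ↔ g A = 1 := by
    intro A
    constructor
    · intro h
      exact Subtype.ext (Units.ext h)
    · intro h
      change ((g A : GL (Fin n) K) : Matrix (Fin n) (Fin n) K) = 1
      rw [h]; rfl
  have hρ : ρ ≠ 1 := by
    intro h
    apply hφ
    ext γ : 1
    obtain ⟨A, hA⟩ := hg (φ.rangeRestrict γ)
    have h1 : ρ A = 1 := by rw [h]; rfl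
    have h2 := (hρg A).mp h1
    rw [hA] at h2
    exact congrArg Subtype.val h2
  let m := SpecialLinearGroup.map (n := Fin n) (Int.castRingHom (ZMod p))
  have hm : Function.Surjective m := map_surj (by omega) p
  have hker : g.ker = m.ker := by
    ext A
    rw [MonoidHom.mem_ker, MonoidHom.mem_ker, ← hρg, kernel_matrix_iff hn (p := p) ρ hρ A]
    constructor
    · intro h; exact Subtype.ext h
    · intro h; exact congrArg Subtype.val h
  exact ⟨(QuotientGroup.quotientKerEquivOfSurjective g hg).symm.trans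
    ((QuotientGroup.quotientMulEquivOfEq hker).trans
      (QuotientGroup.quotientKerEquivOfSurjective m hm))⟩

end Pool.Agent.R646.SLn
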