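import Mathlib
import Pool.Agent.R646.SLn.CharP
import Pool.Agent.R646.SLn.Act

/-!
# Homomorphisms to `SL (n, ℤ)` are surjective modulo primes
-/

set_option autoImplicit false

namespace Pool.Agent.R646.SLn

open Module Matrix

variable {n : ℕ} {Γ : Type*} [Group Γ]

theorem trivial_of_mod (hn : 3 ≤ n) (hfg : Group.FG Γ)
    (hq : ∀ (Q : Type) [Group Q] [Finite Q], (∃ f : Γ →* Q, Function.Surjective f) →
      ∃ f : SpecialLinearGroup (Fin n) ℤ →* Q, Function.Surjective f)
    (p : ℕ) (hp : p.Prime) (φ : Γ →* SpecialLinearGroup (Fin n) ℤ)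
    (h0 : ∀ γ i j, (p : ℤ) ∣ ((φ γ).1 - 1) i j) : φ = 1 := by
  have hpf : Fact p.Prime := ⟨hp⟩
  have hp0 : (p : ℤ) ≠ 0 := by exact_mod_cast hp.ne_zero
  have key : ∀ k : ℕ, ∀ γ i j, (p : ℤ) ^ (k + 1) ∣ ((φ γ).1 - 1) i j := by
    intro k
    induction k with
    | zero => intro γ i j; rw [zero_add, pow_one]; exact h0 γ i j
    | succ k ih =>
      have hD : ∀ γ, ∃ D : Matrix (Fin n) (Fin n) ℤ, (φ γ).1 - 1 = (p : ℤ) ^ (k + 1) • D := by
        intro γ
        choose D hD using ih γ
        refine ⟨Matrix.of D, ?_⟩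
        ext i j
        rw [hD i j, Matrix.smul_apply, smul_eq_mul]
        rfl
      choose D hD using hD
      have hpk : (p : ℤ) ^ (k + 1) ≠ 0 := pow_ne_zero _ hp0
      have hadd : ∀ γ δ, D (γ * δ) = D γ + D δ + (p : ℤ) ^ (k + 1) • (D γ * D δ) := by
        intro γ δ
        have h1 : (φ (γ * δ)).1 = (φ γ).1 * (φ δ).1 := by rw [map_mul]; rfl
        have h2 : (φ (γ * δ)).1 - 1 = ((φ γ).1 - 1) + ((φ δ).1 - 1) +
            ((φ γ).1 - 1) * ((φ δ).1 - 1) := by
          rw [h1]; noncomm_ring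
        rw [hD, hD γ, hD δ] at h2
        ext i j
        have h3 := congrFun (congrFun h2 i) j
        simp only [Matrix.smul_apply, Matrix.add_apply, smul_eq_mul, Matrix.smul_mul,
          Matrix.mul_smul] at h3 ⊢
        apply mul_left_cancel₀ hpk
        rw [h3]
        ring
      intro γ i j
      have hc : ((D γ i j : ℤ) : ZMod p) = 0 := by
        refine add_trivial hn hfg hq (K := ZMod p) (fun γ => ((D γ i j : ℤ) : ZMod p)) ?_ γ
        intro γ δ
        rw [hadd, Matrix.add_apply, Matrix.add_apply, Matrix.smul_apply, smul_eq_mul]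
        push_cast
        rw [ZMod.natCast_self, zero_pow (Nat.succ_ne_zero k), zero_mul, add_zero]
      have h4 := (ZMod.intCast_zmod_eq_zero_iff_dvd _ _).mp hc
      rw [hD γ, Matrix.smul_apply, smul_eq_mul, pow_succ (p : ℤ) (k + 1)]
      exact mul_dvd_mul_left _ h4
  ext γ i j
  have h5 : ((φ γ).1 - 1) i j = 0 := by
    set x := ((φ γ).1 - 1) i j with hx
    have h6 := key x.natAbs γ i j
    rw [← hx] at h6
    apply Int.eq_zero_of_dvd_of_natAbs_lt_natAbs h6
    rw [Int.natAbs_pow, Int.natAbs_natCast]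
    calc x.natAbs < p ^ x.natAbs := Nat.lt_pow_self hp.one_lt
      _ ≤ p ^ (x.natAbs + 1) := Nat.pow_le_pow_right hp.pos (Nat.le_succ _)
  rw [Matrix.sub_apply, sub_eq_zero] at h5
  exact h5

/-- A nontrivial homomorphism to `SL (n, ℤ)` is surjective modulo every prime. -/
theorem surj_mod (hn : 5 ≤ n) (hfg : Group.FG Γ)
    (hq : ∀ (Q : Type) [Group Q] [Finite Q], (∃ f : Γ →* Q, Function.Surjective f) →
      ∃ f : SpecialLinearGroup (Fin n) ℤ →* Q, Function.Surjective f)
    (p : ℕ) (hp : p.Prime) (φ : Γ →* SpecialLinearGroup (Fin n) ℤ) (hφ : φ ≠ 1) :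
    Function.Surjective ((SpecialLinearGroup.map (Int.castRingHom (ZMod p))).comp φ) := by
  have hpf : Fact p.Prime := ⟨hp⟩
  let ψ : Γ →* SpecialLinearGroup (Fin n) (ZMod p) :=
    (SpecialLinearGroup.map (Int.castRingHom (ZMod p))).comp φ
  have hψ : ψ ≠ 1 := by
    intro h
    apply hφ
    refine trivial_of_mod (by omega) hfg hq p hp φ (fun γ i j => ?_)
    have h1 : ((φ γ).1 i j : ZMod p) = (1 : Matrix (Fin n) (Fin n) (ZMod p)) i j :=
      congrFun (congrFun (congrArg Subtype.val (DFunLike.congr_fun h γ)) i) j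
    rw [← ZMod.intCast_zmod_eq_zero_iff_dvd, Matrix.sub_apply]
    push_cast
    rw [h1, Matrix.one_apply, Matrix.one_apply]
    split_ifs <;> simp
  have hinj : Function.Injective (SpecialLinearGroup.toGL (n := Fin n) (R := ZMod p)) := by
    intro A B hAB
    apply Subtype.ext
    exact congrArg Units.val hAB
  have hne : SpecialLinearGroup.toGL.comp ψ ≠ 1 := by
    intro h
    apply hψ
    ext γ : 1
    apply hinj
    rw [MonoidHom.one_apply, map_one]
    exact DFunLike.congr_fun h γ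
  obtain ⟨e⟩ := image_iso hn hfg hq (K := ZMod p) p hp (SpecialLinearGroup.toGL.comp ψ) hne
  rw [← MonoidHom.range_eq_top]
  change ψ.range = ⊤
  have hfinM : Finite (Matrix (Fin n) (Fin n) (ZMod p)) :=
    inferInstanceAs (Finite (Fin n → Fin n → ZMod p))
  have hfin : Finite (SpecialLinearGroup (Fin n) (ZMod p)) :=
    Finite.of_injective (fun A => A.1) Subtype.val_injective
  apply Subgroup.eq_top_of_card_eq
  have h1 : Nat.card ψ.range = Nat.card (ψ.range.map (SpecialLinearGroup.toGL)) :=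
    Nat.card_congr (Subgroup.equivMapOfInjective ψ.range _ hinj).toEquiv
  rw [h1, MonoidHom.map_range]
  exact Nat.card_congr e.toEquiv

end Pool.Agent.R646.SLn
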