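import Mathlib
import Pool.Agent.H476RA.TaskA

/-!
# Free groups are residually (finite of prime power order)
-/

set_option autoImplicit false

namespace Pool.Agent.R646.SLn.Fr

open Pool.Agent.H476RA

theorem id1 {R : Type*} [Ring R] (a b : R) : a * b - 1 = (a - 1) * b + (b - 1) := by noncomm_ring

theorem id2 {R : Type*} [Ring R] (x : R) : (1 + x) * (1 - x) = 1 - x * x := by noncomm_ring

theorem id3 {R : Type*} [Ring R] (x : R) : (1 - x) * (1 + x) = 1 - x * x := by noncomm_ring

theorem id4 {R : Type*} [Ring R] (x : R) (n : ℤ) :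
    (1 + (-n) • x) * (1 - x) = 1 + (-n - 1) • x + n • (x * x) := by
  simp only [sub_smul, one_smul, add_mul, mul_sub, one_mul, mul_one, smul_mul_assoc, neg_smul,
    neg_mul]
  abel

theorem id5 {R : Type*} [Ring R] (x : R) (n : ℤ) :
    (1 + n • x) * (1 + x) = 1 + (n + 1) • x + n • (x * x) := by
  simp only [add_smul, one_smul, add_mul, mul_add, one_mul, mul_one, smul_mul_assoc]
  abel

variable {A : Type} [CommRing A]

/-- the ring of operators -/
abbrev E (A : Type) [CommRing A] : Type := Module.End A (ℕ → A)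

/-- operators which raise the degree by at least `j` -/
def J (A : Type) [CommRing A] (j : ℕ) : Set (E A) :=
  {T | ∀ (r : ℕ → A) (p : ℕ), (∀ q, q + j ≤ p → r q = 0) → T r p = 0}

theorem J_mul {i j : ℕ} {S T : E A} (hS : S ∈ J A i) (hT : T ∈ J A j) : S * T ∈ J A (i + j) := by
  intro r p h
  refine hS (T r) p fun q hq => hT r q fun q' hq' => h q' (by omega)

theorem J_add {j : ℕ} {S T : E A} (hS : S ∈ J A j) (hT : T ∈ J A j) : S + T ∈ J A j := by
  intro r p h
  show S r p + T r p = 0
  rw [hS r p h, hT r p h, add_zero]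

theorem J_sub {j : ℕ} {S T : E A} (hS : S ∈ J A j) (hT : T ∈ J A j) : S - T ∈ J A j := by
  intro r p h
  show S r p - T r p = 0
  rw [hS r p h, hT r p h, sub_zero]

theorem J_zero (j : ℕ) : (0 : E A) ∈ J A j := fun _ _ _ => rfl

theorem J_one : (1 : E A) ∈ J A 0 := fun _ p h => h p (by omega)

theorem J_mono {i j : ℕ} (hij : i ≤ j) {T : E A} (hT : T ∈ J A j) : T ∈ J A i := by
  intro r p h
  exact hT r p fun q hq => h q (by omega)

theorem J_pow {T : E A} (hT : T ∈ J A 1) (k : ℕ) : T ^ k ∈ J A k := by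
  induction k with
  | zero => rw [pow_zero]; exact J_one
  | succ k ih => rw [pow_succ]; exact J_mul ih hT

/-- congruence subgroups -/
def K (A : Type) [CommRing A] (j : ℕ) : Subgroup (E A)ˣ where
  carrier := {u | (u : E A) - 1 ∈ J A j ∧ ((u⁻¹ : (E A)ˣ) : E A) - 1 ∈ J A j}
  one_mem' := by
    constructor
    · rw [Units.val_one, sub_self]; exact J_zero j
    · rw [inv_one, Units.val_one, sub_self]; exact J_zero j
  mul_mem' := by
    rintro u v ⟨h1, h2⟩ ⟨h3, h4⟩
    have key : ∀ a b : E A, a - 1 ∈ J A j → b - 1 ∈ J A j → a * b - 1 ∈ J A j := by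
      intro a b ha hb
      have hb0 : b ∈ J A 0 := by
        have : b = (b - 1) + 1 := by noncomm_ring
        rw [this]
        exact J_add (J_mono (Nat.zero_le j) hb) J_one
      have h5 : a * b - 1 = (a - 1) * b + (b - 1) := id1 a b
      rw [h5]
      exact J_add (J_mul (i := j) (j := 0) ha hb0) hb
    constructor
    · rw [Units.val_mul]; exact key _ _ h1 h3
    · rw [mul_inv_rev, Units.val_mul]; exact key _ _ h4 h2
  inv_mem' := by
    rintro u ⟨h1, h2⟩
    exact ⟨h2, by rw [inv_inv]; exact h1⟩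

variable {Y : Type}

open Classical in
/-- the shift along the edges with label `y` -/
noncomputable def N (A : Type) [CommRing A] (f : ℕ → Option Y) (y : Y) : E A where
  toFun r p := if 0 < p ∧ f p = some y then r (p - 1) else 0
  map_add' r s := by
    funext p
    by_cases h : 0 < p ∧ f p = some y
    · simp [h]
    · simp only [if_neg h, Pi.add_apply, add_zero]
  map_smul' c r := by
    funext p
    by_cases h : 0 < p ∧ f p = some y
    · simp [h]
    · simp only [if_neg h, Pi.smul_apply, smul_zero]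

theorem N_pos {f : ℕ → Option Y} {y : Y} {p : ℕ} (hp : 0 < p) (h : f p = some y) (r : ℕ → A) :
    N A f y r p = r (p - 1) := if_pos ⟨hp, h⟩

theorem N_neg {f : ℕ → Option Y} {y : Y} {p : ℕ} (h : ¬ (0 < p ∧ f p = some y)) (r : ℕ → A) :
    N A f y r p = 0 := if_neg h

theorem N_mem (f : ℕ → Option Y) (y : Y) : N A f y ∈ J A 1 := by
  intro r p h
  by_cases h1 : 0 < p ∧ f p = some y
  · rw [N_pos h1.1 h1.2]
    exact h _ (by omega)
  · exact N_neg h1 r

theorem N_sq {f : ℕ → Option Y} (hf : FR.Sep f) (y : Y) : N A f y * N A f y = 0 := by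
  ext1 r
  funext p
  show N A f y (N A f y r) p = 0
  by_cases h1 : 0 < p ∧ f p = some y
  · rw [N_pos h1.1 h1.2]
    apply N_neg
    rintro ⟨h2, h3⟩
    apply hf y (p - 1) h3
    rw [Nat.sub_add_cancel h1.1]
    exact h1.2
  · exact N_neg h1 _

/-- the unipotent operator of a generator -/
noncomputable def U (A : Type) [CommRing A] {f : ℕ → Option Y} (hf : FR.Sep f) (y : Y) : (E A)ˣ where
  val := 1 + N A f y
  inv := 1 - N A f y
  val_inv := by
    have : (1 + N A f y) * (1 - N A f y) = 1 - N A f y * N A f y := id2 _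
    rw [this, N_sq hf, sub_zero]
  inv_val := by
    have : (1 - N A f y) * (1 + N A f y) = 1 - N A f y * N A f y := id3 _
    rw [this, N_sq hf, sub_zero]

theorem U_mem {f : ℕ → Option Y} (hf : FR.Sep f) (y : Y) : U A hf y ∈ K A 1 := by
  constructor
  · show 1 + N A f y - 1 ∈ J A 1
    have : 1 + N A f y - 1 = N A f y := by noncomm_ring
    rw [this]; exact N_mem f y
  · show 1 - N A f y - 1 ∈ J A 1
    have : 1 - N A f y - 1 = 0 - N A f y := by noncomm_ring
    rw [this]; exact J_sub (J_zero 1) (N_mem f y)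

theorem U_zpow {f : ℕ → Option Y} (hf : FR.Sep f) (y : Y) (e : ℤ) :
    (((U A hf y) ^ e : (E A)ˣ) : E A) = 1 + e • N A f y := by
  have hsq := N_sq (A := A) hf y
  induction e using Int.induction_on with
  | zero => simp
  | succ n ih =>
    rw [zpow_add_one, Units.val_mul, ih]
    show (1 + (n : ℤ) • N A f y) * (1 + N A f y) = _
    have : (1 + (n : ℤ) • N A f y) * (1 + N A f y) =
        1 + ((n : ℤ) + 1) • N A f y + (n : ℤ) • (N A f y * N A f y) := id5 _ _
    rw [this, hsq, smul_zero, add_zero]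
  | pred n ih =>
    rw [zpow_sub_one, Units.val_mul, ih]
    show (1 + (-(n : ℤ)) • N A f y) * (1 - N A f y) = _
    have : (1 + (-(n : ℤ)) • N A f y) * (1 - N A f y) =
        1 + (-(n : ℤ) - 1) • N A f y + (n : ℤ) • (N A f y * N A f y) := id4 _ _
    rw [this, hsq, smul_zero, add_zero]

/-- the representation -/
noncomputable def rep (A : Type) [CommRing A] {f : ℕ → Option Y} (hf : FR.Sep f) :
    FreeGroup Y →* (E A)ˣ :=
  FreeGroup.lift (U A hf)

theorem rep_mem {f : ℕ → Option Y} (hf : FR.Sep f) (g : FreeGroup Y) : rep A hf g ∈ K A 1 := by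
  have h : (FreeGroup.lift (U A hf)).range ≤ K A 1 := FreeGroup.range_lift_le (by
    rintro _ ⟨y, rfl⟩
    exact U_mem hf y)
  exact h ⟨g, rfl⟩

theorem rep_eval (L : List (Y × ℤ)) : ∀ (f : ℕ → Option Y) (hf : FR.Sep f),
    (∀ p, p ≤ L.length → 1 ≤ p → f p = FR.lab L p) →
    (∀ p, L.length < p → ((rep A hf (FR.pr L) : (E A)ˣ) : E A) (Pi.single 0 1) p = 0) ∧
      ((rep A hf (FR.pr L) : (E A)ˣ) : E A) (Pi.single 0 1) L.length =
        (((L.map Prod.snd).prod : ℤ) : A) := by
  induction L with
  | nil =>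
    intro f hf _
    have h0 : rep A hf (FR.pr []) = 1 := by simp [FR.pr]
    rw [h0]
    constructor
    · intro p hp
      show (Pi.single 0 1 : ℕ → A) p = 0
      exact Pi.single_eq_of_ne (by simpa using (Nat.pos_iff_ne_zero.mp hp)) _
    · show (Pi.single 0 1 : ℕ → A) 0 = _
      rw [Pi.single_eq_same]
      simp
  | cons s L ih =>
    intro f hf hlab
    have e : ∀ q, FR.lab (s :: L) q = if q = L.length + 1 then some s.1 else FR.lab L q :=
      fun _ => rfl
    obtain ⟨h1, h2⟩ := ih f hf (by
      intro p hp hp1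
      rw [hlab p (by rw [List.length_cons]; omega) hp1, e, if_neg (by omega)])
    have h3 : ((rep A hf (FR.pr (s :: L)) : (E A)ˣ) : E A) =
        (1 + s.2 • N A f s.1) * ((rep A hf (FR.pr L) : (E A)ˣ) : E A) := by
      have h4 : FR.pr (s :: L) = FreeGroup.of s.1 ^ s.2 * FR.pr L := by simp [FR.pr]
      rw [h4, map_mul, map_zpow, Units.val_mul]
      congr 1
      have h5 : rep A hf (FreeGroup.of s.1) = U A hf s.1 := FreeGroup.lift_apply_of
      rw [h5, U_zpow]
    have h6 : ∀ p, ((rep A hf (FR.pr (s :: L)) : (E A)ˣ) : E A) (Pi.single 0 1) p =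
        ((rep A hf (FR.pr L) : (E A)ˣ) : E A) (Pi.single 0 1) p +
          s.2 • N A f s.1 (((rep A hf (FR.pr L) : (E A)ˣ) : E A) (Pi.single 0 1)) p := by
      intro p
      rw [h3]
      rfl
    constructor
    · intro p hp
      rw [List.length_cons] at hp
      rw [h6, h1 p (by omega)]
      by_cases h7 : 0 < p ∧ f p = some s.1
      · rw [N_pos h7.1 h7.2, h1 (p - 1) (by omega)]; simp
      · rw [N_neg h7]; simp
    · rw [List.length_cons, h6, h1 _ (by omega), N_pos (by omega) (by
        rw [hlab _ (by rw [List.length_cons]) (by omega), e, if_pos rfl])]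
      rw [Nat.add_sub_cancel, h2, List.map_cons, List.prod_cons, zsmul_eq_mul]
      push_cast
      ring

/-- zero extension -/
def ext0 {n : ℕ} (r : Fin n → A) : ℕ → A := fun q => if h : q < n then r ⟨q, h⟩ else 0

theorem agree {n : ℕ} {T : E A} (hT : T ∈ J A 0) {r s : ℕ → A} (h : ∀ q < n, r q = s q) :
    ∀ q < n, T r q = T s q := by
  intro q hq
  have h1 := hT (r - s) q (fun q' hq' => by
    rw [Pi.sub_apply, h q' (by omega), sub_self])
  rw [map_sub, Pi.sub_apply, sub_eq_zero] at h1
  exact h1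

/-- truncation of an operator -/
noncomputable def trunc (n : ℕ) (T : E A) : Module.End A (Fin n → A) where
  toFun r i := T (ext0 r) i
  map_add' r s := by
    have : ext0 (r + s) = ext0 r + ext0 s := by
      funext q
      simp only [ext0, Pi.add_apply]
      split_ifs <;> simp
    funext i
    rw [this, map_add]; rfl
  map_smul' c r := by
    have : ext0 (c • r) = c • ext0 r := by
      funext q
      simp only [ext0, Pi.smul_apply]
      split_ifs <;> simp
    funext i
    rw [this, map_smul]; rfl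

theorem trunc_one (n : ℕ) : trunc n (1 : E A) = 1 := by
  refine LinearMap.ext fun r => funext fun i => ?_
  show ext0 r i = r i
  simp [ext0]

theorem trunc_mul (n : ℕ) {S T : E A} (hS : S ∈ J A 0) :
    trunc n (S * T) = trunc n S * trunc n T := by
  refine LinearMap.ext fun r => funext fun i => ?_
  show S (T (ext0 r)) i = S (ext0 (fun j : Fin n => T (ext0 r) j)) i
  refine agree hS (n := n) (fun q hq => ?_) i i.2
  simp [ext0, hq]

theorem trunc_of_mem (n : ℕ) {T : E A} (hT : T - 1 ∈ J A n) : trunc n T = 1 := by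
  refine LinearMap.ext fun r => funext fun i => ?_
  show T (ext0 r) i = r i
  have h1 := hT (ext0 r) i (fun q hq => absurd i.2 (by omega))
  have h2 : (T - 1) (ext0 r) i = T (ext0 r) i - ext0 r i := rfl
  rw [h2, sub_eq_zero] at h1
  rw [h1]
  simp [ext0]

theorem mem_J0 {u : (E A)ˣ} (hu : u ∈ K A 1) : (u : E A) ∈ J A 0 := by
  have : (u : E A) = ((u : E A) - 1) + 1 := by noncomm_ring
  rw [this]
  exact J_add (J_mono (Nat.zero_le 1) hu.1) J_one

/-- Free groups are residually (finite of prime power order). -/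
theorem free_res (w : FreeGroup Y) (hw : w ≠ 1) :
    ∃ (p : ℕ) (P : Type) (_ : Group P) (f : FreeGroup Y →* P),
      p.Prime ∧ Finite P ∧ IsPGroup p P ∧ f w ≠ 1 := by
  obtain ⟨L, hL, h0, hpr⟩ := FR.exists_syll w
  have hlen : 0 < L.length := by
    rcases Nat.eq_zero_or_pos L.length with h | h
    · exfalso
      apply hw
      rw [← hpr, List.length_eq_zero_iff.mp h]
      simp [FR.pr]
    · exact h
  set e : ℤ := (L.map Prod.snd).prod with he
  have he0 : e ≠ 0 := by
    rw [he]
    apply List.prod_ne_zero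
    intro h
    obtain ⟨s, hs, hs0⟩ := List.mem_map.mp h
    exact h0 s hs hs0
  obtain ⟨p, hp1, hp⟩ := Nat.exists_infinite_primes (e.natAbs + 1)
  have hpf : Fact p.Prime := ⟨hp⟩
  have hf := FR.lab_sep L hL
  let n := L.length + 1
  let θ : FreeGroup Y →* Module.End (ZMod p) (Fin n → ZMod p) :=
    { toFun := fun g => trunc n ((rep (ZMod p) hf g : (E (ZMod p))ˣ) : E (ZMod p))
      map_one' := by rw [map_one, Units.val_one, trunc_one]
      map_mul' := by
        intro g h
        rw [map_mul, Units.val_mul, trunc_mul n (mem_J0 (rep_mem hf g))] }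
  have hfinE : Finite (Module.End (ZMod p) (Fin n → ZMod p)) :=
    Finite.of_injective (fun (T : Module.End (ZMod p) (Fin n → ZMod p)) (r : Fin n → ZMod p) => T r)
      (fun a b h => LinearMap.ext (fun r => congrFun h r))
  have hfinU : Finite (Module.End (ZMod p) (Fin n → ZMod p))ˣ := inferInstance
  let Θ := θ.toHomUnits
  refine ⟨p, Θ.range, inferInstance, Θ.rangeRestrict, hp, inferInstance, ?_, ?_⟩
  · rintro ⟨_, g, rfl⟩
    have hchar : CharP (E (ZMod p)) p :=
      charP_of_injective_algebraMap (algebraMap (ZMod p) (E (ZMod p))).injective p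
    refine ⟨n, ?_⟩
    apply Subtype.ext
    apply Units.ext
    show ((Θ g) ^ p ^ n : (Module.End (ZMod p) (Fin n → ZMod p))ˣ).val = 1
    rw [← map_pow]
    show trunc n ((rep (ZMod p) hf (g ^ p ^ n) : (E (ZMod p))ˣ) : E (ZMod p)) = 1
    apply trunc_of_mem
    rw [map_pow, Units.val_pow_eq_pow_val]
    set u : E (ZMod p) := ((rep (ZMod p) hf g : (E (ZMod p))ˣ) : E (ZMod p)) with hu
    have hu1 : u - 1 ∈ J (ZMod p) 1 := (rep_mem hf g).1
    have h3 : u ^ p ^ n - 1 = (u - 1) ^ p ^ n := by
      have hc : Commute (u - 1) (1 : E (ZMod p)) := Commute.one_right _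
      have h4 := add_pow_char_pow_of_commute (p := p) n hc
      rw [one_pow] at h4
      rw [sub_add_cancel] at h4
      rw [h4, add_sub_cancel_right]
    rw [h3]
    exact J_mono (Nat.lt_pow_self hp.one_lt).le (J_pow hu1 _)
  · intro h
    have h1 : Θ w = 1 := congrArg Subtype.val h
    have h2 : θ w = 1 := congrArg Units.val h1
    have h3 := (rep_eval (A := ZMod p) L _ hf (fun _ _ _ => rfl)).2
    have h4 := congrFun (LinearMap.congr_fun h2 (Pi.single ⟨0, by omega⟩ 1)) ⟨L.length, by omega⟩
    have h5 : ext0 (Pi.single (⟨0, by omega⟩ : Fin n) (1 : ZMod p)) = Pi.single 0 1 := by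
      funext q
      by_cases hq : q = 0
      · subst hq
        simp [ext0, n]
      · rw [Pi.single_eq_of_ne hq]
        simp only [ext0]
        split_ifs with hqn
        · rw [Pi.single_eq_of_ne]
          intro hh
          exact hq (congrArg Fin.val hh)
        · rfl
    have h6 : θ w (Pi.single ⟨0, by omega⟩ 1) ⟨L.length, by omega⟩ =
        ((rep (ZMod p) hf w : (E (ZMod p))ˣ) : E (ZMod p))
          (ext0 (Pi.single (⟨0, by omega⟩ : Fin n) (1 : ZMod p))) L.length := rfl
    rw [h6, h5, ← hpr, h3, Module.End.one_apply, Pi.single_eq_of_ne (by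
      intro hh
      have hh2 : L.length = 0 := congrArg Fin.val hh
      omega)] at h4
    have h7 : (p : ℤ) ∣ e := (ZMod.intCast_zmod_eq_zero_iff_dvd _ _).mp h4
    have h8 := Int.natAbs_dvd_natAbs.mpr h7
    rw [Int.natAbs_natCast] at h8
    have h9 := Nat.le_of_dvd (Int.natAbs_pos.mpr he0) h8
    omega

end Pool.Agent.R646.SLn.Fr
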