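import Mathlib
import Pool.Agent.R646.SLn.Act

/-!
# Representations over arbitrary commutative rings
-/

set_option autoImplicit false

namespace Pool.Agent.R646.SLn

open Matrix Module

/-- Over a commutative ring with a nilpotent maximal ideal, homomorphisms from `SL (n, ℤ)` to small
matrices are trivial. -/
theorem nil_trivial {ι : Type*} [Fintype ι] [DecidableEq ι] (hn : 3 ≤ Fintype.card ι) {A : Type*}
    [CommRing A] (I : Ideal A) [hI : I.IsMaximal] (k : ℕ) (hk : I ^ k = ⊥) {m : ℕ}
    (hm : m < Fintype.card ι) (ρ : SpecialLinearGroup ι ℤ →* Matrix (Fin m) (Fin m) A) :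
    ρ = 1 := by
  have key : ∀ j : ℕ, ∀ s, ∀ a b, (ρ s - 1) a b ∈ I ^ (j + 1) := by
    intro j
    induction j with
    | zero =>
      intro s a b
      let _ : Field (A ⧸ I) := Ideal.Quotient.field I
      have h1 := matrix_trivial (ι := ι) (K := A ⧸ I) hn hm
        ((RingHom.toMonoidHom ((Ideal.Quotient.mk I).mapMatrix)).comp ρ)
      have h2 := congrFun (congrFun (DFunLike.congr_fun h1 s) a) b
      have h3 : Ideal.Quotient.mk I (ρ s a b) = (1 : Matrix (Fin m) (Fin m) (A ⧸ I)) a b := h2
      rw [zero_add, pow_one, Matrix.sub_apply]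
      apply Ideal.Quotient.eq.1
      rw [h3, Matrix.one_apply, Matrix.one_apply]
      split_ifs
      · exact (map_one _).symm
      · exact (map_zero _).symm
    | succ j ih =>
      intro s a b
      let q := Ideal.Quotient.mk (I ^ (j + 1 + 1))
      let c : SpecialLinearGroup ι ℤ →* Multiplicative (Matrix (Fin m) (Fin m) (A ⧸ I ^ (j + 1 + 1))) :=
        { toFun := fun s => Multiplicative.ofAdd ((ρ s - 1).map q)
          map_one' := by
            rw [map_one, sub_self]
            apply Multiplicative.toAdd.injective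
            ext a b
            simp
          map_mul' := by
            intro s t
            apply Multiplicative.toAdd.injective
            rw [toAdd_mul, toAdd_ofAdd, toAdd_ofAdd, toAdd_ofAdd]
            have e : ρ (s * t) - 1 = (ρ s - 1) + (ρ t - 1) + (ρ s - 1) * (ρ t - 1) := by
              rw [map_mul]; noncomm_ring
            rw [e]
            ext a b
            rw [Matrix.map_apply, Matrix.add_apply, Matrix.add_apply, Matrix.add_apply,
              Matrix.map_apply, Matrix.map_apply, map_add, map_add]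
            have h0 : q (((ρ s - 1) * (ρ t - 1)) a b) = 0 := by
              rw [Ideal.Quotient.eq_zero_iff_mem, Matrix.mul_apply]
              apply Ideal.sum_mem
              intro d _
              have h1 := Ideal.mul_mem_mul (ih s a d) (ih t d b)
              rw [← pow_add] at h1
              exact Ideal.pow_le_pow_right (by omega) h1
            rw [h0, add_zero] }
      have h1 := comm_trivial hn c
      have h2 : (ρ s - 1).map q = 0 := Multiplicative.ofAdd.injective (DFunLike.congr_fun h1 s)
      have h3 := congrFun (congrFun h2 a) b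
      exact Ideal.Quotient.eq_zero_iff_mem.mp h3
  ext s a b
  rcases Nat.eq_zero_or_pos k with h0 | h0
  · exfalso
    rw [h0, pow_zero, Ideal.one_eq_top] at hk
    apply hI.ne_top
    rw [eq_top_iff, hk]
    exact bot_le
  · have h1 := key (k - 1) s a b
    rw [Nat.sub_add_cancel h0, hk, Ideal.mem_bot, Matrix.sub_apply, sub_eq_zero] at h1
    exact h1

variable {n : ℕ} {Γ : Type*} [Group Γ]

theorem entries_mem_ring {H K : Type*} [Group H] [CommRing K] {N : ℕ} (φ : H →* GL (Fin N) K)
    (T : Set H) (hT : Subgroup.closure T = ⊤) (R : Subalgebra ℤ K)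
    (h1 : ∀ t ∈ T, ∀ i j, (φ t).val i j ∈ R) (h2 : ∀ t ∈ T, ∀ i j, (φ t⁻¹).val i j ∈ R)
    (h : H) : ∀ i j, (φ h).val i j ∈ R := by
  have hmem : h ∈ Subgroup.closure T := by rw [hT]; trivial
  have hmul : ∀ x y : H, (∀ i j, (φ x).val i j ∈ R) → (∀ i j, (φ y).val i j ∈ R) →
      ∀ i j, (φ (x * y)).val i j ∈ R := by
    intro x y hx hy i j
    rw [map_mul, Units.val_mul, Matrix.mul_apply]
    exact R.sum_mem (fun k _ => R.mul_mem (hx i k) (hy k j))
  induction hmem using Subgroup.closure_induction_left with
  | one =>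
    intro i j
    rw [map_one, Units.val_one, Matrix.one_apply]
    split_ifs
    · exact R.one_mem
    · exact R.zero_mem
  | mul_left x hx y _ ih => exact hmul x y (h1 x hx) ih
  | inv_mul_cancel x hx y _ ih => exact hmul x⁻¹ y (h2 x hx) ih

/-- A nontrivial element of a finitely generated group of matrices over a commutative ring survives
over a finite ring with a nilpotent maximal ideal. -/
theorem malcev_ring {H K : Type*} [Group H] [Group.FG H] [CommRing K] {N : ℕ}
    (φ : H →* GL (Fin N) K) (g : H) (hg : φ g ≠ 1) :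
    ∃ (R : Subalgebra ℤ K) (m : Ideal R) (k : ℕ) (_ : m.IsMaximal) (_ : Finite (R ⧸ m ^ k))
      (θ : H →* Matrix (Fin N) (Fin N) (R ⧸ m ^ k)), θ g ≠ 1 := by
  classical
  obtain ⟨T, hT⟩ := Group.fg_def.1 (inferInstance : Group.FG H)
  let s : Finset K := T.biUnion fun t => Finset.univ.biUnion fun i : Fin N =>
    Finset.univ.biUnion fun j : Fin N => {(φ t).val i j, (φ t⁻¹).val i j}
  let R : Subalgebra ℤ K := Algebra.adjoin ℤ (s : Set K)
  have hR : Algebra.FiniteType ℤ R := by
    rw [← Subalgebra.fg_iff_finiteType]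
    exact ⟨s, rfl⟩
  have hNoeth : IsNoetherianRing R := Algebra.FiniteType.isNoetherianRing ℤ R
  have hent : ∀ h : H, ∀ i j, (φ h).val i j ∈ R := by
    apply entries_mem_ring φ (T : Set H) hT R
    · intro t ht i j
      apply Algebra.subset_adjoin
      simp only [s, Finset.coe_biUnion, Set.mem_iUnion]
      exact ⟨t, ht, i, by simp, j, by simp, by simp⟩
    · intro t ht i j
      apply Algebra.subset_adjoin
      simp only [s, Finset.coe_biUnion, Set.mem_iUnion]
      exact ⟨t, ht, i, by simp, j, by simp, by simp⟩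
  let ψ0 : H →* Matrix (Fin N) (Fin N) R :=
    { toFun := fun h => Matrix.of fun i j => ⟨(φ h).val i j, hent h i j⟩
      map_one' := by
        ext i j
        simp only [Matrix.of_apply, map_one, Units.val_one, Matrix.one_apply]
        split_ifs <;> rfl
      map_mul' := by
        intro x y
        ext i j
        simp only [Matrix.of_apply, map_mul, Units.val_mul, Matrix.mul_apply]
        rw [AddSubmonoidClass.coe_finsetSum]
        rfl }
  have hne : ∃ i j, (ψ0 g) i j - (1 : Matrix (Fin N) (Fin N) R) i j ≠ 0 := by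
    by_contra hcon
    push Not at hcon
    apply hg
    apply Units.ext
    ext i j
    have h1 := hcon i j
    have h2 := congrArg Subtype.val (sub_eq_zero.1 h1)
    have h3 : ((ψ0 g) i j : K) = (φ g).val i j := rfl
    rw [← h3, h2, Units.val_one, Matrix.one_apply, Matrix.one_apply]
    split_ifs <;> rfl
  obtain ⟨i, j, hij⟩ := hne
  set a : R := (ψ0 g) i j - (1 : Matrix (Fin N) (Fin N) R) i j with ha
  -- a maximal ideal containing the annihilator of `a`
  have hann : (Ideal.span {a}).annihilator ≠ ⊤ := by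
    intro h
    have h1 : (1 : R) ∈ (Ideal.span {a}).annihilator := by rw [h]; trivial
    rw [Submodule.mem_annihilator] at h1
    have h2 := h1 a (Ideal.mem_span_singleton_self a)
    rw [one_smul] at h2
    exact hij h2
  obtain ⟨m, hm, hle⟩ := Ideal.exists_le_maximal _ hann
  have hk : ∃ k : ℕ, a ∉ m ^ k := by
    by_contra hcon
    push Not at hcon
    have h1 : a ∈ (⨅ i : ℕ, m ^ i • ⊤ : Submodule R R) := by
      rw [Submodule.mem_iInf]
      intro i
      rw [smul_eq_mul, Ideal.mul_top]
      exact hcon i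
    rw [Ideal.mem_iInf_smul_pow_eq_bot_iff] at h1
    obtain ⟨r, hr⟩ := h1
    have h2 : (1 - (r : R)) ∈ (Ideal.span {a}).annihilator := by
      rw [Submodule.mem_annihilator]
      intro b hb
      obtain ⟨c, rfl⟩ := Ideal.mem_span_singleton'.mp hb
      rw [smul_eq_mul] at hr ⊢
      have : (1 - (r : R)) * (c * a) = c * (a - r * a) := by ring
      rw [this, hr, sub_self, mul_zero]
    have h3 := m.add_mem (hle h2) r.2
    rw [sub_add_cancel] at h3
    exact hm.ne_top ((Ideal.eq_top_iff_one m).mpr h3)
  obtain ⟨k, hk⟩ := hk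
  have hfin0 : Finite (R ⧸ m) := finite_residue R m
  have hfin : Finite (R ⧸ m ^ k) := Ideal.finite_quotient_pow (IsNoetherian.noetherian m) k
  let θ : H →* Matrix (Fin N) (Fin N) (R ⧸ m ^ k) :=
    (RingHom.toMonoidHom ((Ideal.Quotient.mk (m ^ k)).mapMatrix)).comp ψ0
  refine ⟨R, m, k, hm, hfin, θ, fun h2 => hk ?_⟩
  have h3 := congrFun (congrFun h2 i) j
  have h4 : Ideal.Quotient.mk (m ^ k) ((ψ0 g) i j) =
      Ideal.Quotient.mk (m ^ k) ((1 : Matrix (Fin N) (Fin N) R) i j) := by
    have h5 : Ideal.Quotient.mk (m ^ k) ((ψ0 g) i j) =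
      (1 : Matrix (Fin N) (Fin N) (R ⧸ m ^ k)) i j := h3
    rw [h5, Matrix.one_apply, Matrix.one_apply]
    split_ifs
    · exact (map_one _).symm
    · exact (map_zero _).symm
  rw [ha]
  exact Ideal.Quotient.eq.1 h4

/-- Homomorphisms to `GL (m, A)`, `m < n`, are trivial for every commutative ring `A`. -/
theorem ring_trivial (hn : 3 ≤ n) (hfg : Group.FG Γ)
    (hq : ∀ (Q : Type) [Group Q] [Finite Q], (∃ f : Γ →* Q, Function.Surjective f) →
      ∃ f : SpecialLinearGroup (Fin n) ℤ →* Q, Function.Surjective f)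
    {A : Type*} [CommRing A] {m : ℕ} (hm : m < n) (φ : Γ →* GL (Fin m) A) : φ = 1 := by
  by_contra hne
  have : ∃ g, φ g ≠ 1 := by
    by_contra hcon
    push Not at hcon
    exact hne (MonoidHom.ext hcon)
  obtain ⟨g, hg⟩ := this
  obtain ⟨R, I, k, hI, hfin, θ, hθ⟩ := malcev_ring φ g hg
  rcases Nat.eq_zero_or_pos k with h0 | h0
  · apply hθ
    subst h0
    have : Subsingleton (R ⧸ I ^ 0) := by
      rw [pow_zero, Ideal.one_eq_top]
      exact Ideal.Quotient.subsingleton_iff.mpr rfl
    exact Subsingleton.elim _ _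
  have hfin2 : Finite (Matrix (Fin m) (Fin m) (R ⧸ I ^ k)) :=
    inferInstanceAs (Finite (Fin m → Fin m → _))
  have hfin3 : Finite (Matrix (Fin m) (Fin m) (R ⧸ I ^ k))ˣ := inferInstance
  -- the maximal ideal of the quotient
  let q := Ideal.Quotient.mk (I ^ k)
  let I' : Ideal (R ⧸ I ^ k) := I.map q
  have hle : I ^ k ≤ I := Ideal.pow_le_self h0.ne'
  have hI' : I'.IsMaximal := by
    apply Ideal.IsMaximal.map_of_surjective_of_ker_le Ideal.Quotient.mk_surjective
    rw [Ideal.mk_ker]
    exact hle
  have hnil : I' ^ k = ⊥ := by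
    rw [← Ideal.map_pow, Ideal.map_quotient_self]
  have h1 := quot_trick hq (G := (Matrix (Fin m) (Fin m) (R ⧸ I ^ k))ˣ) (fun g => by
    have h2 := nil_trivial (ι := Fin n) (A := R ⧸ I ^ k) (by simpa using hn) I' k hnil
      (by simpa using hm) ((Units.coeHom _).comp g)
    ext A : 2
    exact DFunLike.congr_fun h2 A) θ.toHomUnits
  apply hθ
  have h3 := congrArg Units.val (DFunLike.congr_fun h1 g)
  simpa using h3

end Pool.Agent.R646.SLn
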